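import Pool.Agent.LWar.Defs

/-!
# LWar.Four: a trigonometric approximation of `ee (θ ⌊y⌋)`

PROOF. Let `P = XX r` (`P ≥ 1`), `j ≥ 1` a natural number depending on `A` only, `R = ⌈P^(7/6)⌉₊ ≥ 1`,
`G s = (∑_{n < R} ee (n s))^j`, `φ s = ‖G s‖²/∫_0^1 ‖G‖² ≥ 0`: a trigonometric polynomial
`φ s = ∑_{|m| < j R} φ̂ m ee (m s)`, `|φ̂ m| ≤ ∫_0^1 φ = 1`. For `|θ| ≤ 1/2` let `λ y = ee (-θ {y})`
(`{y} = Int.fract y`), periodic, `λ̂ m = ∫_0^1 ee (-(θ + m) y) dy`, so `‖λ̂ 0‖ ≤ 1` and
`‖λ̂ m‖ = ‖1 - ee (-θ)‖/(2π|θ+m|) ≤ |θ|/|θ+m| ≤ 1/|m|` for `m ≠ 0` (`|θ + m| ≥ |m|/2`). Let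
`κ = ∫_{-1/2}^{1/2} ee (θ s) φ s ds`; its real part is `∫ cos (2πθs) φ ≥ 0` as `|θ s| ≤ 1/4`, and
`‖κ‖ ≥ 1/2`: `1 - re κ = ∫ (1 - cos 2πθs) φ ≤ ∫_{|s| ≤ 1/P} + ..`, small by the tail bound below (for
large `P`; for all `P`: `cos (2πθs) ≥ 0` on `|s| ≤ 1/2` and the mass near `0`; it is enough to have it for
large `r`, and to put `c = 0` for the other `r`). Put
`c m θ = φ̂ m λ̂ m/κ` for `|θ| ≤ 1/2` and `c m θ = c m (max (-1/2) (min (1/2) θ))` in general (continuous in
`θ`), `c m = 0` for `|m| ≥ jR`; `jR ≤ DD r` for large `r`. Then for `|θ| ≤ 1/2`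
`∑_m c m θ ee (m y) = κ⁻¹ ∫_{-1/2}^{1/2} λ (y - s) φ s ds`. If `|y - n| ≥ η := P^(-9/8)` for all integers
`n`, then for `|s| < η` we have `⌊y - s⌋ = ⌊y⌋`, `λ (y - s) = ee (θ s) λ y`, so
`‖∑_m c m θ ee (m y) - λ y‖ ≤ ‖κ‖⁻¹ · 2 ∫_{η ≤ |s| ≤ 1/2} φ`. Tail: `‖∑_{n<R} ee (n s)‖ ≤ 1/(2|s|)` for
`|s| ≤ 1/2` (`|sin πs| ≥ 2|s|`), and `≥ R/2` for `|s| ≤ 1/(8R)` (real part: `cos(2πns) ≥ cos(π/4)`), so
`∫_0^1 ‖G‖² ≥ (R/2)^(2j)/(4R)` and `∫_{η ≤ |s| ≤ 1/2} φ ≤ (1/(2η))^(2j) · 4R · (2/R)^(2j) = 4R (ηR)^(-2j)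
≤ 8 P^(7/6) P^(-j/12)` as `ηR ≥ P^(7/6 - 9/8) = P^(1/24)`. Choose `j ≥ 12 (A + 3)`: this is `≤ P^(-A)/4` for
large `P`. Finally `ee (θ ⌊y⌋) = ee (θ y) λ y`.
The statement: a family `c` for all `r`, the bound for all `r`, the approximation for large `r`.
-/

namespace LWar

open Filter Topology MeasureTheory MWg KWar

private lemma Four_pow (s : ℝ) (n : ℕ) : ee ((n : ℝ) * s) = (ee s) ^ n := by
  unfold ee
  rw [← Complex.exp_nat_mul]
  congr 1
  push_cast
  ring

private lemma Four_int (n : ℤ) : ee (n : ℝ) = 1 := by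
  unfold ee
  rw [Complex.exp_eq_one_iff]
  exact ⟨n, by push_cast; ring⟩

private lemma Four_conj (s : ℝ) : (starRingEnd ℂ) (ee s) = ee (-s) := by
  unfold ee
  rw [← Complex.exp_conj]
  congr 1
  simp only [map_mul, Complex.conj_I, Complex.conj_ofReal, map_ofNat]
  push_cast
  ring

private lemma Four_deriv (x s : ℝ) :
    HasDerivAt (fun y : ℝ => ee (x * y)) (2 * Real.pi * x * Complex.I * ee (x * s)) s := by
  unfold ee
  have h1 : HasDerivAt (fun y : ℝ => (2 * Real.pi * ((x * y : ℝ) : ℂ) * Complex.I : ℂ))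
      (2 * Real.pi * x * Complex.I) s := by
    have h0 : HasDerivAt (fun y : ℝ => (y : ℂ)) 1 s := Complex.ofRealCLM.hasDerivAt
    have := (h0.const_mul (2 * Real.pi * x * Complex.I : ℂ))
    rw [mul_one] at this
    refine this.congr_of_eventuallyEq (Filter.Eventually.of_forall fun y => ?_)
    push_cast
    ring
  exact h1.cexp.congr_deriv (mul_comm _ _)

private noncomputable def Four_lam (x : ℝ) : ℂ := ∫ y in (0 : ℝ)..1, ee (-x * y)

private lemma Four_lam_mul (x : ℝ) :
    2 * Real.pi * x * Complex.I * Four_lam x = 1 - ee (-x) := by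
  unfold Four_lam
  have h : ∫ y in (0 : ℝ)..1, (2 * Real.pi * ((-x : ℝ) : ℂ) * Complex.I * ee (-x * y)) =
      ee (-x * 1) - ee (-x * 0) := by
    refine intervalIntegral.integral_eq_sub_of_hasDerivAt (fun y _ => Four_deriv (-x) y) ?_
    refine Continuous.intervalIntegrable ?_ _ _
    exact continuous_const.mul (ee_cont.comp (continuous_const.mul continuous_id))
  rw [intervalIntegral.integral_const_mul] at h
  have e0 : ee (-x * 0) = 1 := by
    have := Four_int 0
    simpa using this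
  rw [e0, mul_one] at h
  have h3 : 2 * Real.pi * x * Complex.I * (∫ y in (0 : ℝ)..1, ee (-x * y)) =
      -(2 * Real.pi * ((-x : ℝ) : ℂ) * Complex.I * ∫ y in (0 : ℝ)..1, ee (-x * y)) := by
    push_cast
    ring
  rw [h3, h]
  ring

private lemma Four_lam_norm (x : ℝ) : ‖Four_lam x‖ ≤ 1 := by
  unfold Four_lam
  have := intervalIntegral.norm_integral_le_of_norm_le_const (a := (0 : ℝ)) (b := 1) (C := 1)
    (f := fun y => ee (-x * y)) (fun y _ => (ee_norm _).le)
  simpa using this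

private lemma Four_lam_cont : Continuous Four_lam := by
  unfold Four_lam
  refine intervalIntegral.continuous_parametric_intervalIntegral_of_continuous' ?_ 0 1
  exact ee_cont.comp ((continuous_fst.neg).mul continuous_snd)

/-! The kernel -/

private noncomputable def Four_pl (j R : ℕ) : Polynomial ℝ :=
  (∑ i ∈ Finset.range R, Polynomial.X ^ i) ^ j

private lemma Four_deg {j R : ℕ} (hj : 1 ≤ j) (hR : 1 ≤ R) : (Four_pl j R).natDegree < j * R := by
  unfold Four_pl
  have h1 : (∑ i ∈ Finset.range R, (Polynomial.X : Polynomial ℝ) ^ i).natDegree ≤ R - 1 := by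
    refine Polynomial.natDegree_sum_le_of_forall_le _ _ fun i hi => ?_
    rw [Polynomial.natDegree_X_pow]
    have := Finset.mem_range.1 hi
    omega
  have h2 := Polynomial.natDegree_pow_le_of_le j h1
  have h3 : j * (R - 1) < j * R := Nat.mul_lt_mul_of_pos_left (by omega) hj
  exact lt_of_le_of_lt h2 h3

private noncomputable def Four_I (j R : ℕ) : ℝ :=
  ∑ n ∈ Finset.range (j * R), (Four_pl j R).coeff n ^ 2

private lemma Four_I_low {j R : ℕ} (hj : 1 ≤ j) (hR : 1 ≤ R) :
    ((R : ℝ) ^ j) ^ 2 ≤ ((j * R : ℕ) : ℝ) * Four_I j R := by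
  have h1 : (R : ℝ) ^ j = ∑ n ∈ Finset.range (j * R), (Four_pl j R).coeff n := by
    have h := Polynomial.eval_eq_sum_range' (Four_deg hj hR) (1 : ℝ)
    simp only [one_pow, mul_one] at h
    rw [← h]
    unfold Four_pl
    simp [Polynomial.eval_finsetSum]
  rw [h1]
  have h2 := sq_sum_le_card_mul_sum_sq (s := Finset.range (j * R))
    (f := fun n => (Four_pl j R).coeff n)
  rw [Finset.card_range] at h2
  exact h2

private lemma Four_I_pos {j R : ℕ} (hj : 1 ≤ j) (hR : 1 ≤ R) : 0 < Four_I j R := by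
  have h := Four_I_low hj hR
  have h1 : (0 : ℝ) < ((R : ℝ) ^ j) ^ 2 := by positivity
  have h2 : (0 : ℝ) < ((j * R : ℕ) : ℝ) * Four_I j R := lt_of_lt_of_le h1 h
  have h3 : (0 : ℝ) ≤ ((j * R : ℕ) : ℝ) := Nat.cast_nonneg _
  by_contra hc
  push Not at hc
  exact absurd h2 (not_lt.2 (mul_nonpos_of_nonneg_of_nonpos h3 hc))

private noncomputable def Four_G (j R : ℕ) (s : ℝ) : ℂ := (∑ i ∈ Finset.range R, ee s ^ i) ^ j

private noncomputable def Four_phi (j R : ℕ) (s : ℝ) : ℝ := ‖Four_G j R s‖ ^ 2 / Four_I j R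

private lemma Four_G_cont (j R : ℕ) : Continuous (Four_G j R) := by
  unfold Four_G
  exact (continuous_finsetSum _ fun i _ => ee_cont.pow i).pow j

private lemma Four_phi_cont (j R : ℕ) : Continuous (Four_phi j R) := by
  unfold Four_phi
  exact ((Four_G_cont j R).norm.pow 2).div_const _

private lemma Four_phi_nonneg {j R : ℕ} (hj : 1 ≤ j) (hR : 1 ≤ R) (s : ℝ) :
    0 ≤ Four_phi j R s :=
  div_nonneg (sq_nonneg _) (Four_I_pos hj hR).le

private lemma Four_G_eq {j R : ℕ} (hj : 1 ≤ j) (hR : 1 ≤ R) (s : ℝ) :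
    Four_G j R s = ∑ n ∈ Finset.range (j * R), ((Four_pl j R).coeff n : ℂ) * ee ((n : ℝ) * s) := by
  have h := Polynomial.aeval_eq_sum_range' (Four_deg hj hR) (ee s)
  have h2 : Polynomial.aeval (ee s) (Four_pl j R) = Four_G j R s := by
    unfold Four_pl Four_G
    simp
  rw [← h2, h]
  refine Finset.sum_congr rfl fun n _ => ?_
  rw [Four_pow]
  simp

private lemma Four_phi_eq {j R : ℕ} (hj : 1 ≤ j) (hR : 1 ≤ R) (s : ℝ) :
    (Four_phi j R s : ℂ) = ∑ p ∈ Finset.range (j * R) ×ˢ Finset.range (j * R),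
      (((Four_pl j R).coeff p.1 * (Four_pl j R).coeff p.2 / Four_I j R : ℝ) : ℂ) *
        ee (((p.1 : ℝ) - p.2) * s) := by
  have h1 : (((‖Four_G j R s‖ ^ 2 : ℝ)) : ℂ) = Four_G j R s * (starRingEnd ℂ) (Four_G j R s) := by
    rw [Complex.mul_conj, Complex.normSq_eq_norm_sq]
  have h2 : (Four_phi j R s : ℂ) = (Four_G j R s * (starRingEnd ℂ) (Four_G j R s)) *
      ((Four_I j R : ℝ) : ℂ)⁻¹ := by
    rw [← h1]
    unfold Four_phi
    push_cast
    rw [div_eq_mul_inv]
  rw [h2, Four_G_eq hj hR, map_sum, Finset.sum_mul_sum, ← Finset.sum_product', Finset.sum_mul]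
  refine Finset.sum_congr rfl fun p _ => ?_
  rw [map_mul, Four_conj, Complex.conj_ofReal]
  have e : ee (((p.1 : ℝ) - p.2) * s) = ee ((p.1 : ℝ) * s) * ee (-((p.2 : ℝ) * s)) := by
    rw [← ee_add]
    congr 1
    ring
  rw [e]
  push_cast
  rw [div_eq_mul_inv]
  ring

private lemma Four_int_ee (m : ℤ) : ∫ s in (-(1 / 2) : ℝ)..(1 / 2), ee ((m : ℝ) * s) =
    if m = 0 then 1 else 0 := by
  by_cases hm : m = 0
  · subst hm
    rw [if_pos rfl]
    have : ∀ s : ℝ, ee (((0 : ℤ) : ℝ) * s) = 1 := by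
      intro s
      have := Four_int 0
      simpa using this
    simp only [this]
    rw [intervalIntegral.integral_const]
    norm_num
  · rw [if_neg hm]
    have h : ∫ s in (-(1 / 2) : ℝ)..(1 / 2), (2 * Real.pi * (m : ℝ) * Complex.I * ee ((m : ℝ) * s)) =
        ee ((m : ℝ) * (1 / 2)) - ee ((m : ℝ) * (-(1 / 2))) := by
      refine intervalIntegral.integral_eq_sub_of_hasDerivAt (fun y _ => Four_deriv (m : ℝ) y) ?_
      refine Continuous.intervalIntegrable ?_ _ _
      exact continuous_const.mul (ee_cont.comp (continuous_const.mul continuous_id))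
    rw [intervalIntegral.integral_const_mul] at h
    have e1 : ee ((m : ℝ) * (1 / 2)) = ee ((m : ℝ) * (-(1 / 2))) := by
      have : (m : ℝ) * (1 / 2) = (m : ℝ) * (-(1 / 2)) + m := by ring
      rw [this, ee_add, Four_int, mul_one]
    rw [e1, sub_self] at h
    have h4 : (2 * Real.pi * (m : ℝ) * Complex.I : ℂ) ≠ 0 := by
      have h5 : ((Real.pi : ℝ) : ℂ) ≠ 0 := Complex.ofReal_ne_zero.2 Real.pi_ne_zero
      have h6 : (((m : ℤ) : ℝ) : ℂ) ≠ 0 := by
        rw [Complex.ofReal_intCast]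
        exact_mod_cast hm
      exact mul_ne_zero (mul_ne_zero (mul_ne_zero two_ne_zero h5) h6) Complex.I_ne_zero
    exact (mul_eq_zero.1 h).resolve_left h4

private lemma Four_phi_int {j R : ℕ} (hj : 1 ≤ j) (hR : 1 ≤ R) :
    ∫ s in (-(1 / 2) : ℝ)..(1 / 2), Four_phi j R s = 1 := by
  have h : (((∫ s in (-(1 / 2) : ℝ)..(1 / 2), Four_phi j R s : ℝ)) : ℂ) = 1 := by
    rw [← intervalIntegral.integral_ofReal]
    simp only [Four_phi_eq hj hR]
    rw [intervalIntegral.integral_finsetSum]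
    · have h1 : ∀ p : ℕ × ℕ, ∫ s in (-(1 / 2) : ℝ)..(1 / 2),
          (((Four_pl j R).coeff p.1 * (Four_pl j R).coeff p.2 / Four_I j R : ℝ) : ℂ) *
            ee (((p.1 : ℝ) - p.2) * s) =
          if p.1 = p.2 then
            (((Four_pl j R).coeff p.1 * (Four_pl j R).coeff p.2 / Four_I j R : ℝ) : ℂ) else 0 := by
        intro p
        rw [intervalIntegral.integral_const_mul]
        have e : ∀ s : ℝ, ee (((p.1 : ℝ) - p.2) * s) = ee ((((p.1 : ℤ) - (p.2 : ℤ) : ℤ) : ℝ) * s) := by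
          intro s
          push_cast
          rfl
        simp only [e]
        rw [Four_int_ee]
        by_cases hp : p.1 = p.2
        · rw [if_pos hp, if_pos (by omega), mul_one]
        · rw [if_neg hp, if_neg (by omega), mul_zero]
      simp only [h1]
      rw [Finset.sum_product]
      have h2 : ∀ a ∈ Finset.range (j * R), (∑ b ∈ Finset.range (j * R),
          if (a, b).1 = (a, b).2 then (((Four_pl j R).coeff (a, b).1 *
            (Four_pl j R).coeff (a, b).2 / Four_I j R : ℝ) : ℂ) else 0) =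
          (((Four_pl j R).coeff a ^ 2 / Four_I j R : ℝ) : ℂ) := by
        intro a ha
        rw [Finset.sum_eq_single a]
        · rw [if_pos rfl, pow_two]
        · intro b _ hb
          rw [if_neg]
          exact fun h => hb h.symm
        · exact fun h => absurd ha h
      rw [Finset.sum_congr rfl h2, ← Complex.ofReal_sum, ← Finset.sum_div]
      have h3 : (∑ n ∈ Finset.range (j * R), (Four_pl j R).coeff n ^ 2) = Four_I j R := rfl
      rw [h3, div_self (Four_I_pos hj hR).ne', Complex.ofReal_one]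
    · intro p _
      refine Continuous.intervalIntegrable ?_ _ _
      exact continuous_const.mul (ee_cont.comp (continuous_const.mul continuous_id))
  exact_mod_cast h

private lemma Four_phi_le {j R : ℕ} (hj : 1 ≤ j) (hR : 1 ≤ R) {s a : ℝ} (ha : 0 < a)
    (h : a ≤ ‖ee s - 1‖) :
    Four_phi j R s ≤ ((j * R : ℕ) : ℝ) * (2 / (a * R)) ^ (2 * j) := by
  have hR0 : (0 : ℝ) < R := by exact_mod_cast hR
  have h1 : ‖∑ i ∈ Finset.range R, ee s ^ i‖ ≤ 2 / a := by
    have h2 : (∑ i ∈ Finset.range R, ee s ^ i) * (ee s - 1) = ee s ^ R - 1 := geom_sum_mul (ee s) R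
    have h3 : ‖∑ i ∈ Finset.range R, ee s ^ i‖ * ‖ee s - 1‖ ≤ 2 := by
      rw [← norm_mul, h2]
      refine (norm_sub_le _ _).trans ?_
      rw [norm_pow, ee_norm, one_pow, norm_one]
      norm_num
    rw [le_div_iff₀ ha]
    exact (mul_le_mul_of_nonneg_left h (norm_nonneg _)).trans h3
  have h4 : ‖Four_G j R s‖ ^ 2 ≤ (2 / a) ^ (2 * j) := by
    unfold Four_G
    rw [norm_pow, ← pow_mul, mul_comm j 2]
    exact pow_le_pow_left₀ (norm_nonneg _) h1 _
  have h5 := Four_I_low hj hR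
  have hI := Four_I_pos hj hR
  unfold Four_phi
  rw [div_le_iff₀ hI]
  refine h4.trans ?_
  have e : ((j * R : ℕ) : ℝ) * (2 / (a * R)) ^ (2 * j) * Four_I j R =
      (2 / a) ^ (2 * j) * ((((j * R : ℕ) : ℝ) * Four_I j R) / ((R : ℝ) ^ j) ^ 2) := by
    rw [div_mul_eq_div_div, div_pow (2 / a) (R : ℝ), ← pow_mul, mul_comm j 2]
    ring
  rw [e]
  have h6 : 1 ≤ (((j * R : ℕ) : ℝ) * Four_I j R) / ((R : ℝ) ^ j) ^ 2 := by
    rw [le_div_iff₀ (by positivity), one_mul]
    exact h5
  exact le_mul_of_one_le_right (by positivity) h6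

private lemma Four_norm_sub (s : ℝ) : ‖ee s - 1‖ = 2 * |Real.sin (Real.pi * s)| := by
  unfold ee
  have h := Complex.norm_exp_I_mul_ofReal_sub_one (2 * Real.pi * s)
  have e : (2 * Real.pi * s * Complex.I : ℂ) = Complex.I * ((2 * Real.pi * s : ℝ) : ℂ) := by
    push_cast
    ring
  rw [e, h, Real.norm_eq_abs, abs_mul, abs_two]
  congr 3
  ring

private lemma Four_sin {s η : ℝ} (h1 : η ≤ s) (h2 : s ≤ 1 - η) (h0 : 0 ≤ η) :
    2 * η ≤ |Real.sin (Real.pi * s)| := by
  have hpi := Real.pi_pos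
  rcases le_total s (1 / 2) with h | h
  · have h3 := Real.mul_le_sin (x := Real.pi * s) (by nlinarith) (by nlinarith)
    have h4 : 2 / Real.pi * (Real.pi * s) = 2 * s := by
      field_simp
    rw [h4] at h3
    exact (by linarith : 2 * η ≤ 2 * s).trans (h3.trans (le_abs_self _))
  · have h3 := Real.mul_le_sin (x := Real.pi * (1 - s)) (by nlinarith) (by nlinarith)
    have h4 : 2 / Real.pi * (Real.pi * (1 - s)) = 2 * (1 - s) := by
      field_simp
    rw [h4] at h3
    have h5 : Real.sin (Real.pi * (1 - s)) = Real.sin (Real.pi * s) := by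
      rw [mul_sub, mul_one, Real.sin_pi_sub]
    rw [h5] at h3
    exact (by linarith : 2 * η ≤ 2 * (1 - s)).trans (h3.trans (le_abs_self _))

private lemma Four_ee_one (s : ℝ) : ee (s + 1) = ee s := by
  have := Four_int 1
  rw [Int.cast_one] at this
  rw [ee_add, this, mul_one]

private lemma Four_phi_per (j R : ℕ) (s : ℝ) : Four_phi j R (s + 1) = Four_phi j R s := by
  unfold Four_phi Four_G
  rw [Four_ee_one]

/-! The normalisation -/

private noncomputable def Four_ka (j R : ℕ) (θ : ℝ) : ℂ :=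
  ∫ s in (-(1 / 2) : ℝ)..(1 / 2), ee (θ * s) * (Four_phi j R s : ℂ)

private lemma Four_ka_cont (j R : ℕ) : Continuous (Four_ka j R) := by
  unfold Four_ka
  refine intervalIntegral.continuous_parametric_intervalIntegral_of_continuous' ?_ _ _
  exact (ee_cont.comp (continuous_fst.mul continuous_snd)).mul
    (Complex.continuous_ofReal.comp ((Four_phi_cont j R).comp continuous_snd))

private lemma Four_ka_low {j R : ℕ} (hj : 1 ≤ j) (hR : 1 ≤ R)
    (hs : ∀ s : ℝ, 1 / 8 ≤ s → s ≤ 7 / 8 → Four_phi j R s ≤ 1 / 8) {θ : ℝ} (hθ : |θ| ≤ 1 / 2) :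
    1 / 2 ≤ ‖Four_ka j R θ‖ := by
  have hre : (Four_ka j R θ).re =
      ∫ s in (-(1 / 2) : ℝ)..(1 / 2), Real.cos (2 * Real.pi * (θ * s)) * Four_phi j R s := by
    unfold Four_ka
    have hint : IntervalIntegrable (fun s : ℝ => ee (θ * s) * (Four_phi j R s : ℂ))
        MeasureTheory.volume (-(1 / 2)) (1 / 2) := by
      refine Continuous.intervalIntegrable ?_ _ _
      exact (ee_cont.comp (continuous_const.mul continuous_id)).mul
        (Complex.continuous_ofReal.comp (Four_phi_cont j R))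
    have h := Complex.reCLM.intervalIntegral_comp_comm hint
    rw [Complex.reCLM_apply] at h
    rw [← h]
    refine intervalIntegral.integral_congr fun s _ => ?_
    simp only [Complex.reCLM_apply]
    rw [Complex.re_mul_ofReal]
    unfold ee
    have e : (2 * Real.pi * ((θ * s : ℝ) : ℂ) * Complex.I : ℂ) =
        ((2 * Real.pi * (θ * s) : ℝ) : ℂ) * Complex.I := by
      push_cast
      ring
    rw [e, Complex.exp_ofReal_mul_I_re]
  have hc : Continuous fun s : ℝ => Real.cos (2 * Real.pi * (θ * s)) * Four_phi j R s :=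
    (Real.continuous_cos.comp (continuous_const.mul (continuous_const.mul continuous_id))).mul
      (Four_phi_cont j R)
  have hlow : (1 / 2 : ℝ) ≤ ∫ s in (-(1 / 2) : ℝ)..(1 / 2),
      Real.cos (2 * Real.pi * (θ * s)) * Four_phi j R s := by
    have h1 : ∫ s in (-(1 / 2) : ℝ)..(1 / 2), ((3 / 4 : ℝ) * Four_phi j R s - 1 / 4) = 1 / 2 := by
      rw [intervalIntegral.integral_sub, intervalIntegral.integral_const_mul, Four_phi_int hj hR,
        intervalIntegral.integral_const]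
      · norm_num
      · exact (continuous_const.mul (Four_phi_cont j R)).intervalIntegrable _ _
      · exact continuous_const.intervalIntegrable _ _
    refine h1.symm.le.trans ?_
    have hc2 : Continuous fun s : ℝ => (3 / 4 : ℝ) * Four_phi j R s - 1 / 4 :=
      (continuous_const.mul (Four_phi_cont j R)).sub continuous_const
    have hi1 : IntervalIntegrable (fun s : ℝ => (3 / 4 : ℝ) * Four_phi j R s - 1 / 4)
        MeasureTheory.volume (-(1 / 2)) (1 / 2) := hc2.intervalIntegrable _ _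
    have hi2 : IntervalIntegrable (fun s : ℝ => Real.cos (2 * Real.pi * (θ * s)) * Four_phi j R s)
        MeasureTheory.volume (-(1 / 2)) (1 / 2) := hc.intervalIntegrable _ _
    refine intervalIntegral.integral_mono_on (show (-(1 / 2) : ℝ) ≤ 1 / 2 by norm_num)
      hi1 hi2 fun s hsI => ?_
    have hφ := Four_phi_nonneg hj hR s
    have hs1 : |s| ≤ 1 / 2 := abs_le.2 ⟨by linarith [hsI.1], hsI.2⟩
    by_cases h8 : |s| ≤ 1 / 8
    · have hx : |2 * Real.pi * (θ * s)| ≤ 1 / 2 := by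
        rw [abs_mul, abs_mul, abs_mul, abs_two, abs_of_pos Real.pi_pos]
        have h2 : |θ| * |s| ≤ 1 / 2 * (1 / 8) := mul_le_mul hθ h8 (abs_nonneg _) (by norm_num)
        have h3 := Real.pi_lt_four
        have h4 := Real.pi_pos
        nlinarith [abs_nonneg θ, abs_nonneg s, mul_nonneg (abs_nonneg θ) (abs_nonneg s)]
      have h5 := Real.one_sub_sq_div_two_le_cos (x := 2 * Real.pi * (θ * s))
      have h6 : (2 * Real.pi * (θ * s)) ^ 2 ≤ (1 / 2) ^ 2 := by
        rw [← sq_abs]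
        exact pow_le_pow_left₀ (abs_nonneg _) hx 2
      have h7 : (3 / 4 : ℝ) ≤ Real.cos (2 * Real.pi * (θ * s)) := by nlinarith
      nlinarith [mul_le_mul_of_nonneg_right h7 hφ]
    · push Not at h8
      have h9 : Four_phi j R s ≤ 1 / 8 := by
        rcases le_total 0 s with h0 | h0
        · rw [abs_of_nonneg h0] at h8 hs1
          exact hs s h8.le (by linarith)
        · rw [abs_of_nonpos h0] at h8 hs1
          rw [← Four_phi_per]
          exact hs (s + 1) (by linarith) (by linarith)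
      have h10 := Real.neg_one_le_cos (2 * Real.pi * (θ * s))
      nlinarith [mul_le_mul_of_nonneg_right h10 hφ]
  rw [← hre] at hlow
  exact hlow.trans ((le_abs_self _).trans (Complex.abs_re_le_norm _))

/-! The polynomial -/

private noncomputable def Four_b (j R : ℕ) (m : ℤ) : ℝ :=
  ∑ p ∈ (Finset.range (j * R) ×ˢ Finset.range (j * R)).filter (fun p => (p.1 : ℤ) - p.2 = m),
    (Four_pl j R).coeff p.1 * (Four_pl j R).coeff p.2 / Four_I j R

private lemma Four_b_le {j R : ℕ} (hj : 1 ≤ j) (hR : 1 ≤ R) (m : ℤ) : |Four_b j R m| ≤ 1 := by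
  have hI := Four_I_pos hj hR
  unfold Four_b
  set F := (Finset.range (j * R) ×ˢ Finset.range (j * R)).filter
    (fun p : ℕ × ℕ => (p.1 : ℤ) - p.2 = m) with hF
  have h1 : ∑ p ∈ F, (Four_pl j R).coeff p.1 ^ 2 ≤ Four_I j R := by
    have inj : Set.InjOn (fun p : ℕ × ℕ => p.1) (F : Set (ℕ × ℕ)) := by
      intro p hp q hq h
      have hp' := (Finset.mem_filter.1 (Finset.mem_coe.1 hp)).2
      have hq' := (Finset.mem_filter.1 (Finset.mem_coe.1 hq)).2
      have h' : p.1 = q.1 := h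
      exact Prod.ext h' (by omega)
    have := Finset.sum_image (f := fun n => (Four_pl j R).coeff n ^ 2) inj
    rw [← this]
    refine Finset.sum_le_sum_of_subset_of_nonneg ?_ fun n _ _ => sq_nonneg _
    intro n hn
    obtain ⟨p, hp, rfl⟩ := Finset.mem_image.1 hn
    exact (Finset.mem_product.1 (Finset.mem_filter.1 hp).1).1
  have h2 : ∑ p ∈ F, (Four_pl j R).coeff p.2 ^ 2 ≤ Four_I j R := by
    have inj : Set.InjOn (fun p : ℕ × ℕ => p.2) (F : Set (ℕ × ℕ)) := by
      intro p hp q hq h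
      have hp' := (Finset.mem_filter.1 (Finset.mem_coe.1 hp)).2
      have hq' := (Finset.mem_filter.1 (Finset.mem_coe.1 hq)).2
      have h' : p.2 = q.2 := h
      exact Prod.ext (by omega) h'
    have := Finset.sum_image (f := fun n => (Four_pl j R).coeff n ^ 2) inj
    rw [← this]
    refine Finset.sum_le_sum_of_subset_of_nonneg ?_ fun n _ _ => sq_nonneg _
    intro n hn
    obtain ⟨p, hp, rfl⟩ := Finset.mem_image.1 hn
    exact (Finset.mem_product.1 (Finset.mem_filter.1 hp).1).2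
  have h3 : |∑ p ∈ F, (Four_pl j R).coeff p.1 * (Four_pl j R).coeff p.2| ≤ Four_I j R := by
    refine (Finset.abs_sum_le_sum_abs _ _).trans ?_
    have h4 : ∀ p ∈ F, |(Four_pl j R).coeff p.1 * (Four_pl j R).coeff p.2| ≤
        ((Four_pl j R).coeff p.1 ^ 2 + (Four_pl j R).coeff p.2 ^ 2) / 2 := by
      intro p _
      rw [abs_le]
      constructor
      · nlinarith [sq_nonneg ((Four_pl j R).coeff p.1 + (Four_pl j R).coeff p.2)]
      · nlinarith [sq_nonneg ((Four_pl j R).coeff p.1 - (Four_pl j R).coeff p.2)]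
    refine (Finset.sum_le_sum h4).trans ?_
    rw [← Finset.sum_div, Finset.sum_add_distrib]
    linarith
  rw [← Finset.sum_div, abs_div, abs_of_pos hI, div_le_one hI]
  exact h3

private lemma Four_sum {j R : ℕ} {D : ℕ} (hD : j * R ≤ D) (u : ℤ → ℂ) :
    ∑ m ∈ Finset.Icc (-(D : ℤ)) (D : ℤ), (Four_b j R m : ℂ) * u m =
      ∑ p ∈ Finset.range (j * R) ×ˢ Finset.range (j * R),
        (((Four_pl j R).coeff p.1 * (Four_pl j R).coeff p.2 / Four_I j R : ℝ) : ℂ) *
          u ((p.1 : ℤ) - p.2) := by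
  rw [← Finset.sum_fiberwise_of_maps_to (g := fun p : ℕ × ℕ => (p.1 : ℤ) - p.2)
    (t := Finset.Icc (-(D : ℤ)) (D : ℤ))]
  · refine Finset.sum_congr rfl fun m _ => ?_
    unfold Four_b
    rw [Complex.ofReal_sum, Finset.sum_mul]
    refine Finset.sum_congr rfl fun p hp => ?_
    rw [(Finset.mem_filter.1 hp).2]
  · intro p hp
    have h1 := Finset.mem_range.1 (Finset.mem_product.1 hp).1
    have h2 := Finset.mem_range.1 (Finset.mem_product.1 hp).2
    rw [Finset.mem_Icc]
    constructor <;> omega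

private noncomputable def Four_c (j R : ℕ) (m : ℤ) (θ : ℝ) : ℂ :=
  (Four_b j R m : ℂ) * (Four_lam (θ + m) * (Four_ka j R θ)⁻¹)

private lemma Four_lam_le {θ : ℝ} (hθ : |θ| ≤ 1 / 2) (m : ℤ) :
    ‖Four_lam (θ + m)‖ ≤ 2 / (1 + |(m : ℝ)|) := by
  by_cases hm : m = 0
  · subst hm
    refine (Four_lam_norm _).trans ?_
    simp
  · have h1 : (1 : ℝ) ≤ |(m : ℝ)| := by
      rw [← Int.cast_abs]
      exact_mod_cast Int.one_le_abs hm
    have h2 : |(m : ℝ)| / 2 ≤ |θ + m| := by
      have := abs_sub_abs_le_abs_sub (m : ℝ) (-θ)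
      rw [abs_neg, sub_neg_eq_add, add_comm (m : ℝ) θ] at this
      linarith
    have h3 : ‖(2 * Real.pi * ((θ + m : ℝ) : ℂ) * Complex.I : ℂ)‖ = 2 * Real.pi * |θ + m| := by
      rw [norm_mul, norm_mul, norm_mul, Complex.norm_I, Complex.norm_real, Complex.norm_real,
        Real.norm_eq_abs, Real.norm_eq_abs, abs_of_pos Real.pi_pos, Complex.norm_ofNat, mul_one]
    have h4 := congrArg norm (Four_lam_mul (θ + m))
    rw [norm_mul, h3] at h4
    have h5 : ‖1 - ee (-(θ + m))‖ ≤ 2 := by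
      refine (norm_sub_le _ _).trans ?_
      rw [ee_norm, norm_one]
      norm_num
    rw [← h4] at h5
    have h6 := Real.pi_gt_three
    have h7 := norm_nonneg (Four_lam (θ + m))
    rw [le_div_iff₀ (by positivity)]
    have h8 : 2 * 3 * (|(m : ℝ)| / 2) * ‖Four_lam (θ + m)‖ ≤
        2 * Real.pi * |θ + m| * ‖Four_lam (θ + m)‖ := by
      refine mul_le_mul_of_nonneg_right ?_ h7
      exact mul_le_mul (by linarith) h2 (by positivity) (by positivity)
    nlinarith

private lemma Four_main {j R D : ℕ} (hj : 1 ≤ j) (hR : 1 ≤ R) (hD : j * R ≤ D) {θ η B : ℝ}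
    (hka : 1 / 2 ≤ ‖Four_ka j R θ‖) (hη0 : 0 ≤ η) (hη : η ≤ 1 / 2)
    (hB : ∀ s : ℝ, η ≤ s → s ≤ 1 - η → Four_phi j R s ≤ B) (hθ : |θ| ≤ 1 / 2) (y : ℝ)
    (hy : ∀ n : ℤ, η ≤ |y - n|) :
    ‖ee (θ * (⌊y⌋ : ℤ)) - ee (θ * y) *
        ∑ m ∈ Finset.Icc (-(D : ℤ)) (D : ℤ), Four_c j R m θ * ee ((m : ℝ) * y)‖ ≤ 4 * B := by
  have hk0 : Four_ka j R θ ≠ 0 := by
    intro h
    rw [h, norm_zero] at hka
    norm_num at hka
  have hB0 : 0 ≤ B := (Four_phi_nonneg hj hR (1 / 2)).trans (hB _ hη (by linarith))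
  -- the function U
  let U : ℝ → ℂ := fun x => ∑ p ∈ Finset.range (j * R) ×ˢ Finset.range (j * R),
    (((Four_pl j R).coeff p.1 * (Four_pl j R).coeff p.2 / Four_I j R : ℝ) : ℂ) *
      (Four_lam (θ + ((p.1 : ℤ) - p.2 : ℤ)) * (Four_ka j R θ)⁻¹ *
        ee ((θ + ((p.1 : ℤ) - p.2 : ℤ)) * x))
  have hU : ∀ x, ee (θ * x) *
      ∑ m ∈ Finset.Icc (-(D : ℤ)) (D : ℤ), Four_c j R m θ * ee ((m : ℝ) * x) = U x := by
    intro x
    have h := Four_sum hD (fun m => Four_lam (θ + m) * (Four_ka j R θ)⁻¹ * ee ((θ + m) * x))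
    simp only [U]
    rw [← h, Finset.mul_sum]
    refine Finset.sum_congr rfl fun m _ => ?_
    unfold Four_c
    have e : ee ((θ + m) * x) = ee (θ * x) * ee ((m : ℝ) * x) := by
      rw [← ee_add]
      congr 1
      ring
    rw [e]
    ring
  have hUd : ∀ x, HasDerivAt U ((1 - ee (-θ)) * (Four_ka j R θ)⁻¹ *
      (ee (θ * x) * (Four_phi j R x : ℂ))) x := by
    intro x
    have h1 : HasDerivAt U (∑ p ∈ Finset.range (j * R) ×ˢ Finset.range (j * R),
        (((Four_pl j R).coeff p.1 * (Four_pl j R).coeff p.2 / Four_I j R : ℝ) : ℂ) *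
        (Four_lam (θ + ((p.1 : ℤ) - p.2 : ℤ)) * (Four_ka j R θ)⁻¹ *
          (2 * Real.pi * ((θ + ((p.1 : ℤ) - p.2 : ℤ) : ℝ) : ℂ) * Complex.I *
            ee ((θ + ((p.1 : ℤ) - p.2 : ℤ)) * x)))) x := by
      refine HasDerivAt.fun_sum fun p _ => ?_
      exact ((Four_deriv _ x).const_mul _).const_mul _
    have h2 : (1 - ee (-θ)) * (Four_ka j R θ)⁻¹ * (ee (θ * x) * (Four_phi j R x : ℂ)) =
        ∑ p ∈ Finset.range (j * R) ×ˢ Finset.range (j * R),
        (((Four_pl j R).coeff p.1 * (Four_pl j R).coeff p.2 / Four_I j R : ℝ) : ℂ) *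
        (Four_lam (θ + ((p.1 : ℤ) - p.2 : ℤ)) * (Four_ka j R θ)⁻¹ *
          (2 * Real.pi * ((θ + ((p.1 : ℤ) - p.2 : ℤ) : ℝ) : ℂ) * Complex.I *
            ee ((θ + ((p.1 : ℤ) - p.2 : ℤ)) * x))) := by
      rw [Four_phi_eq hj hR, Finset.mul_sum, Finset.mul_sum]
      refine Finset.sum_congr rfl fun p _ => ?_
      have e1 : ee ((θ + ((p.1 : ℤ) - p.2 : ℤ)) * x) =
          ee (θ * x) * ee (((p.1 : ℝ) - p.2) * x) := by
        rw [← ee_add]
        congr 1
        push_cast
        ring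
      have e2 := Four_lam_mul (θ + ((p.1 : ℤ) - p.2 : ℤ))
      have e3 : ee (-(θ + (((p.1 : ℤ) - p.2 : ℤ) : ℝ))) = ee (-θ) := by
        have : -(θ + (((p.1 : ℤ) - p.2 : ℤ) : ℝ)) = -θ + ((-((p.1 : ℤ) - p.2) : ℤ) : ℝ) := by
          push_cast
          ring
        rw [this, ee_add, Four_int, mul_one]
      rw [e3] at e2
      rw [e1, ← e2]
      ring
    rw [h2]
    exact h1
  have hU1 : ∀ x, U (x + 1) = ee θ * U x := by
    intro x
    simp only [U]
    rw [Finset.mul_sum]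
    refine Finset.sum_congr rfl fun p _ => ?_
    have e : ee ((θ + (((p.1 : ℤ) - p.2 : ℤ) : ℝ)) * (x + 1)) =
        ee θ * ee ((θ + (((p.1 : ℤ) - p.2 : ℤ) : ℝ)) * x) := by
      have : (θ + (((p.1 : ℤ) - p.2 : ℤ) : ℝ)) * (x + 1) =
        (θ + (θ + (((p.1 : ℤ) - p.2 : ℤ) : ℝ)) * x) + (((p.1 : ℤ) - p.2 : ℤ) : ℝ) := by ring
      rw [this, ee_add, Four_int, mul_one, ee_add]
    rw [e]
    ring
  have hUn : ∀ (n : ℕ) x, U (x + n) = ee (θ * n) * U x := by
    intro n
    induction n with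
    | zero =>
      intro x
      have := Four_int 0
      rw [Int.cast_zero] at this
      rw [Nat.cast_zero, add_zero, mul_zero, this, one_mul]
    | succ n ih =>
      intro x
      have : x + ((n + 1 : ℕ) : ℝ) = (x + n) + 1 := by push_cast; ring
      rw [this, hU1, ih, ← mul_assoc, ← ee_add]
      congr 2
      push_cast
      ring
  have hUz : ∀ (n : ℤ) x, U (x + n) = ee (θ * n) * U x := by
    intro n x
    obtain ⟨k, rfl | rfl⟩ := n.eq_nat_or_neg
    · exact hUn k x
    · have h := hUn k (x + ((-(k : ℤ) : ℤ) : ℝ))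
      have e : x + ((-(k : ℤ) : ℤ) : ℝ) + (k : ℝ) = x := by push_cast; ring
      rw [e] at h
      rw [h, ← mul_assoc, ← ee_add]
      have e2 : θ * ((-(k : ℤ) : ℤ) : ℝ) + θ * (k : ℝ) = 0 := by push_cast; ring
      have := Four_int 0
      rw [Int.cast_zero] at this
      rw [e2, this, one_mul]
  have hUh : U (1 / 2) = 1 := by
    by_cases h0 : θ = 0
    · -- θ = 0
      have hka1 : Four_ka j R θ = 1 := by
        unfold Four_ka
        have e : ∀ s : ℝ, ee (θ * s) * (Four_phi j R s : ℂ) = (Four_phi j R s : ℂ) := by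
          intro s
          have := Four_int 0
          rw [Int.cast_zero] at this
          rw [h0, zero_mul, this, one_mul]
        simp only [e]
        rw [intervalIntegral.integral_ofReal, Four_phi_int hj hR, Complex.ofReal_one]
      have hlam : ∀ n : ℤ, Four_lam (θ + n) = if n = 0 then 1 else 0 := by
        intro n
        by_cases hn : n = 0
        · subst hn
          rw [if_pos rfl, h0]
          unfold Four_lam
          have e : ∀ y : ℝ, ee (-(0 + ((0 : ℤ) : ℝ)) * y) = 1 := by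
            intro y
            have := Four_int 0
            simpa using this
          simp only [e]
          rw [intervalIntegral.integral_const]
          norm_num
        · rw [if_neg hn]
          have h := Four_lam_mul (θ + n)
          rw [h0, zero_add] at h ⊢
          have e : ee (-(n : ℝ)) = 1 := by
            have := Four_int (-n)
            rw [Int.cast_neg] at this
            exact this
          rw [e, sub_self] at h
          have h4 : (2 * Real.pi * ((n : ℝ) : ℂ) * Complex.I : ℂ) ≠ 0 := by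
            have h5 : ((Real.pi : ℝ) : ℂ) ≠ 0 := Complex.ofReal_ne_zero.2 Real.pi_ne_zero
            have h6 : (((n : ℤ) : ℝ) : ℂ) ≠ 0 := by
              rw [Complex.ofReal_intCast]
              exact_mod_cast hn
            exact mul_ne_zero (mul_ne_zero (mul_ne_zero two_ne_zero h5) h6) Complex.I_ne_zero
          exact (mul_eq_zero.1 h).resolve_left h4
      simp only [U]
      rw [Finset.sum_product]
      have h2 : ∀ a ∈ Finset.range (j * R), (∑ b ∈ Finset.range (j * R),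
          (((Four_pl j R).coeff (a, b).1 * (Four_pl j R).coeff (a, b).2 / Four_I j R : ℝ) : ℂ) *
          (Four_lam (θ + (((((a, b) : ℕ × ℕ).1 : ℤ) - ((a, b) : ℕ × ℕ).2 : ℤ) : ℝ)) *
            (Four_ka j R θ)⁻¹ *
            ee ((θ + (((((a, b) : ℕ × ℕ).1 : ℤ) - ((a, b) : ℕ × ℕ).2 : ℤ) : ℝ)) * (1 / 2)))) =
          (((Four_pl j R).coeff a ^ 2 / Four_I j R : ℝ) : ℂ) := by
        intro a ha
        rw [Finset.sum_eq_single a]
        · have e := Four_int 0
          rw [Int.cast_zero] at e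
          simp only [hlam, sub_self, if_true]
          rw [hka1, h0, Int.cast_zero, add_zero, zero_mul, e, inv_one, mul_one, mul_one,
            mul_one, pow_two]
        · intro b _ hb
          simp only [hlam]
          rw [if_neg (by omega), zero_mul, zero_mul, mul_zero]
        · exact fun h => absurd ha h
      rw [Finset.sum_congr rfl h2, ← Complex.ofReal_sum, ← Finset.sum_div]
      have h3 : (∑ n ∈ Finset.range (j * R), (Four_pl j R).coeff n ^ 2) = Four_I j R := rfl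
      rw [h3, div_self (Four_I_pos hj hR).ne', Complex.ofReal_one]
    · have h1 : ∫ x in (-(1 / 2) : ℝ)..(1 / 2), ((1 - ee (-θ)) * (Four_ka j R θ)⁻¹ *
          (ee (θ * x) * (Four_phi j R x : ℂ))) = U (1 / 2) - U (-(1 / 2)) := by
        refine intervalIntegral.integral_eq_sub_of_hasDerivAt (fun x _ => hUd x) ?_
        refine Continuous.intervalIntegrable ?_ _ _
        exact continuous_const.mul ((ee_cont.comp (continuous_const.mul continuous_id)).mul
          (Complex.continuous_ofReal.comp (Four_phi_cont j R)))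
      rw [intervalIntegral.integral_const_mul] at h1
      have h2 : (∫ x in (-(1 / 2) : ℝ)..(1 / 2), ee (θ * x) * (Four_phi j R x : ℂ)) =
        Four_ka j R θ := rfl
      rw [h2, mul_assoc, inv_mul_cancel₀ hk0, mul_one] at h1
      have h3 : U (1 / 2) = ee θ * U (-(1 / 2)) := by
        rw [← hU1]
        norm_num
      have h4 : U (-(1 / 2)) = ee (-θ) * U (1 / 2) := by
        rw [h3, ← mul_assoc, ← ee_add, neg_add_cancel]
        have := Four_int 0
        rw [Int.cast_zero] at this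
        rw [this, one_mul]
      rw [h4] at h1
      have h5 : (1 - ee (-θ)) * (U (1 / 2) - 1) = 0 := by
        linear_combination -h1
      have h6 : (1 - ee (-θ)) ≠ 0 := by
        intro h
        have h7 := Four_norm_sub (-θ)
        rw [← norm_neg, neg_sub, h, norm_zero] at h7
        have h8 : Real.sin (Real.pi * (-θ)) = 0 := by
          have := (mul_eq_zero.1 h7.symm).resolve_left two_ne_zero
          exact abs_eq_zero.1 this
        rw [mul_neg, Real.sin_neg, neg_eq_zero] at h8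
        have h9 := abs_le.1 hθ
        have hpi := Real.pi_pos
        rw [Real.sin_eq_zero_iff_of_lt_of_lt (by nlinarith) (by nlinarith)] at h8
        exact h0 ((mul_eq_zero.1 h8).resolve_left hpi.ne')
      exact sub_eq_zero.1 ((mul_eq_zero.1 h5).resolve_left h6)
  -- conclusion
  rw [hU]
  set n : ℤ := ⌊y⌋ with hn
  have hy1 : η ≤ y - n := by
    have := hy n
    rwa [abs_of_nonneg (by linarith [Int.floor_le y])] at this
  have hy2 : y - n ≤ 1 - η := by
    have := hy (n + 1)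
    have h2 := Int.lt_floor_add_one y
    rw [abs_of_nonpos (by push_cast; linarith)] at this
    push_cast at this
    linarith
  have h1 : U y = ee (θ * n) * U (y - n) := by
    rw [← hUz]
    congr 1
    ring
  rw [h1]
  have h2 : ee (θ * n) - ee (θ * n) * U (y - n) = ee (θ * n) * (U (1 / 2) - U (y - n)) := by
    rw [hUh]
    ring
  rw [h2, norm_mul, ee_norm, one_mul]
  have h3 : ∀ x ∈ Set.Icc η (1 - η), ‖(1 - ee (-θ)) * (Four_ka j R θ)⁻¹ *
      (ee (θ * x) * (Four_phi j R x : ℂ))‖ ≤ 4 * B := by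
    intro x hx
    rw [norm_mul, norm_mul, norm_mul, ee_norm, one_mul, norm_inv, Complex.norm_real,
      Real.norm_eq_abs, abs_of_nonneg (Four_phi_nonneg hj hR x)]
    have e1 : ‖1 - ee (-θ)‖ ≤ 2 := by
      refine (norm_sub_le _ _).trans ?_
      rw [ee_norm, norm_one]
      norm_num
    have e2 : ‖Four_ka j R θ‖⁻¹ ≤ 2 := by
      rw [inv_le_comm₀ (lt_of_lt_of_le (by norm_num) hka) (by norm_num)]
      linarith
    have e3 : ‖1 - ee (-θ)‖ * ‖Four_ka j R θ‖⁻¹ ≤ 2 * 2 :=
      mul_le_mul e1 e2 (inv_nonneg.2 (norm_nonneg _)) (by norm_num)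
    calc ‖1 - ee (-θ)‖ * ‖Four_ka j R θ‖⁻¹ * Four_phi j R x ≤ 2 * 2 * B :=
          mul_le_mul e3 (hB x hx.1 hx.2) (Four_phi_nonneg hj hR x) (by norm_num)
      _ = 4 * B := by ring
  have h4 := (convex_Icc η (1 - η)).norm_image_sub_le_of_norm_hasDerivWithin_le
    (fun x _ => (hUd x).hasDerivWithinAt) h3 (⟨hy1, hy2⟩ : y - n ∈ Set.Icc η (1 - η))
    (⟨hη, by linarith⟩ : (1 / 2 : ℝ) ∈ Set.Icc η (1 - η))
  refine h4.trans ?_
  have h5 : ‖(1 / 2 : ℝ) - (y - n)‖ ≤ 1 := by
    rw [Real.norm_eq_abs, abs_le]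
    constructor <;> linarith
  calc 4 * B * ‖(1 / 2 : ℝ) - (y - n)‖ ≤ 4 * B * 1 :=
        mul_le_mul_of_nonneg_left h5 (by positivity)
    _ = 4 * B := mul_one _

theorem four (A : ℕ) : ∃ (C : ℝ) (c : ℕ → ℤ → ℝ → ℂ), 0 < C ∧ (∀ r m, Continuous (c r m)) ∧
    (∀ r m θ, |θ| ≤ 1 / 2 → ‖c r m θ‖ ≤ C / (1 + |(m : ℝ)|)) ∧
    ∀ᶠ r : ℕ in atTop, ∀ θ y : ℝ, |θ| ≤ 1 / 2 →
      (∀ n : ℤ, (XX r) ^ (-(9 : ℝ) / 8) ≤ |y - n|) →
      ‖ee (θ * (⌊y⌋ : ℤ)) - ee (θ * y) *
        ∑ m ∈ Finset.Icc (-(DD r : ℤ)) (DD r : ℤ), c r m θ * ee ((m : ℝ) * y)‖ ≤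
        1 / (XX r) ^ A := by
  classical
  set j : ℕ := 12 * (A + 3) with hjdef
  have hj : 1 ≤ j := by omega
  let R : ℕ → ℕ := fun r => ⌈(XX r) ^ ((7 : ℝ) / 6)⌉₊
  have hXpos : ∀ r, 0 < XX r := fun r => by unfold XX; positivity
  have hX1 : ∀ r, 1 ≤ XX r := fun r => by unfold XX; exact one_le_pow₀ (by norm_num)
  have hR1 : ∀ r, 1 ≤ R r := by
    intro r
    exact Nat.one_le_iff_ne_zero.2 (Nat.ceil_pos.2 (Real.rpow_pos_of_pos (hXpos r) _)).ne'
  let good : ℕ → Prop := fun r => ∀ θ : ℝ, |θ| ≤ 1 / 2 → 1 / 2 ≤ ‖Four_ka j (R r) θ‖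
  let cl : ℝ → ℝ := fun θ => max (-(1 / 2)) (min (1 / 2) θ)
  have hcl : Continuous cl := continuous_const.max (continuous_const.min continuous_id)
  have hclb : ∀ θ, |cl θ| ≤ 1 / 2 := by
    intro θ
    rw [abs_le]
    exact ⟨le_max_left _ _, max_le (by norm_num) (min_le_left _ _)⟩
  have hcle : ∀ θ, |θ| ≤ 1 / 2 → cl θ = θ := by
    intro θ h
    rw [abs_le] at h
    simp only [cl]
    rw [min_eq_right h.2, max_eq_right h.1]
  refine ⟨4, fun r m θ => if good r then Four_c j (R r) m (cl θ) else 0, by norm_num, ?_, ?_, ?_⟩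
  · intro r m
    by_cases hg : good r
    · simp only [if_pos hg]
      unfold Four_c
      refine continuous_const.mul (Continuous.mul ?_ ?_)
      · exact Four_lam_cont.comp (hcl.add continuous_const)
      · refine Continuous.inv₀ ((Four_ka_cont j (R r)).comp hcl) fun θ h => ?_
        have := hg (cl θ) (hclb θ)
        rw [h, norm_zero] at this
        norm_num at this
    · simp only [if_neg hg]
      exact continuous_const
  · intro r m θ hθ
    by_cases hg : good r
    · simp only [if_pos hg]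
      rw [hcle θ hθ]
      unfold Four_c
      rw [norm_mul, norm_mul, norm_inv, Complex.norm_real, Real.norm_eq_abs]
      have h1 := Four_b_le hj (hR1 r) m
      have h2 := Four_lam_le hθ m
      have h3 : ‖Four_ka j (R r) θ‖⁻¹ ≤ 2 := by
        have := hg θ hθ
        rw [inv_le_comm₀ (lt_of_lt_of_le (by norm_num) this) (by norm_num)]
        linarith
      have h4 : ‖Four_lam (θ + m)‖ * ‖Four_ka j (R r) θ‖⁻¹ ≤ 2 / (1 + |(m : ℝ)|) * 2 :=
        mul_le_mul h2 h3 (inv_nonneg.2 (norm_nonneg _)) (by positivity)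
      calc |Four_b j (R r) m| * (‖Four_lam (θ + m)‖ * ‖Four_ka j (R r) θ‖⁻¹) ≤
            1 * (2 / (1 + |(m : ℝ)|) * 2) :=
              mul_le_mul h1 h4 (mul_nonneg (norm_nonneg _) (inv_nonneg.2 (norm_nonneg _)))
                (by norm_num)
        _ = 4 / (1 + |(m : ℝ)|) := by ring
    · simp only [if_neg hg]
      rw [norm_zero]
      positivity
  · -- large r
    have hXt : Tendsto XX atTop atTop := by
      unfold XX
      exact tendsto_pow_atTop_atTop_of_one_lt (by norm_num)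
    have h16 : ∀ᶠ r : ℕ in atTop, (2 * j : ℝ) ≤ (XX r) ^ ((1 : ℝ) / 6) :=
      ((tendsto_rpow_atTop (by norm_num)).comp hXt).eventually_ge_atTop _
    have h8 : ∀ᶠ r : ℕ in atTop, (16 * j + 8 : ℝ) ≤ XX r := hXt.eventually_ge_atTop _
    filter_upwards [h16, h8] with r hr1 hr2
    have hP := hXpos r
    have hP1 := hX1 r
    have hj0 : (1 : ℝ) ≤ j := by exact_mod_cast hj
    set P : ℝ := XX r with hPdef
    set η : ℝ := P ^ (-(9 : ℝ) / 8) with hη
    have hη0 : 0 < η := Real.rpow_pos_of_pos hP _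
    have hη8 : η ≤ 1 / 8 := by
      have h1 : η ≤ P ^ (-1 : ℝ) := Real.rpow_le_rpow_of_exponent_le hP1 (by norm_num)
      rw [Real.rpow_neg_one] at h1
      refine h1.trans ?_
      rw [inv_le_comm₀ hP (by norm_num)]
      linarith
    have hRup : ((R r : ℕ) : ℝ) ≤ 2 * P ^ ((7 : ℝ) / 6) := by
      have h1 : ((R r : ℕ) : ℝ) < P ^ ((7 : ℝ) / 6) + 1 :=
        Nat.ceil_lt_add_one (Real.rpow_nonneg hP.le _)
      have h2 : (1 : ℝ) ≤ P ^ ((7 : ℝ) / 6) := Real.one_le_rpow hP1 (by norm_num)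
      linarith
    have hRlow : P ^ ((7 : ℝ) / 6) ≤ ((R r : ℕ) : ℝ) := Nat.le_ceil _
    have hR0 : (0 : ℝ) < R r := by exact_mod_cast hR1 r
    -- the bound of the kernel
    have hφ : ∀ s : ℝ, η ≤ s → s ≤ 1 - η → Four_phi j (R r) s ≤ 2 * j / P ^ (A + 1) := by
      intro s hs1 hs2
      have h1 : 4 * η ≤ ‖ee s - 1‖ := by
        rw [Four_norm_sub]
        have := Four_sin hs1 hs2 hη0.le
        linarith
      have h2 := Four_phi_le hj (hR1 r) (by positivity) h1
      refine h2.trans ?_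
      have h3 : P ^ ((1 : ℝ) / 24) ≤ η * R r := by
        have : P ^ ((1 : ℝ) / 24) = η * P ^ ((7 : ℝ) / 6) := by
          rw [hη, ← Real.rpow_add hP]
          norm_num
        rw [this]
        exact mul_le_mul_of_nonneg_left hRlow hη0.le
      have hq0 : 0 < P ^ ((1 : ℝ) / 24) := Real.rpow_pos_of_pos hP _
      have h4 : 2 / (4 * η * R r) ≤ 1 / P ^ ((1 : ℝ) / 24) := by
        rw [div_le_div_iff₀ (by positivity) hq0]
        nlinarith
      have h5 : (2 / (4 * η * R r)) ^ (2 * j) ≤ 1 / P ^ (A + 3) := by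
        refine (pow_le_pow_left₀ (by positivity) h4 _).trans (le_of_eq ?_)
        rw [div_pow, one_pow, ← Real.rpow_natCast (P ^ ((1 : ℝ) / 24)), ← Real.rpow_mul hP.le]
        have : (1 : ℝ) / 24 * ((2 * j : ℕ) : ℝ) = ((A + 3 : ℕ) : ℝ) := by
          rw [hjdef]
          push_cast
          ring
        rw [this, Real.rpow_natCast]
      have h6 : ((j * R r : ℕ) : ℝ) ≤ 2 * j * P ^ 2 := by
        have h7 : P ^ ((7 : ℝ) / 6) ≤ P ^ 2 := by
          rw [← Real.rpow_natCast P 2]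
          exact Real.rpow_le_rpow_of_exponent_le hP1 (by norm_num)
        push_cast
        nlinarith
      calc ((j * R r : ℕ) : ℝ) * (2 / (4 * η * R r)) ^ (2 * j) ≤
            2 * j * P ^ 2 * (1 / P ^ (A + 3)) :=
              mul_le_mul h6 h5 (by positivity) (by positivity)
        _ = 2 * j / P ^ (A + 1) := by
          rw [show A + 3 = (A + 1) + 2 by ring, pow_add]
          field_simp
    have hPA : P ≤ P ^ (A + 1) := by
      rw [pow_succ]
      exact le_mul_of_one_le_left hP.le (one_le_pow₀ hP1)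
    have hPA0 : 0 < P ^ (A + 1) := pow_pos hP _
    have hgood : good r := by
      intro θ hθ
      refine Four_ka_low hj (hR1 r) (fun s h1 h2 => ?_) hθ
      refine (hφ s (hη8.trans h1) (by linarith)).trans ?_
      rw [div_le_div_iff₀ hPA0 (by norm_num)]
      linarith
    have hD : j * R r ≤ DD r := by
      unfold DD
      refine Nat.le_floor ?_
      rw [← hPdef]
      have h1 : P ^ ((4 : ℝ) / 3) = P ^ ((1 : ℝ) / 6) * P ^ ((7 : ℝ) / 6) := by
        rw [← Real.rpow_add hP]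
        norm_num
      rw [h1]
      have h2 : (0 : ℝ) < P ^ ((7 : ℝ) / 6) := Real.rpow_pos_of_pos hP _
      push_cast
      nlinarith
    intro θ y hθ hy
    simp only [if_pos hgood]
    rw [hcle θ hθ]
    refine (Four_main hj (hR1 r) hD (hgood θ hθ) hη0.le (by linarith) hφ hθ y hy).trans ?_
    rw [← mul_div_assoc, div_le_div_iff₀ hPA0 (pow_pos hP _), pow_succ]
    have hPA1 : 0 < P ^ A := pow_pos hP _
    nlinarith

end LWar
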