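import Pool.Agent.LWar.HighF
import Pool.Agent.LWar.Four
import Pool.Agent.LWar.DistN

/-!
# LWar.AeF: sums of integer parts, all integer targets, almost all coefficients

PROOF. Let `P = XX r`. Fix `φ`. Let `A` be a large natural number (`A = 2kq + 3k + q + 10`, say, times
whatever is needed), `c`, `C` from `four A`. As in `AeN` (`highF` instead of `high`; measurability of
`t ↦ MA ..`: continuity by dominated convergence as in `KWar.m2_cont`, or strong measurability of the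
integral of a jointly measurable function): for almost every `t`
`∑_{N ∈ NN k r} ∏_l α_l(N)² → 0`, `α_l(N) = ‖MA (TH r) ..‖/sz`. Moreover for almost every `t` (`ae_dist`, `d ≥ 1`
by `c1`, `c2`) the values `f x`, `f = ff k d g t`, `1 ≤ x ≤ 16 P`, satisfy the hypothesis of `four` for large
`r`. Fix such a `t`. All letters of `z ∈ Zs`, `b ∈ Bk` are in `[1, 16P]` (`chain_letter`, `mem_mainI`,
`ch_size` or `nxt_le_self`: `P_i ≤ P`; `mem_J1`; `mem_blk`, `be_bounds`, `Q^(N-4j) ≤ P`). Hence for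
`θ ∈ TH r` every letter satisfies `‖ee (θ ⌊f x⌋) - LL .. x‖ ≤ P^(-A)`, `‖ee‖ = 1`, `‖LL‖ ≤ 2`, so the product
over the `s = 2n + 1 + JM` letters of a tuple changes by at most `s 2^s P^(-A)`. For `r` so large that
`K r θ = 0` for `|θ| > 1/2`: `M2 (K r) .. 1 (fl f) N` is the integral over `TT r 1 = {P⁻¹ < |θ| ≤ 1}`
(`P/P^1 = 1`), the integrand vanishes for `|θ| > 1/2`, so it is the integral over `TH r`
(`FZ`, `FB` with `fl f`: `ee (θ zsum (fl f) z) = ∏_γ ee (θ ⌊f z_γ⌋)` by `zsum_lz`). So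
`β_l(N) := ‖M2 ..‖/sz ≤ α_l(N) + CK s 2^s P^(k-A)` (`#Zs #Bk/sz = P^k`). Trivially
`α_l(N) ≤ P^(k+1)` for large `r` (`‖LL‖ ≤ 2`: `α ≤ CK 2^s P^k`). Hence with `ε = CK s 2^s P^(k-A) ≤ 1`:
`∏ β_l² ≤ ∏ (α_l + ε)² ≤ ∏ α_l² + ε 4^q (P^(k+1) + 1)^(2q)` (expand), and
`∑_{N ∈ NN k r}` of the last term is `≤ 2 · 8^k P^k ε 4^q (2P^(k+1))^(2q) → 0` if `A > 2k + 2q(k+1)`.
-/

namespace LWar

open Filter Topology MeasureTheory MWg KWar

private theorem AeF_gw_cont {d : ℕ} : Continuous (gw : (Fin d → ℝ) → ℝ) := by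
  unfold gw
  fun_prop

private theorem AeF_gw_pos {d : ℕ} (t : Fin d → ℝ) : 0 < gw t := Real.exp_pos _

private theorem AeF_borel {d : ℕ} (A : ℕ → (Fin d → ℝ) → ENNReal) (hA : ∀ r, Measurable (A r))
    {D : ℝ} (hD : 0 ≤ D) {r0 : ℕ} (hint : ∀ r, r0 ≤ r → ∫⁻ t, A r t ≤ ENNReal.ofReal (D / 2 ^ r)) :
    ∀ᵐ t : Fin d → ℝ, Tendsto (fun r => A r t) atTop (𝓝 0) := by
  have hsum : Summable (fun r : ℕ => D / 2 ^ (r + r0)) := by
    have h1 : (fun r : ℕ => D / 2 ^ (r + r0)) = fun r : ℕ => D / 2 ^ r0 * (1 / 2) ^ r := by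
      funext r
      rw [pow_add, one_div, inv_pow]
      field_simp
    rw [h1]
    exact summable_geometric_two.mul_left _
  have h1 : ∫⁻ t, ∑' r, A (r + r0) t ≠ ⊤ := by
    rw [lintegral_tsum (fun r => (hA (r + r0)).aemeasurable)]
    have h2 : ∑' r, ∫⁻ t, A (r + r0) t ≤ ∑' r, ENNReal.ofReal (D / 2 ^ (r + r0)) :=
      ENNReal.tsum_le_tsum fun r => hint (r + r0) (Nat.le_add_left _ _)
    rw [← ENNReal.ofReal_tsum_of_nonneg (fun r => by positivity) hsum] at h2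
    exact (h2.trans_lt ENNReal.ofReal_lt_top).ne
  have hmeas : Measurable (fun t => ∑' r, A (r + r0) t) :=
    Measurable.tsum fun r => hA (r + r0)
  filter_upwards [ae_lt_top hmeas h1] with t ht
  have h3 := ENNReal.tendsto_atTop_zero_of_tsum_ne_top ht.ne
  exact (tendsto_add_atTop_iff_nat r0).1 h3

private theorem AeF_prod_diff {ι : Type*} (s : Finset ι) (u v : ι → ℂ) {δ : ℝ} (hδ0 : 0 ≤ δ)
    (hδ : δ ≤ 1) (hu : ∀ i ∈ s, ‖u i‖ ≤ 1) (hv : ∀ i ∈ s, ‖u i - v i‖ ≤ δ) :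
    ‖∏ i ∈ s, u i‖ ≤ 1 ∧ ‖∏ i ∈ s, u i - ∏ i ∈ s, v i‖ ≤ 2 ^ s.card * δ ∧
      ‖∏ i ∈ s, v i‖ ≤ 2 ^ s.card := by
  classical
  induction s using Finset.induction_on with
  | empty => simp [hδ0]
  | insert a s ha ih =>
      obtain ⟨i0, i1, i2⟩ := ih (fun i hi => hu i (Finset.mem_insert_of_mem hi))
        (fun i hi => hv i (Finset.mem_insert_of_mem hi))
      have hua := hu a (Finset.mem_insert_self _ _)
      have hva := hv a (Finset.mem_insert_self _ _)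
      have hv2 : ‖v a‖ ≤ 2 := by
        have h1 : v a = u a - (u a - v a) := by ring
        rw [h1]
        refine (norm_sub_le _ _).trans ?_
        linarith
      rw [Finset.prod_insert ha, Finset.prod_insert ha, Finset.card_insert_of_notMem ha, pow_succ]
      refine ⟨?_, ?_, ?_⟩
      · rw [norm_mul]
        exact mul_le_one₀ hua (norm_nonneg _) i0
      · have h1 : u a * ∏ i ∈ s, u i - v a * ∏ i ∈ s, v i =
            u a * (∏ i ∈ s, u i - ∏ i ∈ s, v i) + (u a - v a) * ∏ i ∈ s, v i := by ring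
        rw [h1]
        refine (norm_add_le _ _).trans ?_
        rw [norm_mul, norm_mul]
        have h2 : ‖u a‖ * ‖∏ i ∈ s, u i - ∏ i ∈ s, v i‖ ≤ 1 * (2 ^ s.card * δ) :=
          mul_le_mul hua i1 (norm_nonneg _) zero_le_one
        have h3 : ‖u a - v a‖ * ‖∏ i ∈ s, v i‖ ≤ δ * 2 ^ s.card :=
          mul_le_mul hva i2 (norm_nonneg _) hδ0
        linarith
      · rw [norm_mul]
        have h3 : ‖v a‖ * ‖∏ i ∈ s, v i‖ ≤ 2 * 2 ^ s.card :=
          mul_le_mul hv2 i2 (norm_nonneg _) zero_le_two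
        linarith

private theorem AeF_sum_diff {α ι : Type*} [Fintype ι] (S : Finset α) (x : α → ι → ℕ)
    (U V : ℕ → ℂ) {δ : ℝ} (hδ0 : 0 ≤ δ) (hδ : δ ≤ 1) (hU : ∀ n, ‖U n‖ ≤ 1)
    (hV : ∀ a ∈ S, ∀ i, ‖U (x a i) - V (x a i)‖ ≤ δ) :
    ‖∑ a ∈ S, ∏ i, U (x a i)‖ ≤ (S.card : ℝ) ∧
    ‖∑ a ∈ S, ∏ i, U (x a i) - ∑ a ∈ S, ∏ i, V (x a i)‖ ≤
      (S.card : ℝ) * (2 ^ Fintype.card ι * δ) ∧
      ‖∑ a ∈ S, ∏ i, V (x a i)‖ ≤ (S.card : ℝ) * 2 ^ Fintype.card ι := by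
  have key := fun a (ha : a ∈ S) => AeF_prod_diff (Finset.univ : Finset ι) (fun i => U (x a i))
    (fun i => V (x a i)) hδ0 hδ (fun i _ => hU _) (fun i _ => hV a ha i)
  refine ⟨?_, ?_, ?_⟩
  · refine (norm_sum_le _ _).trans ?_
    refine (Finset.sum_le_sum fun a ha => (key a ha).1).trans ?_
    simp
  · rw [← Finset.sum_sub_distrib]
    refine (norm_sum_le _ _).trans ?_
    refine (Finset.sum_le_sum fun a ha => (key a ha).2.1).trans ?_
    simp
  · refine (norm_sum_le _ _).trans ?_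
    refine (Finset.sum_le_sum fun a ha => (key a ha).2.2).trans ?_
    simp

private theorem AeF_ee_sum {ι : Type*} (s : Finset ι) (θ : ℝ) (a : ι → ℝ) :
    ee (θ * ∑ i ∈ s, a i) = ∏ i ∈ s, ee (θ * a i) := by
  classical
  induction s using Finset.induction_on with
  | empty => simp [ee]
  | insert b s hb ih =>
      rw [Finset.sum_insert hb, Finset.prod_insert hb, mul_add, ee_add, ih]

private theorem AeF_FZ {k n r : ℕ} (f : ℕ → ℝ) (θ : ℝ) :
    FZ k n r f θ = ∑ z ∈ Zs k n r, ∏ γ : Gt n, ee (θ * f (lz n z γ)) := by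
  unfold FZ
  refine Finset.sum_congr rfl fun z hz => ?_
  rw [zsum_lz hz, AeF_ee_sum]

private theorem AeF_FB {k J M l r : ℕ} (f : ℕ → ℝ) (θ : ℝ) :
    FB k J M l r f θ = ∑ b ∈ Bk k J M l r, ∏ x : Fin J × Fin M, ee (θ * f (b x)) := by
  unfold FB bsum
  exact Finset.sum_congr rfl fun b _ => AeF_ee_sum _ _ _

/-- Products of slightly increased factors. -/
private theorem AeF_prod_up {ι : Type*} (s : Finset ι) (x y : ι → ℝ) {η W : ℝ} (hη : 0 ≤ η)
    (hW : 1 ≤ W) (hy : ∀ i ∈ s, 0 ≤ y i) (hyx : ∀ i ∈ s, y i ≤ W) (hx0 : ∀ i ∈ s, 0 ≤ x i)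
    (hx : ∀ i ∈ s, x i ≤ W) (hxy : ∀ i ∈ s, x i ≤ y i + η) :
    ∏ i ∈ s, x i ≤ ∏ i ∈ s, y i + s.card * (η * W ^ s.card) := by
  classical
  induction s using Finset.induction_on with
  | empty => simp
  | insert a s ha ih =>
      have ih' := ih (fun i hi => hy i (Finset.mem_insert_of_mem hi))
        (fun i hi => hyx i (Finset.mem_insert_of_mem hi))
        (fun i hi => hx0 i (Finset.mem_insert_of_mem hi))
        (fun i hi => hx i (Finset.mem_insert_of_mem hi))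
        (fun i hi => hxy i (Finset.mem_insert_of_mem hi))
      have hxa := hx a (Finset.mem_insert_self _ _)
      have hxa0 := hx0 a (Finset.mem_insert_self _ _)
      have hxya := hxy a (Finset.mem_insert_self _ _)
      have hPy : ∏ i ∈ s, y i ≤ W ^ s.card := by
        rw [← Finset.prod_const]
        exact Finset.prod_le_prod (fun i hi => hy i (Finset.mem_insert_of_mem hi))
          (fun i hi => hyx i (Finset.mem_insert_of_mem hi))
      have hPy0 : 0 ≤ ∏ i ∈ s, y i :=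
        Finset.prod_nonneg fun i hi => hy i (Finset.mem_insert_of_mem hi)
      have hW0 : 0 ≤ W ^ s.card := by positivity
      rw [Finset.prod_insert ha, Finset.prod_insert ha, Finset.card_insert_of_notMem ha, pow_succ]
      push_cast
      have h1 : x a * ∏ i ∈ s, x i ≤ x a * (∏ i ∈ s, y i + s.card * (η * W ^ s.card)) :=
        mul_le_mul_of_nonneg_left ih' hxa0
      have h2 : x a * ∏ i ∈ s, y i ≤ (y a + η) * ∏ i ∈ s, y i :=
        mul_le_mul_of_nonneg_right hxya hPy0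
      have h3 : η * ∏ i ∈ s, y i ≤ η * W ^ s.card := mul_le_mul_of_nonneg_left hPy hη
      have h4 : x a * (s.card * (η * W ^ s.card)) ≤ W * (s.card * (η * W ^ s.card)) :=
        mul_le_mul_of_nonneg_right hxa (by positivity)
      have h5 : η * W ^ s.card ≤ η * (W ^ s.card * W) := by
        apply mul_le_mul_of_nonneg_left _ hη
        nlinarith
      nlinarith

private theorem AeF_letters {k d : ℕ} (p : Par k d) : ∀ᶠ r : ℕ in atTop, ∀ l : ℕ, l < p.L →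
    (∀ z ∈ Zs k p.n r, ∀ γ : Gt p.n, 1 ≤ lz p.n z γ ∧ (lz p.n z γ : ℝ) ≤ 16 * XX r) ∧
    (∀ b ∈ Bk k p.J p.M l r, ∀ x : Fin p.J × Fin p.M, 1 ≤ b x ∧ (b x : ℝ) ≤ 16 * XX r) := by
  have hk2 : 2 ≤ k := by
    have := p.hk
    omega
  obtain ⟨P0, hP0⟩ := chain_fst_le hk2 J0 p.n
  filter_upwards [XX_tendsto.eventually_ge_atTop P0] with r hr l hl
  have hX := XX_pos r
  constructor
  · intro z hz γ
    unfold Zs at hz
    obtain ⟨h1, h4⟩ := Finset.mem_product.1 hz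
    obtain ⟨h2, h3⟩ := Finset.mem_product.1 h1
    have key : ∀ w ∈ chain k J0 p.n (XX r), ∀ i : Fin p.n,
        1 ≤ (w.getD i (0, 0)).1 ∧ (((w.getD i (0, 0)).1 : ℕ) : ℝ) ≤ 16 * XX r := by
      intro w hw i
      have hlen : (i : ℕ) < w.length := by
        rw [chain_length hw]
        exact i.2
      have hmem : w.getD i (0, 0) ∈ w := by
        rw [List.getD_eq_getElem _ _ hlen]
        exact List.getElem_mem _
      exact ⟨chain_fst_pos hw _ hmem, hP0 _ hr w hw _ hmem⟩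
    rcases γ with ⟨b, i⟩ | u
    · cases b
      · exact key _ h2 i
      · exact key _ h3 i
    · have h5 := (mem_J1 hX.le).1 h4
      show 1 ≤ z.2 ∧ ((z.2 : ℕ) : ℝ) ≤ 16 * XX r
      refine ⟨?_, by linarith [h5.2]⟩
      have h6 : (0 : ℝ) < (z.2 : ℝ) := by linarith [h5.1]
      have h7 : 0 < z.2 := by exact_mod_cast h6
      omega
  · intro b hb x
    unfold Bk at hb
    have h5 := mem_blk (Fintype.mem_piFinset.1 hb x)
    obtain ⟨e1, e2, e3⟩ := be_bounds hl x.2.2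
    have hbe : 0 < be p.M l x.2 := lt_of_lt_of_le e2 e1
    have hQ1 := QQ_one_le hk2 r
    have hQ0 : 0 < QQ k r := by linarith
    have hQp : 0 < QQ k r ^ (k - 1 - lv k p.M (x.1 : ℕ)) := pow_pos hQ0 _
    have hQX : QQ k r ^ (k - 1 - lv k p.M (x.1 : ℕ)) ≤ XX r := by
      rw [← QQ_pow hk2 r]
      exact pow_le_pow_right₀ hQ1 (by omega)
    have h6 : be p.M l x.2 * QQ k r ^ (k - 1 - lv k p.M (x.1 : ℕ)) ≤ 1 / 256 * XX r :=
      mul_le_mul e3 hQX hQp.le (by norm_num)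
    refine ⟨?_, by linarith [h5.2]⟩
    have h7 : (0 : ℝ) < (b x : ℝ) := lt_trans (mul_pos hbe hQp) h5.1
    have h8 : 0 < b x := by exact_mod_cast h7
    omega

private theorem AeF_LL_cont {c : ℤ → ℝ → ℂ} (hc : ∀ m, Continuous (c m)) (D : ℕ) (f : ℕ → ℝ)
    (x : ℕ) : Continuous fun θ => LL c D f θ x := by
  unfold LL
  refine (ee_cont.comp (continuous_id.mul continuous_const)).mul ?_
  exact continuous_finsetSum _ fun m _ => (hc m).mul continuous_const

private theorem AeF_ff_cont (k d : ℕ) (g : ℕ → ℝ) (x : ℕ) :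
    Continuous fun t : Fin d → ℝ => ff k d g t x := by
  unfold ff
  fun_prop

private theorem AeF_LL_cont2 (c : ℤ → ℝ → ℂ) (D k d : ℕ) (g : ℕ → ℝ) (θ : ℝ)
    (x : ℕ) : Continuous fun t : Fin d → ℝ => LL c D (ff k d g t) θ x := by
  unfold LL
  refine (ee_cont.comp (continuous_const.mul (AeF_ff_cont k d g x))).mul ?_
  exact continuous_finsetSum _ fun m _ =>
    continuous_const.mul (ee_cont.comp (continuous_const.mul (AeF_ff_cont k d g x)))

private theorem AeF_LL_norm {c : ℤ → ℝ → ℂ} {Cc : ℝ}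
    (hcb : ∀ m θ, |θ| ≤ 1 / 2 → ‖c m θ‖ ≤ Cc / (1 + |(m : ℝ)|)) (D : ℕ) (f : ℕ → ℝ)
    {θ : ℝ} (hθ : |θ| ≤ 1 / 2) (x : ℕ) :
    ‖LL c D f θ x‖ ≤ ∑ m ∈ Finset.Icc (-(D : ℤ)) D, Cc / (1 + |(m : ℝ)|) := by
  unfold LL
  rw [norm_mul, ee_norm, one_mul]
  refine (norm_sum_le _ _).trans (Finset.sum_le_sum fun m _ => ?_)
  rw [norm_mul, ee_norm, mul_one]
  exact hcb m θ hθ

private theorem AeF_TH_sub (r : ℕ) : TH r ⊆ Set.Icc (-(1 / 2)) (1 / 2) := fun θ hθ => by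
  rw [Set.mem_Icc, ← abs_le]
  exact hθ.2

private theorem AeF_TH_finite (r : ℕ) : volume (TH r) < ⊤ :=
  (measure_mono (AeF_TH_sub r)).trans_lt measure_Icc_lt_top

private theorem AeF_TH_real (r : ℕ) : volume.real (TH r) ≤ 1 := by
  unfold Measure.real
  have h1 : volume (TH r) ≤ ENNReal.ofReal 1 := by
    refine (measure_mono (AeF_TH_sub r)).trans ?_
    rw [Real.volume_Icc]
    norm_num
  exact ENNReal.toReal_le_of_le_ofReal zero_le_one h1

private theorem AeF_MA_cont {K : ℝ → ℂ} (hK : Measurable K) {CK : ℝ} (hCK : ∀ θ, ‖K θ‖ ≤ CK)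
    {c : ℤ → ℝ → ℂ} (hc : ∀ m, Continuous (c m)) {Cc : ℝ}
    (hcb : ∀ m θ, |θ| ≤ 1 / 2 → ‖c m θ‖ ≤ Cc / (1 + |(m : ℝ)|))
    (D k d n J M l r : ℕ) (g : ℕ → ℝ) (Y : ℝ) :
    Continuous fun t : Fin d → ℝ => MA (TH r) K c D k n J M l r (ff k d g t) Y := by
  unfold MA
  set B : ℝ := ∑ m ∈ Finset.Icc (-(D : ℤ)) D, Cc / (1 + |(m : ℝ)|) with hB
  have hCK0 : 0 ≤ CK := (norm_nonneg _).trans (hCK 0)
  have hB0 : 0 ≤ B := (norm_nonneg _).trans
    (AeF_LL_norm hcb D (fun _ => 0) (θ := 0) (by norm_num) 0)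
  refine continuous_of_dominated
    (bound := fun _ => CK * ((Zs k n r).card * B ^ Fintype.card (Gt n)) *
      ((Bk k J M l r).card * B ^ Fintype.card (Fin J × Fin M))) ?_ ?_ ?_ ?_
  · intro t
    refine Measurable.aestronglyMeasurable ?_
    refine ((hK.mul (ee_cont.comp (continuous_id.mul continuous_const).neg).measurable).mul
      (Continuous.measurable ?_)).mul (Continuous.measurable ?_)
    · exact continuous_finsetSum _ fun z _ => continuous_finsetProd _ fun γ _ =>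
        AeF_LL_cont hc D _ _
    · exact continuous_finsetSum _ fun b _ => continuous_finsetProd _ fun x _ =>
        AeF_LL_cont hc D _ _
  · intro t
    refine (ae_restrict_iff' (TH_meas r)).2 (Filter.Eventually.of_forall fun θ hθ => ?_)
    have hn : ∀ x, ‖LL c D (ff k d g t) θ x‖ ≤ B := AeF_LL_norm hcb D _ hθ.2
    rw [norm_mul, norm_mul, norm_mul, ee_norm, mul_one]
    have h1 : ‖∑ z ∈ Zs k n r, ∏ γ : Gt n, LL c D (ff k d g t) θ (lz n z γ)‖ ≤
        (Zs k n r).card * B ^ Fintype.card (Gt n) := by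
      refine (norm_sum_le _ _).trans ?_
      have : ∀ z ∈ Zs k n r, ‖∏ γ : Gt n, LL c D (ff k d g t) θ (lz n z γ)‖ ≤
          B ^ Fintype.card (Gt n) := by
        intro z _
        rw [norm_prod, Fintype.card, ← Finset.prod_const]
        exact Finset.prod_le_prod (fun _ _ => norm_nonneg _) fun γ _ => hn _
      refine (Finset.sum_le_sum this).trans ?_
      simp
    have h2 : ‖∑ b ∈ Bk k J M l r, ∏ x : Fin J × Fin M, LL c D (ff k d g t) θ (b x)‖ ≤
        (Bk k J M l r).card * B ^ Fintype.card (Fin J × Fin M) := by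
      refine (norm_sum_le _ _).trans ?_
      have : ∀ b ∈ Bk k J M l r, ‖∏ x : Fin J × Fin M, LL c D (ff k d g t) θ (b x)‖ ≤
          B ^ Fintype.card (Fin J × Fin M) := by
        intro z _
        rw [norm_prod, Fintype.card, ← Finset.prod_const]
        exact Finset.prod_le_prod (fun _ _ => norm_nonneg _) fun γ _ => hn _
      refine (Finset.sum_le_sum this).trans ?_
      simp
    exact mul_le_mul (mul_le_mul (hCK θ) h1 (norm_nonneg _) hCK0) h2 (norm_nonneg _)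
      (by positivity)
  · have : IsFiniteMeasure (volume.restrict (TH r)) := ⟨by
      rw [Measure.restrict_apply_univ]
      exact AeF_TH_finite r⟩
    exact integrable_const _
  · refine Filter.Eventually.of_forall fun θ => ?_
    refine (continuous_const.mul ?_).mul ?_
    · exact continuous_finsetSum _ fun z _ => continuous_finsetProd _ fun γ _ =>
        AeF_LL_cont2 c D k d g θ _
    · exact continuous_finsetSum _ fun b _ => continuous_finsetProd _ fun x _ =>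
        AeF_LL_cont2 c D k d g θ _

/-- `M2` over `TT r 1` is the integral over `TH r`, and it is close to `MA`. -/
private theorem AeF_close {K : ℝ → ℂ} (hK : Measurable K) {CK : ℝ} (hCK : ∀ θ, ‖K θ‖ ≤ CK)
    {c : ℤ → ℝ → ℂ} (hc : ∀ m, Continuous (c m)) {D k n J M l r : ℕ}
    (hK0 : ∀ θ : ℝ, 1 / 2 < |θ| → K θ = 0) (f : ℕ → ℝ) {δ : ℝ} (hδ0 : 0 ≤ δ) (hδ : δ ≤ 1)
    (hZ : ∀ z ∈ Zs k n r, ∀ γ : Gt n, 1 ≤ lz n z γ ∧ (lz n z γ : ℝ) ≤ 16 * XX r)
    (hB : ∀ b ∈ Bk k J M l r, ∀ x : Fin J × Fin M, 1 ≤ b x ∧ (b x : ℝ) ≤ 16 * XX r)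
    (happ : ∀ θ, |θ| ≤ 1 / 2 → ∀ x : ℕ, 1 ≤ x → (x : ℝ) ≤ 16 * XX r →
      ‖ee (θ * fl f x) - LL c D f θ x‖ ≤ δ) (Y : ℝ) :
    ‖M2 K k n J M l r 1 (fl f) Y - MA (TH r) K c D k n J M l r f Y‖ ≤
      CK * (((Zs k n r).card : ℝ) * ((Bk k J M l r).card : ℝ) *
        (2 ^ (Fintype.card (Gt n) + Fintype.card (Fin J × Fin M) + 1) * δ)) ∧
    ‖M2 K k n J M l r 1 (fl f) Y‖ ≤
      CK * (((Zs k n r).card : ℝ) * ((Bk k J M l r).card : ℝ)) := by
  have hCK0 : 0 ≤ CK := (norm_nonneg _).trans (hCK 0)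
  have hsub : TH r ⊆ TT r 1 := by
    intro θ hθ
    refine ⟨by simpa using hθ.1, ?_⟩
    rw [pow_one, div_self (XX_pos r).ne']
    linarith [hθ.2]
  have hM2 : M2 K k n J M l r 1 (fl f) Y = ∫ θ in TH r, K θ * ee (-(θ * Y)) *
      FZ k n r (fl f) θ * FB k J M l r (fl f) θ := by
    unfold M2
    refine setIntegral_eq_of_subset_of_forall_sdiff_eq_zero (TT_meas r 1) hsub ?_
    intro θ hθ
    have h1 : 1 / 2 < |θ| := by
      by_contra h
      rw [not_lt] at h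
      refine hθ.2 ⟨?_, h⟩
      simpa using hθ.1.1
    rw [hK0 θ h1]
    simp
  set SZ : ℝ → ℂ := fun θ => ∑ z ∈ Zs k n r, ∏ γ : Gt n, LL c D f θ (lz n z γ) with hSZ
  set SB : ℝ → ℂ := fun θ => ∑ b ∈ Bk k J M l r, ∏ x : Fin J × Fin M, LL c D f θ (b x) with hSB
  have hSZc : Continuous SZ := continuous_finsetSum _ fun z _ => continuous_finsetProd _
    fun γ _ => AeF_LL_cont hc D _ _
  have hSBc : Continuous SB := continuous_finsetSum _ fun z _ => continuous_finsetProd _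
    fun γ _ => AeF_LL_cont hc D _ _
  have hE : ∀ θ : ℝ, ∀ n : ℕ, ‖ee (θ * fl f n)‖ ≤ 1 := fun θ n => (ee_norm _).le
  have hZZ : ∀ θ ∈ TH r, ‖FZ k n r (fl f) θ‖ ≤ ((Zs k n r).card : ℝ) ∧
      ‖FZ k n r (fl f) θ - SZ θ‖ ≤ ((Zs k n r).card : ℝ) * (2 ^ Fintype.card (Gt n) * δ) ∧
      ‖SZ θ‖ ≤ ((Zs k n r).card : ℝ) * 2 ^ Fintype.card (Gt n) := by
    intro θ hθ
    rw [AeF_FZ]
    exact AeF_sum_diff (Zs k n r) (fun z γ => lz n z γ) (fun x => ee (θ * fl f x))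
      (fun x => LL c D f θ x) hδ0 hδ (hE θ) fun z hz γ =>
        happ θ hθ.2 _ (hZ z hz γ).1 (hZ z hz γ).2
  have hBB : ∀ θ ∈ TH r, ‖FB k J M l r (fl f) θ‖ ≤ ((Bk k J M l r).card : ℝ) ∧
      ‖FB k J M l r (fl f) θ - SB θ‖ ≤
        ((Bk k J M l r).card : ℝ) * (2 ^ Fintype.card (Fin J × Fin M) * δ) ∧
      ‖SB θ‖ ≤ ((Bk k J M l r).card : ℝ) * 2 ^ Fintype.card (Fin J × Fin M) := by
    intro θ hθ
    rw [AeF_FB]
    exact AeF_sum_diff (Bk k J M l r) (fun b x => b x) (fun x => ee (θ * fl f x))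
      (fun x => LL c D f θ x) hδ0 hδ (hE θ) fun z hz γ =>
        happ θ hθ.2 _ (hB z hz γ).1 (hB z hz γ).2
  have hTf := AeF_TH_finite r
  have hTr := AeF_TH_real r
  have hTr0 : 0 ≤ volume.real (TH r) := measureReal_nonneg
  set z0 : ℝ := ((Zs k n r).card : ℝ) with hz0
  set b0 : ℝ := ((Bk k J M l r).card : ℝ) with hb0
  have hz00 : 0 ≤ z0 := Nat.cast_nonneg _
  have hb00 : 0 ≤ b0 := Nat.cast_nonneg _
  set eZ := Fintype.card (Gt n) with heZ
  set eB := Fintype.card (Fin J × Fin M) with heB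
  have hKe : ∀ θ, ‖K θ * ee (-(θ * Y))‖ ≤ CK := by
    intro θ
    rw [norm_mul, ee_norm, mul_one]
    exact hCK θ
  have hKm : Measurable fun θ => K θ * ee (-(θ * Y)) :=
    hK.mul (ee_cont.comp (continuous_id.mul continuous_const).neg).measurable
  have i1 : IntegrableOn (fun θ => K θ * ee (-(θ * Y)) * FZ k n r (fl f) θ *
      FB k J M l r (fl f) θ) (TH r) := by
    refine Measure.integrableOn_of_bounded (M := CK * z0 * b0) hTf.ne ?_ ?_
    · exact ((hKm.mul (FZ_cont k n r _).measurable).mul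
        (FB_cont k J M l r _).measurable).aestronglyMeasurable
    · refine Filter.Eventually.of_forall fun θ => ?_
      rw [norm_mul, norm_mul]
      exact mul_le_mul (mul_le_mul (hKe θ) (FZ_norm k n r _ θ) (norm_nonneg _) hCK0)
        (FB_norm k J M l r _ θ) (norm_nonneg _) (by positivity)
  have i2 : IntegrableOn (fun θ => K θ * ee (-(θ * Y)) * SZ θ * SB θ) (TH r) := by
    refine Measure.integrableOn_of_bounded (M := CK * (z0 * 2 ^ eZ) * (b0 * 2 ^ eB)) hTf.ne ?_ ?_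
    · exact ((hKm.mul hSZc.measurable).mul hSBc.measurable).aestronglyMeasurable
    · refine (ae_restrict_iff' (TH_meas r)).2 (Filter.Eventually.of_forall fun θ hθ => ?_)
      rw [norm_mul, norm_mul]
      exact mul_le_mul (mul_le_mul (hKe θ) (hZZ θ hθ).2.2 (norm_nonneg _) hCK0)
        (hBB θ hθ).2.2 (norm_nonneg _) (by positivity)
  have hMA : MA (TH r) K c D k n J M l r f Y =
      ∫ θ in TH r, K θ * ee (-(θ * Y)) * SZ θ * SB θ := rfl
  constructor
  · rw [hM2, hMA, ← integral_sub i1 i2]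
    have hpt : ∀ θ ∈ TH r, ‖K θ * ee (-(θ * Y)) * FZ k n r (fl f) θ * FB k J M l r (fl f) θ -
        K θ * ee (-(θ * Y)) * SZ θ * SB θ‖ ≤ CK * (z0 * b0 * (2 ^ (eZ + eB + 1) * δ)) := by
      intro θ hθ
      obtain ⟨a1, a2, a3⟩ := hZZ θ hθ
      obtain ⟨b1, b2, b3⟩ := hBB θ hθ
      have e1 : K θ * ee (-(θ * Y)) * FZ k n r (fl f) θ * FB k J M l r (fl f) θ -
          K θ * ee (-(θ * Y)) * SZ θ * SB θ = K θ * ee (-(θ * Y)) *
          (FZ k n r (fl f) θ * (FB k J M l r (fl f) θ - SB θ) +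
            (FZ k n r (fl f) θ - SZ θ) * SB θ) := by ring
      rw [e1, norm_mul]
      refine mul_le_mul (hKe θ) ?_ (norm_nonneg _) hCK0
      refine (norm_add_le _ _).trans ?_
      rw [norm_mul, norm_mul]
      have c1 : ‖FZ k n r (fl f) θ‖ * ‖FB k J M l r (fl f) θ - SB θ‖ ≤ z0 * (b0 * (2 ^ eB * δ)) :=
        mul_le_mul a1 b2 (norm_nonneg _) hz00
      have c2 : ‖FZ k n r (fl f) θ - SZ θ‖ * ‖SB θ‖ ≤ z0 * (2 ^ eZ * δ) * (b0 * 2 ^ eB) :=
        mul_le_mul a2 b3 (norm_nonneg _) (by positivity)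
      have c3 : z0 * b0 * (2 ^ (eZ + eB + 1) * δ) = z0 * (2 ^ eZ * δ) * (b0 * 2 ^ eB) +
          2 ^ eZ * (z0 * (b0 * (2 ^ eB * δ))) := by
        rw [pow_add, pow_add, pow_one]
        ring
      have c4 : (1 : ℝ) ≤ 2 ^ eZ := one_le_pow₀ (by norm_num)
      have c5 : 0 ≤ z0 * (b0 * (2 ^ eB * δ)) := by positivity
      rw [c3]
      nlinarith
    refine (norm_setIntegral_le_of_norm_le_const hTf hpt).trans ?_
    exact mul_le_of_le_one_right (by positivity) hTr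
  · rw [hM2]
    have hpt : ∀ θ ∈ TH r, ‖K θ * ee (-(θ * Y)) * FZ k n r (fl f) θ *
        FB k J M l r (fl f) θ‖ ≤ CK * (z0 * b0) := by
      intro θ hθ
      rw [norm_mul, norm_mul, ← mul_assoc]
      exact mul_le_mul (mul_le_mul (hKe θ) (FZ_norm k n r _ θ) (norm_nonneg _) hCK0)
        (FB_norm k J M l r _ θ) (norm_nonneg _) (by positivity)
    refine (norm_setIntegral_le_of_norm_le_const hTf hpt).trans ?_
    exact mul_le_of_le_one_right (by positivity) hTr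

private theorem AeF_cardNN (k r : ℕ) : ((NN k r).card : ℝ) ≤ 8 ^ k * (XX r) ^ k := by
  unfold NN
  rw [Nat.card_Icc]
  have h1 : 1 ≤ (4 * 2 ^ r) ^ k := Nat.one_le_pow _ _ (by positivity)
  have h2 : (8 * 2 ^ r) ^ k + 1 - (4 * 2 ^ r) ^ k ≤ (8 * 2 ^ r) ^ k := by omega
  have h3 : (((8 * 2 ^ r) ^ k + 1 - (4 * 2 ^ r) ^ k : ℕ) : ℝ) ≤ (((8 * 2 ^ r) ^ k : ℕ) : ℝ) := by
    exact_mod_cast h2
  refine h3.trans ?_
  unfold XX
  push_cast
  rw [mul_pow]

private theorem AeF_ma {k d : ℕ} (p : Par k d) (hp : ParF p) (g : ℕ → ℝ) (K : ℕ → ℝ → ℂ)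
    (hK : ∀ r, Measurable (K r)) {CK : ℝ} (hCK : ∀ r θ, ‖K r θ‖ ≤ CK)
    (c : ℕ → ℤ → ℝ → ℂ) (hc : ∀ r m, Continuous (c r m)) {Cc : ℝ}
    (hcb : ∀ r m θ, |θ| ≤ 1 / 2 → ‖c r m θ‖ ≤ Cc / (1 + |(m : ℝ)|)) :
    ∀ᵐ t : Fin d → ℝ, ∀ φ : Fin p.q → ℕ, Function.Injective φ → (∀ l, φ l < p.L) →
      Tendsto (fun r : ℕ => ∑ N ∈ NN k r, ∏ l,
          (‖MA (TH r) (K r) (c r) (DD r) k p.n p.J p.M (φ l) r (ff k d g t) (N : ℝ)‖ /
            sz k p.n p.J p.M (φ l) r) ^ 2)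
        atTop (𝓝 0) := by
  rw [ae_all_iff]
  intro φ
  rw [eventually_imp_distrib_left]
  intro hφ
  rw [eventually_imp_distrib_left]
  intro hφL
  obtain ⟨C, hC, hev⟩ := highF p hp g K hK hCK c hc hcb
  obtain ⟨r0, hr0⟩ := eventually_atTop.1 hev
  set Ψ : ℕ → ℕ → (Fin d → ℝ) → ℝ := fun r N t => ∏ l,
    (‖MA (TH r) (K r) (c r) (DD r) k p.n p.J p.M (φ l) r (ff k d g t) (N : ℝ)‖ /
      sz k p.n p.J p.M (φ l) r) ^ 2 with hΨ
  have hΨc : ∀ r N, Continuous (Ψ r N) := by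
    intro r N
    rw [hΨ]
    refine continuous_finsetProd _ fun l _ => ?_
    exact ((AeF_MA_cont (hK r) (hCK r) (hc r) (hcb r) (DD r) k d p.n p.J p.M (φ l) r g
      (N : ℝ)).norm.div_const _).pow 2
  have hΨ0 : ∀ r N t, 0 ≤ Ψ r N t := by
    intro r N t
    rw [hΨ]
    exact Finset.prod_nonneg fun l _ => sq_nonneg _
  have hΦc : ∀ r, Continuous fun t => ∑ N ∈ NN k r, Ψ r N t := fun r =>
    continuous_finsetSum _ fun N _ => hΨc r N
  have hΦ0 : ∀ r t, 0 ≤ ∑ N ∈ NN k r, Ψ r N t := fun r t =>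
    Finset.sum_nonneg fun N _ => hΨ0 r N t
  set A : ℕ → (Fin d → ℝ) → ENNReal := fun r t =>
    ENNReal.ofReal (gw t * ∑ N ∈ NN k r, Ψ r N t) with hA
  have hAm : ∀ r, Measurable (A r) := fun r =>
    (AeF_gw_cont.mul (hΦc r)).measurable.ennreal_ofReal
  have hint : ∀ r, r0 ≤ r → ∫⁻ t, A r t ≤ ENNReal.ofReal (C * 8 ^ k / 2 ^ r) := by
    intro r hr
    have h1 : ∫⁻ t, A r t = ∑ N ∈ NN k r, ∫⁻ t, ENNReal.ofReal (gw t * Ψ r N t) := by
      rw [← lintegral_finsetSum]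
      · refine lintegral_congr fun t => ?_
        show ENNReal.ofReal (gw t * ∑ N ∈ NN k r, Ψ r N t) = _
        rw [Finset.mul_sum, ENNReal.ofReal_sum_of_nonneg]
        intro N _
        exact mul_nonneg (AeF_gw_pos t).le (hΨ0 r N t)
      · intro N _
        exact (AeF_gw_cont.mul (hΨc r N)).measurable.ennreal_ofReal
    rw [h1]
    have h2 : ∑ N ∈ NN k r, ∫⁻ t, ENNReal.ofReal (gw t * Ψ r N t) ≤
        ∑ _N ∈ NN k r, ENNReal.ofReal (C / (XX r) ^ (k + 1)) :=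
      Finset.sum_le_sum fun N _ => hr0 r hr φ hφ hφL (N : ℝ)
    refine h2.trans ?_
    rw [Finset.sum_const, nsmul_eq_mul, ← ENNReal.ofReal_natCast,
      ← ENNReal.ofReal_mul (Nat.cast_nonneg _)]
    apply ENNReal.ofReal_le_ofReal
    have hP := XX_pos r
    have h5 : 8 ^ k * (XX r) ^ k * (C / (XX r) ^ (k + 1)) = C * 8 ^ k / XX r := by
      rw [pow_succ]
      field_simp
    have h6 : XX r = 2 ^ r := rfl
    rw [← h6, ← h5]
    exact mul_le_mul_of_nonneg_right (AeF_cardNN k r) (by positivity)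
  have hmain := AeF_borel A hAm (D := C * 8 ^ k) (by positivity) hint
  filter_upwards [hmain] with t ht
  have h1 : Tendsto (fun r => (A r t).toReal) atTop (𝓝 (0 : ENNReal).toReal) :=
    (ENNReal.tendsto_toReal ENNReal.zero_ne_top).comp ht
  have h2 : ∀ r, (A r t).toReal = gw t * ∑ N ∈ NN k r, Ψ r N t := fun r =>
    ENNReal.toReal_ofReal (mul_nonneg (AeF_gw_pos t).le (hΦ0 r t))
  simp only [h2, ENNReal.toReal_zero] at h1
  have h3 := h1.const_mul (gw t)⁻¹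
  rw [mul_zero] at h3
  refine h3.congr fun r => ?_
  rw [← mul_assoc, inv_mul_cancel₀ (AeF_gw_pos t).ne', one_mul]

theorem ae_goodF {k d : ℕ} (p : Par k d) (hp : ParF p) (g : ℕ → ℝ) (K : ℕ → ℝ → ℂ)
    (hK : ∀ r, Measurable (K r)) {CK : ℝ} (hCK : ∀ r θ, ‖K r θ‖ ≤ CK)
    (hK0 : ∀ᶠ r : ℕ in atTop, ∀ θ : ℝ, 1 / 2 < |θ| → K r θ = 0) :
    ∀ᵐ t : Fin d → ℝ, ∀ φ : Fin p.q → ℕ, Function.Injective φ → (∀ l, φ l < p.L) →
      Tendsto (fun r : ℕ => ∑ N ∈ NN k r, ∏ l,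
          (‖M2 (K r) k p.n p.J p.M (φ l) r 1 (fl (ff k d g t)) (N : ℝ)‖ /
            sz k p.n p.J p.M (φ l) r) ^ 2)
        atTop (𝓝 0) := by
  have hCK0 : 0 ≤ CK := (norm_nonneg _).trans (hCK 0 0)
  have hd1 : 1 ≤ d := by
    have h1 := p.c1
    have h2 := p.c2
    have h3 := p.hq
    omega
  have hk2 : 2 ≤ k := by
    have := p.hk
    omega
  obtain ⟨Cc, c, hCc, hc, hcb, happ⟩ := four (k * (2 * p.q + 3) + 1)
  filter_upwards [AeF_ma p hp g K hK hCK c hc hcb, ae_dist hd1 g] with t ht hdist φ hφ hφL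
  have hα := ht φ hφ hφL
  set f := ff k d g t with hf
  set E := Fintype.card (Gt p.n) + Fintype.card (Fin p.J × Fin p.M) + 1 with hE
  set cδ : ℝ := CK * 2 ^ E with hcδ
  have hcδ0 : 0 ≤ cδ := by positivity
  set W : ℝ := 8 ^ k * p.q * 2 * cδ * (CK + 2) * ((CK + 2) ^ 2) ^ p.q with hW
  have herr : Tendsto (fun r => W / XX r) atTop (𝓝 0) := XX_tendsto.const_div_atTop W
  have hsum := hα.add herr
  rw [add_zero] at hsum
  refine squeeze_zero' (Filter.Eventually.of_forall fun r => Finset.sum_nonneg fun N _ =>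
    Finset.prod_nonneg fun l _ => sq_nonneg _) ?_ hsum
  filter_upwards [happ, hdist, AeF_letters p, sz_pos (k := k) (n := p.n) (J := p.J) (M := p.M)
    (L := p.L) hk2 p.hJk, hK0, XX_tendsto.eventually_ge_atTop cδ] with r e1 e2 e3 e4 e5 e6
  have hP := XX_pos r
  have hP1 := XX_ge_one r
  set P := XX r with hPdef
  have hPk1 : 1 ≤ P ^ k := one_le_pow₀ hP1
  have hPk0 : 0 < P ^ k := by positivity
  set δ : ℝ := 1 / P ^ (k * (2 * p.q + 3) + 1) with hδdef
  have hδ0 : 0 ≤ δ := by positivity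
  have hδ1 : δ ≤ 1 := by
    rw [hδdef, div_le_one (by positivity)]
    exact one_le_pow₀ hP1
  set ε : ℝ := cδ * (P ^ k * δ) with hε
  have hε0 : 0 ≤ ε := by positivity
  have hε1 : ε ≤ 1 := by
    have h1 : P ^ k * δ ≤ 1 / P := by
      rw [hδdef, mul_one_div, div_le_div_iff₀ (by positivity) hP, one_mul, ← pow_succ]
      apply pow_le_pow_right₀ hP1
      nlinarith
    calc ε ≤ cδ * (1 / P) := mul_le_mul_of_nonneg_left h1 hcδ0
      _ = cδ / P := by ring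
      _ ≤ 1 := by rw [div_le_one hP]; exact e6
  set B : ℝ := (CK + 2) * P ^ k with hB
  have hB2 : CK * P ^ k + 2 ≤ B := by
    rw [hB]
    nlinarith
  have hCP : 0 ≤ CK * P ^ k := by positivity
  have key : ∀ N ∈ NN k r, ∏ l, (‖M2 (K r) k p.n p.J p.M (φ l) r 1 (fl f) (N : ℝ)‖ /
      sz k p.n p.J p.M (φ l) r) ^ 2 ≤ ∏ l,
      (‖MA (TH r) (K r) (c r) (DD r) k p.n p.J p.M (φ l) r f (N : ℝ)‖ /
            sz k p.n p.J p.M (φ l) r) ^ 2 + (Finset.univ : Finset (Fin p.q)).card *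
            ((2 * ε * B) * (B ^ 2) ^ (Finset.univ : Finset (Fin p.q)).card) := by
    intro N _
    have hcl : ∀ l : Fin p.q,
        ‖M2 (K r) k p.n p.J p.M (φ l) r 1 (fl f) (N : ℝ)‖ / sz k p.n p.J p.M (φ l) r ≤
          ‖MA (TH r) (K r) (c r) (DD r) k p.n p.J p.M (φ l) r f (N : ℝ)‖ /
            sz k p.n p.J p.M (φ l) r + ε ∧
        ‖MA (TH r) (K r) (c r) (DD r) k p.n p.J p.M (φ l) r f (N : ℝ)‖ /
            sz k p.n p.J p.M (φ l) r ≤
          ‖M2 (K r) k p.n p.J p.M (φ l) r 1 (fl f) (N : ℝ)‖ / sz k p.n p.J p.M (φ l) r + ε ∧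
        ‖M2 (K r) k p.n p.J p.M (φ l) r 1 (fl f) (N : ℝ)‖ / sz k p.n p.J p.M (φ l) r ≤
          CK * P ^ k := by
      intro l
      obtain ⟨s1, s2, s3⟩ := e4 (φ l) (hφL l)
      obtain ⟨l1, l2⟩ := e3 (φ l) (hφL l)
      obtain ⟨n1, n2⟩ := AeF_close (hK r) (hCK r) (hc r) (D := DD r) e5 f hδ0 hδ1 l1 l2
        (fun θ hθ x hx1 hx2 => by
          have := e1 θ (f x) hθ (e2 x hx1 hx2)
          exact this) (N : ℝ)
      set a := M2 (K r) k p.n p.J p.M (φ l) r 1 (fl f) (N : ℝ) with ha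
      set b := MA (TH r) (K r) (c r) (DD r) k p.n p.J p.M (φ l) r f (N : ℝ) with hb
      have hszdef : sz k p.n p.J p.M (φ l) r =
        ((Zs k p.n r).card : ℝ) * ((Bk k p.J p.M (φ l) r).card : ℝ) / P ^ k := rfl
      have hzb : ((Zs k p.n r).card : ℝ) * ((Bk k p.J p.M (φ l) r).card : ℝ) =
          P ^ k * sz k p.n p.J p.M (φ l) r := by
        rw [hszdef]
        field_simp
      rw [hzb] at n1 n2
      set S := sz k p.n p.J p.M (φ l) r with hS
      have m1 : ‖a - b‖ / S ≤ ε := by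
        rw [div_le_iff₀ s1]
        refine n1.trans (le_of_eq ?_)
        rw [hε, hcδ]
        ring
      have m2 : ‖a‖ / S ≤ CK * P ^ k := by
        rw [div_le_iff₀ s1]
        refine n2.trans (le_of_eq ?_)
        ring
      have m3 : ‖a‖ ≤ ‖b‖ + ‖a - b‖ := by
        have := norm_add_le b (a - b)
        rwa [add_sub_cancel] at this
      have m4 : ‖b‖ ≤ ‖a‖ + ‖a - b‖ := by
        have := norm_sub_le a (a - b)
        rwa [sub_sub_cancel] at this
      refine ⟨?_, ?_, m2⟩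
      · have := div_le_div_of_nonneg_right m3 s1.le
        rw [add_div] at this
        linarith
      · have := div_le_div_of_nonneg_right m4 s1.le
        rw [add_div] at this
        linarith
    have hs0 : ∀ l : Fin p.q, 0 ≤ sz k p.n p.J p.M (φ l) r := fun l =>
      (e4 (φ l) (hφL l)).1.le
    refine AeF_prod_up Finset.univ _ _ (by positivity) ?_ (fun l _ => sq_nonneg _) ?_
      (fun l _ => sq_nonneg _) ?_ ?_
    · have : 1 ≤ B := by linarith
      nlinarith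
    · intro l _
      obtain ⟨h1, h2, h3⟩ := hcl l
      have h4 : 0 ≤ ‖MA (TH r) (K r) (c r) (DD r) k p.n p.J p.M (φ l) r f (N : ℝ)‖ /
            sz k p.n p.J p.M (φ l) r := div_nonneg (norm_nonneg _) (hs0 l)
      exact pow_le_pow_left₀ h4 (by linarith) 2
    · intro l _
      obtain ⟨h1, h2, h3⟩ := hcl l
      have h4 : 0 ≤ ‖M2 (K r) k p.n p.J p.M (φ l) r 1 (fl f) (N : ℝ)‖ /
            sz k p.n p.J p.M (φ l) r := div_nonneg (norm_nonneg _) (hs0 l)
      exact pow_le_pow_left₀ h4 (by linarith) 2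
    · intro l _
      obtain ⟨h1, h2, h3⟩ := hcl l
      have h4 : 0 ≤ ‖M2 (K r) k p.n p.J p.M (φ l) r 1 (fl f) (N : ℝ)‖ /
            sz k p.n p.J p.M (φ l) r := div_nonneg (norm_nonneg _) (hs0 l)
      have h5 : 0 ≤ ‖MA (TH r) (K r) (c r) (DD r) k p.n p.J p.M (φ l) r f (N : ℝ)‖ /
            sz k p.n p.J p.M (φ l) r := div_nonneg (norm_nonneg _) (hs0 l)
      set a := ‖M2 (K r) k p.n p.J p.M (φ l) r 1 (fl f) (N : ℝ)‖ / sz k p.n p.J p.M (φ l) r
      set b := ‖MA (TH r) (K r) (c r) (DD r) k p.n p.J p.M (φ l) r f (N : ℝ)‖ /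
            sz k p.n p.J p.M (φ l) r
      have h6 : a ^ 2 ≤ (b + ε) ^ 2 := pow_le_pow_left₀ h4 h1 2
      have h7 : ε * (2 * b + ε) ≤ ε * (2 * B) := by
        apply mul_le_mul_of_nonneg_left _ hε0
        linarith
      nlinarith
  refine (Finset.sum_le_sum key).trans ?_
  rw [Finset.sum_add_distrib]
  have hlast : ∑ _N ∈ NN k r, ((Finset.univ : Finset (Fin p.q)).card : ℝ) *
      ((2 * ε * B) * (B ^ 2) ^ (Finset.univ : Finset (Fin p.q)).card) ≤ W / P := by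
    rw [Finset.sum_const, nsmul_eq_mul, Finset.card_univ, Fintype.card_fin]
    have h1 : 0 ≤ (p.q : ℝ) * ((2 * ε * B) * (B ^ 2) ^ p.q) := by
      have : 0 ≤ B := by linarith
      positivity
    refine (mul_le_mul_of_nonneg_right (AeF_cardNN k r) h1).trans (le_of_eq ?_)
    rw [hW, hε, hB, hδdef, ← hPdef]
    have h2 : P ^ (k * (2 * p.q + 3) + 1) = P ^ k * P ^ k * P ^ k * ((P ^ k) ^ 2) ^ p.q * P := by
      rw [← pow_mul, ← pow_mul, ← pow_add, ← pow_add, ← pow_add, ← pow_succ]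
      congr 1
      ring
    rw [h2, mul_pow (CK + 2) (P ^ k) 2, mul_pow ((CK + 2) ^ 2) _ p.q]
    have h3 : ((P ^ k) ^ 2) ^ p.q ≠ 0 := by positivity
    have h4 : P ^ k ≠ 0 := hPk0.ne'
    field_simp
  linarith

end LWar
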