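import Pool.Agent.KWar.LowFreq

/-!
# LWar.LowF2: an upper bound for the small frequencies, without decay of the kernel at `0`

PROOF. As `KWar.low_freq` (`Pool/Agent/KWar/LowFreq.lean`, proved; copy its private lemmas). In part (a),
`|θ| ≤ P^(1/4-k)`, the integrand is at most `C #Zs #Bk`, so this part is
`≤ 2 C P^(1/4-k) #Zs #Bk = 2 C P^(1/4) sz`. Part (b) does not use the decay of `K` and is `≤ C P^(1/4) sz` for
large `P` (it is even `≤ C'' P^(-3σ/4) sz`; if `C = 0` then `K = 0`).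
-/

namespace LWar

open Filter Topology MeasureTheory MWg KWar

private theorem lf2_good {k : ℕ} (hk : 2 ≤ k) {g : Polynomial ℝ} (hg : g.natDegree < k) :
    Good k (fun x : ℕ => (x : ℝ) ^ k + g.eval (x : ℝ)) := by
  have h : ∀ m : ℕ, m ≤ k → Good k (fun x : ℕ => (x : ℝ) ^ k +
      ∑ i ∈ Finset.range m, g.coeff i * (x : ℝ) ^ i) := by
    intro m
    induction m with
    | zero =>
      intro _
      simpa using good_pow (by omega : 1 ≤ k)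
    | succ m ih =>
      intro hm
      have h1 := good_add_pow (by omega : m < k) (ih (by omega)) (g.coeff m)
      have h2 : (fun x : ℕ => (x : ℝ) ^ k + ∑ i ∈ Finset.range (m + 1), g.coeff i * (x : ℝ) ^ i) =
          (fun x : ℕ => (x : ℝ) ^ k + ∑ i ∈ Finset.range m, g.coeff i * (x : ℝ) ^ i +
            g.coeff m * (x : ℝ) ^ m) := by
        funext x
        rw [Finset.sum_range_succ]
        ring
      rw [h2]
      exact h1
  have h3 : (fun x : ℕ => (x : ℝ) ^ k + g.eval (x : ℝ)) = (fun x : ℕ => (x : ℝ) ^ k +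
      ∑ i ∈ Finset.range k, g.coeff i * (x : ℝ) ^ i) := by
    funext x
    rw [Polynomial.eval_eq_sum_range' hg]
  rw [h3]
  exact h k le_rfl

/-- the sum over the chains -/
private noncomputable def lf2S (k n r : ℕ) (f : ℕ → ℝ) (θ : ℝ) : ℂ :=
  ∑ w ∈ chain k J0 n (XX r), ee (θ * val f (fun _ => 0) w)

private noncomputable def lf2T (r : ℕ) (f : ℕ → ℝ) (θ : ℝ) : ℂ :=
  ∑ v ∈ J1 (XX r), ee (θ * f v)

private theorem lf2_ee_cont : Continuous ee := by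
  unfold ee
  fun_prop

private theorem lf2S_cont (k n r : ℕ) (f : ℕ → ℝ) : Continuous (lf2S k n r f) := by
  unfold lf2S
  refine continuous_finsetSum _ fun w _ => ?_
  exact lf2_ee_cont.comp (continuous_id.mul continuous_const)

private theorem lf2_val (f : ℕ → ℝ) (w : List (ℕ × ℕ)) :
    val f (fun _ => 0) w = (w.map fun p => f p.1).sum := by
  unfold val
  simp only [add_zero]

private theorem lf2_FZ (k n r : ℕ) (f : ℕ → ℝ) (θ : ℝ) :
    FZ k n r f θ = lf2S k n r f θ * lf2S k n r f θ * lf2T r f θ := by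
  unfold FZ Zs lf2S lf2T
  rw [Finset.sum_product, Finset.sum_product, Finset.sum_mul_sum, Finset.sum_mul]
  refine Finset.sum_congr rfl fun w hw => ?_
  rw [Finset.sum_mul]
  refine Finset.sum_congr rfl fun w' hw' => ?_
  rw [Finset.mul_sum]
  refine Finset.sum_congr rfl fun v _ => ?_
  unfold zsum
  dsimp only
  rw [lf2_val f w, lf2_val f w', mul_add, mul_add, ee_add, ee_add]

private theorem lf2_FZ_norm (k n r : ℕ) (f : ℕ → ℝ) (θ : ℝ) :
    ‖FZ k n r f θ‖ = ‖lf2S k n r f θ‖ ^ 2 * ‖lf2T r f θ‖ := by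
  rw [lf2_FZ, norm_mul, norm_mul]
  ring

private theorem lf2_Zs_card (k n r : ℕ) :
    ((Zs k n r).card : ℝ) = (tot k J0 n (XX r)) ^ 2 * ((J1 (XX r)).card : ℝ) := by
  unfold Zs tot
  rw [Finset.card_product, Finset.card_product]
  push_cast
  ring

private theorem lf2_pairs {k n : ℕ} {P : ℝ} {f : ℕ → ℝ} {M B : ℝ}
    (h : ∀ α : ℝ, cnt k J0 n P (fun w => |val f (fun _ => 0) w - α| ≤ M) ≤ B) :
    pairs (chain k J0 n P) (fun p => |val f (fun _ => 0) p.1 - val f (fun _ => 0) p.2| ≤ M) ≤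
      tot k J0 n P * B := by
  rw [pairs_eq_sum_right]
  have h1 : ∀ w' ∈ chain k J0 n P,
      ((open Classical in ((chain k J0 n P).filter fun w =>
        |val f (fun _ => 0) w - val f (fun _ => 0) w'| ≤ M).card : ℕ) : ℝ) ≤ B := by
    intro w' _
    exact h (val f (fun _ => 0) w')
  refine (Finset.sum_le_sum h1).trans (le_of_eq ?_)
  rw [Finset.sum_const, nsmul_eq_mul]
  rfl

/-- the mean square of the sum over the chains -/
private theorem lf2_mean {k n u : ℕ} (hk : 2 ≤ k) (hn : (k : ℝ) * (1 - 1 / (k : ℝ)) ^ n < u)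
    {f : ℕ → ℝ} (hf : Good k f) {σ : ℝ} (hσ : 0 < σ) :
    ∃ C' : ℝ, 0 < C' ∧ ∀ᶠ r : ℕ in atTop,
      ∫ θ in (-((XX r) ^ u)⁻¹)..((XX r) ^ u)⁻¹, ‖lf2S k n r f θ‖ ^ 2 ≤
        Real.exp Real.pi * (tot k J0 n (XX r)) ^ 2 * (C' * (XX r) ^ (σ / 4) / (XX r) ^ k +
          Real.exp (-Real.pi * ((XX r) ^ (σ / 4)) ^ 2)) := by
  obtain ⟨C', hC', P0, hP0, hA⟩ := lemA hk hf (side_J0 k) n
  obtain ⟨Cn, hCn, hnx⟩ := nxt_iter_pow_le (by omega : 1 ≤ k) n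
  refine ⟨C', hC', ?_⟩
  have h1 : ∀ᶠ r : ℕ in atTop, P0 ≤ XX r := XX_tendsto.eventually_ge_atTop P0
  have h2 : ∀ᶠ r : ℕ in atTop, Cn * XX r ^ ((k : ℝ) * (1 - 1 / (k : ℝ)) ^ n) ≤
      XX r ^ (u : ℝ) := eventually_rpow_le hn
  filter_upwards [h1, h2] with r hr1 hr2
  have hP1 : 1 ≤ XX r := XX_ge_one r
  have hP : 0 < XX r := XX_pos r
  obtain ⟨P, hPdef⟩ : ∃ P, P = XX r := ⟨_, rfl⟩
  rw [← hPdef] at hr1 hr2 hP1 hP ⊢
  have hu0 : 0 < P ^ u := pow_pos hP u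
  have hu1 : 1 ≤ P ^ u := one_le_pow₀ hP1
  have hL : 0 < P ^ (σ / 4) := Real.rpow_pos_of_pos hP _
  have hL1 : 1 ≤ P ^ (σ / 4) := Real.one_le_rpow hP1 (by positivity)
  have hΘ : 0 < (P ^ u)⁻¹ := inv_pos.2 hu0
  have hΘ1 : (P ^ u)⁻¹ ≤ 1 := inv_le_one_of_one_le₀ hu1
  have h3 := gauss_one (chain k J0 n P) (val f (fun _ => 0)) hΘ hL
  have h4 : P ^ (σ / 4) / (P ^ u)⁻¹ = P ^ (σ / 4) * P ^ u := by
    rw [div_inv_eq_mul]
  have hM : ((nxt k)^[n] P) ^ k ≤ P ^ (σ / 4) * P ^ u := by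
    refine (hnx P hP1).trans (hr2.trans ?_)
    rw [Real.rpow_natCast]
    exact le_mul_of_one_le_left hu0.le hL1
  have h5 : pairs (chain k J0 n P) (fun p => |val f (fun _ => 0) p.1 - val f (fun _ => 0) p.2| ≤
      P ^ (σ / 4) / (P ^ u)⁻¹) ≤
      tot k J0 n P * (C' * tot k J0 n P * (P ^ (σ / 4) * P ^ u) / P ^ k) := by
    rw [h4]
    exact lf2_pairs fun α => hA P hr1 α _ hM
  have h6 : ∫ θ in (-(P ^ u)⁻¹)..(P ^ u)⁻¹, ‖lf2S k n r f θ‖ ^ 2 =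
      ∫ θ in (-(P ^ u)⁻¹)..(P ^ u)⁻¹,
        ‖∑ w ∈ chain k J0 n P, ee (θ * val f (fun _ => 0) w)‖ ^ 2 := by
    unfold lf2S
    rw [← hPdef]
  rw [h6]
  refine h3.trans ?_
  have hpi : 0 < Real.exp Real.pi := Real.exp_pos _
  have htot : 0 ≤ tot k J0 n P := Nat.cast_nonneg _
  have h7 : ((chain k J0 n P).card : ℝ) = tot k J0 n P := rfl
  rw [h7]
  have hPk : 0 < P ^ k := pow_pos hP k
  have he : 0 ≤ Real.exp (-Real.pi * (P ^ (σ / 4)) ^ 2) := (Real.exp_pos _).le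
  calc Real.exp Real.pi * (P ^ u)⁻¹ *
        (pairs (chain k J0 n P) (fun p => |val f (fun _ => 0) p.1 - val f (fun _ => 0) p.2| ≤
          P ^ (σ / 4) / (P ^ u)⁻¹) + tot k J0 n P ^ 2 *
          Real.exp (-Real.pi * (P ^ (σ / 4)) ^ 2))
      ≤ Real.exp Real.pi * (P ^ u)⁻¹ *
        (tot k J0 n P * (C' * tot k J0 n P * (P ^ (σ / 4) * P ^ u) / P ^ k) +
          tot k J0 n P ^ 2 * Real.exp (-Real.pi * (P ^ (σ / 4)) ^ 2)) := by
        refine mul_le_mul_of_nonneg_left ?_ (by positivity)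
        linarith
    _ = Real.exp Real.pi * tot k J0 n P ^ 2 * (C' * P ^ (σ / 4) / P ^ k) +
        (P ^ u)⁻¹ * (Real.exp Real.pi * tot k J0 n P ^ 2 *
          Real.exp (-Real.pi * (P ^ (σ / 4)) ^ 2)) := by
        field_simp
    _ ≤ Real.exp Real.pi * tot k J0 n P ^ 2 * (C' * P ^ (σ / 4) / P ^ k) +
        1 * (Real.exp Real.pi * tot k J0 n P ^ 2 *
          Real.exp (-Real.pi * (P ^ (σ / 4)) ^ 2)) := by
        have : 0 ≤ Real.exp Real.pi * tot k J0 n P ^ 2 *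
          Real.exp (-Real.pi * (P ^ (σ / 4)) ^ 2) := by positivity
        have := mul_le_mul_of_nonneg_right hΘ1 this
        linarith
    _ = _ := by ring

private theorem lf2_tend {C C' σ : ℝ} (hσ : 0 < σ) (k : ℕ) :
    Tendsto (fun P : ℝ => 2 * C * P ^ (-(1 / 2) : ℝ) + 16 * C * Real.exp Real.pi *
      (C' * P ^ (-(3 * σ / 4)) + P ^ (k : ℝ) * Real.exp (-Real.pi * P ^ (σ / 2)))) atTop (𝓝 0) := by
  have h1 : Tendsto (fun P : ℝ => P ^ (-(1 / 2) : ℝ)) atTop (𝓝 0) :=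
    tendsto_rpow_neg_atTop (by norm_num)
  have h2 : Tendsto (fun P : ℝ => P ^ (-(3 * σ / 4))) atTop (𝓝 0) :=
    tendsto_rpow_neg_atTop (by positivity)
  have h3 : Tendsto (fun P : ℝ => P ^ (k : ℝ) * Real.exp (-Real.pi * P ^ (σ / 2))) atTop (𝓝 0) := by
    have h4 := tendsto_rpow_mul_exp_neg_mul_atTop_nhds_zero ((k : ℝ) / (σ / 2)) Real.pi Real.pi_pos
    have h5 : Tendsto (fun P : ℝ => P ^ (σ / 2)) atTop atTop :=
      tendsto_rpow_atTop (by positivity)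
    refine (h4.comp h5).congr' ?_
    filter_upwards [eventually_ge_atTop (0 : ℝ)] with P hP
    simp only [Function.comp]
    rw [← Real.rpow_mul hP]
    have h6 : σ / 2 * ((k : ℝ) / (σ / 2)) = k := by
      field_simp
    rw [h6]
  have h7 := (h1.const_mul (2 * C)).add (((h2.const_mul C').add h3).const_mul
    (16 * C * Real.exp Real.pi))
  simpa using h7

private theorem lf2_set (Θ : ℝ) : {θ : ℝ | |θ| ≤ Θ} = Set.Icc (-Θ) Θ := by
  ext θ
  simp only [Set.mem_ofPred_eq, Set.mem_Icc, abs_le]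

theorem low_freq2 {k n u : ℕ} (hk : 2 ≤ k) (hn : (k : ℝ) * (1 - 1 / (k : ℝ)) ^ n < u)
    (J M : ℕ) {g : Polynomial ℝ} (hg : g.natDegree < k)
    (hD : FWar.Dioph (g.coeff (k - 1))) {C : ℝ} (K : ℕ → ℝ → ℂ) (hK : ∀ r, Continuous (K r))
    (hK1 : ∀ r θ, ‖K r θ‖ ≤ C) :
    ∀ᶠ r : ℕ in atTop, ∀ (l : ℕ) (Y : ℝ),
      ‖∫ θ in {θ : ℝ | |θ| ≤ ((XX r) ^ u)⁻¹}, K r θ * ee (-(θ * Y)) *
        FZ k n r (fun x => (x : ℝ) ^ k + g.eval (x : ℝ)) θ *
        FB k J M l r (fun x => (x : ℝ) ^ k + g.eval (x : ℝ)) θ‖ ≤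
        3 * C * (XX r) ^ ((1 : ℝ) / 4) * sz k n J M l r := by
  classical
  set f : ℕ → ℝ := fun x => (x : ℝ) ^ k + g.eval (x : ℝ) with hfdef
  have hf : Good k f := lf2_good hk hg
  obtain ⟨σ, hσ, hw⟩ := FWar.weylP hk
  have hw1 := hw 1 g one_pos hg (by rw [div_one]; exact hD)
  obtain ⟨C', hC', hmean⟩ := lf2_mean hk hn hf hσ
  have hC0 : 0 ≤ C := (norm_nonneg _).trans (hK1 0 0)
  have ht : ∀ᶠ r : ℕ in atTop, 2 * 1 * (XX r) ^ (-(1 / 2) : ℝ) + 16 * 1 * Real.exp Real.pi *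
      (C' * (XX r) ^ (-(3 * σ / 4)) + (XX r) ^ (k : ℝ) *
        Real.exp (-Real.pi * (XX r) ^ (σ / 2))) < 1 :=
    ((lf2_tend hσ k (C := 1) (C' := C')).comp XX_tendsto).eventually (gt_mem_nhds one_pos)
  have h16 : ∀ᶠ r : ℕ in atTop, (16 : ℝ) ≤ XX r := XX_tendsto.eventually_ge_atTop 16
  filter_upwards [hw1, hmean, ht, h16] with r hr1 hr2 hr3 hr4
  intro l Y
  have hP1 : 1 ≤ XX r := XX_ge_one r
  have hP : 0 < XX r := XX_pos r
  have hu0 : 0 < (XX r) ^ u := pow_pos hP u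
  have hu1 : 1 ≤ (XX r) ^ u := one_le_pow₀ hP1
  have hk0 : 0 < (XX r) ^ k := pow_pos hP k
  obtain ⟨Θ, hΘ⟩ : ∃ Θ, Θ = ((XX r) ^ u)⁻¹ := ⟨_, rfl⟩
  obtain ⟨ρ, hρ⟩ : ∃ ρ, ρ = (XX r) ^ ((1 : ℝ) / 4 - k) := ⟨_, rfl⟩
  obtain ⟨Z, hZ⟩ : ∃ Z, Z = ((Zs k n r).card : ℝ) := ⟨_, rfl⟩
  obtain ⟨B, hB⟩ : ∃ B, B = ((Bk k J M l r).card : ℝ) := ⟨_, rfl⟩
  have hΘ0 : 0 < Θ := by rw [hΘ]; exact inv_pos.2 hu0
  have hΘ1 : Θ ≤ 1 := by rw [hΘ]; exact inv_le_one_of_one_le₀ hu1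
  have hρ0 : 0 < ρ := by rw [hρ]; exact Real.rpow_pos_of_pos hP _
  have hZ0 : 0 ≤ Z := by rw [hZ]; exact Nat.cast_nonneg _
  have hB0 : 0 ≤ B := by rw [hB]; exact Nat.cast_nonneg _
  rw [← hΘ]
  rw [← hΘ] at hr2
  rw [← hρ] at hr1
  -- the integrand
  obtain ⟨F, hF⟩ : ∃ F : ℝ → ℂ, F = fun θ => K r θ * ee (-(θ * Y)) * FZ k n r f θ *
      FB k J M l r f θ := ⟨_, rfl⟩
  have hFc : Continuous F := by
    rw [hF]
    exact (((hK r).mul (lf2_ee_cont.comp (continuous_id.mul continuous_const).neg)).mul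
      (FZ_cont k n r f)).mul (FB_cont k J M l r f)
  have hFn : ∀ θ, ‖F θ‖ ≤ ‖K r θ‖ * ‖FZ k n r f θ‖ * B := by
    intro θ
    rw [hF]
    dsimp only
    rw [norm_mul, norm_mul, norm_mul, ee_norm, mul_one, hB]
    exact mul_le_mul_of_nonneg_left (FB_norm k J M l r f θ) (by positivity)
  have hsmall : ∀ θ, |θ| ≤ ρ → ‖F θ‖ ≤ C * Z * B := by
    intro θ _
    refine (hFn θ).trans (mul_le_mul_of_nonneg_right ?_ hB0)
    exact mul_le_mul (hK1 r θ) (by rw [hZ]; exact FZ_norm k n r f θ) (norm_nonneg _) hC0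
  have hbig : ∀ θ, |θ| ≤ Θ → ρ < |θ| →
      ‖F θ‖ ≤ (C * (XX r) ^ (1 - σ) * B) * ‖lf2S k n r f θ‖ ^ 2 := by
    intro θ h1 h2
    have h3 : |θ| ≤ (XX r) ^ σ := h1.trans (hΘ1.trans (Real.one_le_rpow hP1 hσ.le))
    have h4 := hr1 θ h2.le h3
    have h5 : lf2T r f θ = ∑ z ∈ J1 (XX r), Pool.PolyMax.e (θ * (1 * (z : ℝ) ^ k +
        g.eval (z : ℝ))) := by
      unfold lf2T
      refine Finset.sum_congr rfl fun z _ => ?_
      rw [hfdef, one_mul]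
      rfl
    rw [← h5] at h4
    refine (hFn θ).trans ?_
    rw [lf2_FZ_norm]
    have h6 : ‖K r θ‖ * (‖lf2S k n r f θ‖ ^ 2 * ‖lf2T r f θ‖) ≤
        C * (‖lf2S k n r f θ‖ ^ 2 * (XX r) ^ (1 - σ)) :=
      mul_le_mul (hK1 r θ) (mul_le_mul_of_nonneg_left h4 (by positivity)) (by positivity) hC0
    calc ‖K r θ‖ * (‖lf2S k n r f θ‖ ^ 2 * ‖lf2T r f θ‖) * B
        ≤ C * (‖lf2S k n r f θ‖ ^ 2 * (XX r) ^ (1 - σ)) * B := mul_le_mul_of_nonneg_right h6 hB0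
      _ = _ := by ring
  have hgoal : ∀ θ, K r θ * ee (-(θ * Y)) * FZ k n r f θ * FB k J M l r f θ = F θ := by
    intro θ
    rw [hF]
  simp only [hgoal]
  rw [lf2_set]
  have hFi : IntegrableOn F (Set.Icc (-Θ) Θ) := hFc.integrableOn_Icc
  rw [← integral_inter_add_sdiff (measurableSet_Icc (a := -ρ) (b := ρ)) hFi]
  refine (norm_add_le _ _).trans ?_
  -- first part
  have hp1 : ‖∫ θ in Set.Icc (-Θ) Θ ∩ Set.Icc (-ρ) ρ, F θ‖ ≤
      C * Z * B * (2 * ρ) := by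
    have hc0 : 0 ≤ C * Z * B := by positivity
    have hvol : (volume : Measure ℝ) (Set.Icc (-Θ) Θ ∩ Set.Icc (-ρ) ρ) ≤
        volume (Set.Icc (-ρ) ρ) := measure_mono Set.inter_subset_right
    have hvolt : (volume : Measure ℝ) (Set.Icc (-ρ) ρ) < ⊤ := by
      rw [Real.volume_Icc]
      exact ENNReal.ofReal_lt_top
    have h1 := norm_setIntegral_le_of_norm_le_const (μ := volume)
      (s := Set.Icc (-Θ) Θ ∩ Set.Icc (-ρ) ρ) (f := F) (C := C * Z * B)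
      (lt_of_le_of_lt hvol hvolt) (fun θ hθ => hsmall θ (abs_le.2 hθ.2))
    refine h1.trans (mul_le_mul_of_nonneg_left ?_ hc0)
    unfold Measure.real
    refine (ENNReal.toReal_mono hvolt.ne hvol).trans (le_of_eq ?_)
    rw [Real.volume_Icc, ENNReal.toReal_ofReal (by linarith)]
    ring
  -- second part
  have hSc : Continuous fun θ => (C * (XX r) ^ (1 - σ) * B) * ‖lf2S k n r f θ‖ ^ 2 :=
    continuous_const.mul ((lf2S_cont k n r f).norm.pow 2)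
  have hc2 : 0 ≤ C * (XX r) ^ (1 - σ) * B := by positivity
  have hp2 : ‖∫ θ in Set.Icc (-Θ) Θ \ Set.Icc (-ρ) ρ, F θ‖ ≤
      (C * (XX r) ^ (1 - σ) * B) * ∫ θ in (-Θ)..Θ, ‖lf2S k n r f θ‖ ^ 2 := by
    have hSi : IntegrableOn (fun θ => (C * (XX r) ^ (1 - σ) * B) * ‖lf2S k n r f θ‖ ^ 2)
        (Set.Icc (-Θ) Θ) := hSc.integrableOn_Icc
    have hm : MeasurableSet (Set.Icc (-Θ) Θ \ Set.Icc (-ρ) ρ) :=
      measurableSet_Icc.diff measurableSet_Icc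
    have h1 : ‖∫ θ in Set.Icc (-Θ) Θ \ Set.Icc (-ρ) ρ, F θ‖ ≤
        ∫ θ in Set.Icc (-Θ) Θ \ Set.Icc (-ρ) ρ,
          (C * (XX r) ^ (1 - σ) * B) * ‖lf2S k n r f θ‖ ^ 2 := by
      refine norm_integral_le_of_norm_le (hSi.mono_set Set.sdiff_subset) ?_
      refine (ae_restrict_iff' hm).2 (Eventually.of_forall fun θ hθ => ?_)
      refine hbig θ (abs_le.2 hθ.1) ?_
      by_contra hcon
      exact hθ.2 (abs_le.1 (not_lt.1 hcon))
    have h2 : ∫ θ in Set.Icc (-Θ) Θ \ Set.Icc (-ρ) ρ,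
          (C * (XX r) ^ (1 - σ) * B) * ‖lf2S k n r f θ‖ ^ 2 ≤
        ∫ θ in Set.Icc (-Θ) Θ, (C * (XX r) ^ (1 - σ) * B) * ‖lf2S k n r f θ‖ ^ 2 := by
      refine setIntegral_mono_set hSi ?_ (Eventually.of_forall Set.sdiff_subset)
      exact Eventually.of_forall fun θ => mul_nonneg hc2 (by positivity)
    refine (h1.trans h2).trans (le_of_eq ?_)
    rw [integral_Icc_eq_integral_Ioc, ← intervalIntegral.integral_of_le (by linarith),
      intervalIntegral.integral_const_mul]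
  refine (add_le_add hp1 (hp2.trans (mul_le_mul_of_nonneg_left hr2 hc2))).trans ?_
  -- the numbers
  have hsz : sz k n J M l r = Z * B / (XX r) ^ k := by
    unfold sz
    rw [hZ, hB]
  have htot : (tot k J0 n (XX r)) ^ 2 * (XX r) ≤ 16 * Z := by
    have h1 := card_J1_ge hr4
    rw [hZ, lf2_Zs_card]
    have h2 : 0 ≤ (tot k J0 n (XX r)) ^ 2 := by positivity
    have h3 := mul_le_mul_of_nonneg_left h1 h2
    linarith
  have hszn : 0 ≤ sz k n J M l r := by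
    rw [hsz]
    positivity
  have hA1 : C * Z * B * (2 * ρ) ≤ 2 * C * (XX r) ^ ((1 : ℝ) / 4) * sz k n J M l r := by
    rw [hsz, hρ, Real.rpow_sub hP, Real.rpow_natCast]
    refine le_of_eq ?_
    ring
  have hA2 : C * (XX r) ^ (1 - σ) * B *
      (Real.exp Real.pi * (tot k J0 n (XX r)) ^ 2 * (C' * (XX r) ^ (σ / 4) / (XX r) ^ k +
        Real.exp (-Real.pi * ((XX r) ^ (σ / 4)) ^ 2))) ≤
      16 * C * Real.exp Real.pi *
      (C' * (XX r) ^ (-(3 * σ / 4)) + (XX r) ^ (k : ℝ) *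
        Real.exp (-Real.pi * (XX r) ^ (σ / 2))) * sz k n J M l r := by
    have e1 : (XX r) ^ (1 - σ) = (XX r) * (XX r) ^ (-σ) := by
      rw [sub_eq_add_neg, Real.rpow_add hP, Real.rpow_one]
    have e2 : ((XX r) ^ (σ / 4)) ^ 2 = (XX r) ^ (σ / 2) := by
      rw [← Real.rpow_natCast, ← Real.rpow_mul hP.le]
      congr 1
      push_cast
      ring
    have e3 : (XX r) ^ (-(3 * σ / 4)) = (XX r) ^ (-σ) * (XX r) ^ (σ / 4) := by
      rw [← Real.rpow_add hP]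
      congr 1
      ring
    have e4 : (XX r) ^ (-σ) ≤ 1 := Real.rpow_le_one_of_one_le_of_nonpos hP1 (by linarith)
    obtain ⟨E, hE⟩ : ∃ E, E = Real.exp (-Real.pi * (XX r) ^ (σ / 2)) := ⟨_, rfl⟩
    have hE0 : 0 ≤ E := by rw [hE]; positivity
    rw [e2, ← hE, hsz, e3, e1, Real.rpow_natCast]
    have hx0 : 0 < (XX r) ^ (-σ) := Real.rpow_pos_of_pos hP _
    have hy0 : 0 < (XX r) ^ (σ / 4) := Real.rpow_pos_of_pos hP _
    have h5 : 0 ≤ C * B * Real.exp Real.pi * ((XX r) ^ (-σ) *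
        (C' * (XX r) ^ (σ / 4) / (XX r) ^ k + E)) := by positivity
    have h6 : (XX r) ^ (-σ) * E ≤ E := mul_le_of_le_one_left hE0 e4
    calc C * (XX r * (XX r) ^ (-σ)) * B *
        (Real.exp Real.pi * (tot k J0 n (XX r)) ^ 2 * (C' * (XX r) ^ (σ / 4) / (XX r) ^ k + E))
        = (tot k J0 n (XX r)) ^ 2 * (XX r) * (C * B * Real.exp Real.pi * ((XX r) ^ (-σ) *
        (C' * (XX r) ^ (σ / 4) / (XX r) ^ k + E))) := by ring
      _ ≤ 16 * Z * (C * B * Real.exp Real.pi * ((XX r) ^ (-σ) *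
        (C' * (XX r) ^ (σ / 4) / (XX r) ^ k + E))) := mul_le_mul_of_nonneg_right htot h5
      _ = 16 * C * Real.exp Real.pi * (Z * B) * (C' * ((XX r) ^ (-σ) * (XX r) ^ (σ / 4)) /
          (XX r) ^ k + (XX r) ^ (-σ) * E) := by ring
      _ ≤ 16 * C * Real.exp Real.pi * (Z * B) * (C' * ((XX r) ^ (-σ) * (XX r) ^ (σ / 4)) /
          (XX r) ^ k + E) := by
          refine mul_le_mul_of_nonneg_left ?_ (by positivity)
          linarith
      _ = _ := by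
          field_simp
  refine (add_le_add hA1 hA2).trans ?_
  rw [← add_mul]
  refine mul_le_mul_of_nonneg_right ?_ hszn
  have hq1 : 1 ≤ (XX r) ^ ((1 : ℝ) / 4) := Real.one_le_rpow hP1 (by norm_num)
  have hq2 : 16 * Real.exp Real.pi * (C' * (XX r) ^ (-(3 * σ / 4)) + (XX r) ^ (k : ℝ) *
      Real.exp (-Real.pi * (XX r) ^ (σ / 2))) ≤ 1 := by
    have hq3 : 0 ≤ (XX r) ^ (-(1 / 2) : ℝ) := (Real.rpow_pos_of_pos hP _).le
    linarith
  have hq4 := mul_le_mul_of_nonneg_left (hq2.trans hq1) hC0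
  calc 2 * C * (XX r) ^ ((1 : ℝ) / 4) + 16 * C * Real.exp Real.pi *
        (C' * (XX r) ^ (-(3 * σ / 4)) + (XX r) ^ (k : ℝ) *
          Real.exp (-Real.pi * (XX r) ^ (σ / 2)))
      = 2 * C * (XX r) ^ ((1 : ℝ) / 4) + C * (16 * Real.exp Real.pi *
        (C' * (XX r) ^ (-(3 * σ / 4)) + (XX r) ^ (k : ℝ) *
          Real.exp (-Real.pi * (XX r) ^ (σ / 2)))) := by ring
    _ ≤ 2 * C * (XX r) ^ ((1 : ℝ) / 4) + C * (XX r) ^ ((1 : ℝ) / 4) := by linarith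
    _ = 3 * C * (XX r) ^ ((1 : ℝ) / 4) := by ring

end LWar
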