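import Pool.Agent.LWar.KernF
import Pool.Agent.LWar.LowF2
import Pool.Agent.LWar.Defs
import Pool.Agent.KWar.LowAsm

/-!
# LWar.AsmF: if an integer is not represented, one of the middle integrals is large

PROOF. Compare `Pool/Agent/KWar/LowAsm.lean`. Let `P = XX r`, `s = p.s` the number of letters, `B = s`,
`C`, `K1'`, `K3'` from `kernF (k+2)`, `K1 r = K1' (P^u) P` (`P ≤ P^u` as `u ≥ 1`, which follows from `hn`),
`K3 r = K3' P`, `K2 r θ = exp (-(P|θ|))` (continuous, `≤ 1`, and `|θ|^(k+2) exp(-P|θ|) ≤ (k+2)!` for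
`P ≥ 1`). Given `g`, let `f x = x^k + g.eval x` (a `Good k f` function). Let `l < L`, `N ∈ NN k r` with no
representation. Apply `kernF` to the set `Zs ×ˢ Bk`, `S x = zsum f x.1 + bsum f x.2`,
`F x = zsum (fl f) x.1 + bsum (fl f) x.2` (an integer, `≠ N`; `0 ≤ S - F ≤ s` because each of the `s` letters
contributes a fractional part: `zsum_lz` (DecAppF) or `lets`/`chain_length`), `H = P^u`, target `(N : ℤ)`.
`main_ct` bounds the left side from below by `c sz`. On the right side: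
* the `K1` integral is over the disjoint union of `{|θ| ≤ (P^u)⁻¹}`, `TT r h` (`h ≤ u`), `{P < |θ|}`
  (the decomposition lemma in `LowAsm.lean` can be reused or copied):
  `≤ (c/8) sz + ∑_h ‖M2 (K1 r) .. h f N‖ + (c/8) sz` (`low_freq`, `tail_freq`);
* the `K3` integral: `K3 r` vanishes for `|θ| ≤ P⁻¹` and `|θ| > 1/2`, and `TT r 1 = {P⁻¹ < |θ| ≤ 1}`, so it is
  `M2 (K3 r) .. 1 (fl f) N`; its factor is `C`;
* the `K2` integral is `≤ 3 P^(1/4) sz + ∑_h ‖M2 (K2 r) .. h f N‖ + sz` (`low_freq2`, `tail_freq`), with the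
  factor `C/P`: `(C/P)(3P^(1/4) + 1) sz ≤ (c/8) sz` for large `r`, and `C/P ≤ C`.
So `c sz ≤ (3c/8) sz + (1 + 2C) (∑_h (‖M2 K1‖ + ‖M2 K2‖) + ‖M2 K3‖)`; divide by `sz > 0` (`sz_pos`).
`FZ FB = ∑_x ee (θ S x)` as in `LowAsm`.
-/

namespace LWar

open Filter Topology MeasureTheory MWg KWar

private theorem AsmF_good {k : ℕ} (hk : 2 ≤ k) {g : Polynomial ℝ} (hg : g.natDegree < k) :
    Good k (fun x : ℕ => (x : ℝ) ^ k + g.eval (x : ℝ)) := by
  have h : ∀ m : ℕ, m ≤ k → Good k (fun x : ℕ => (x : ℝ) ^ k +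
      ∑ i ∈ Finset.range m, g.coeff i * (x : ℝ) ^ i) := by
    intro m
    induction m with
    | zero =>
      intro _
      simpa using good_pow (by omega : 1 ≤ k)
    | succ m ih =>
      intro hm
      have h1 := good_add_pow (by omega : m < k) (ih (by omega)) (g.coeff m)
      have h2 : (fun x : ℕ => (x : ℝ) ^ k + ∑ i ∈ Finset.range (m + 1), g.coeff i * (x : ℝ) ^ i) =
          (fun x : ℕ => (x : ℝ) ^ k + ∑ i ∈ Finset.range m, g.coeff i * (x : ℝ) ^ i +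
            g.coeff m * (x : ℝ) ^ m) := by
        funext x
        rw [Finset.sum_range_succ]
        ring
      rw [h2]
      exact h1
  have h3 : (fun x : ℕ => (x : ℝ) ^ k + g.eval (x : ℝ)) = (fun x : ℕ => (x : ℝ) ^ k +
      ∑ i ∈ Finset.range k, g.coeff i * (x : ℝ) ^ i) := by
    funext x
    rw [Polynomial.eval_eq_sum_range' hg]
  rw [h3]
  exact h k le_rfl

/-- The set `{|θ| ≤ P / P ^ h}`. -/
private def AsmF_A (P : ℝ) (h : ℕ) : Set ℝ := {θ : ℝ | |θ| ≤ P / P ^ h}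

private theorem AsmF_A_meas (P : ℝ) (h : ℕ) : MeasurableSet (AsmF_A P h) :=
  measurableSet_le continuous_abs.measurable measurable_const

private theorem AsmF_step (r h : ℕ) {F : ℝ → ℂ} (hF : Integrable F) :
    ∫ θ in AsmF_A (XX r) h, F θ = (∫ θ in TT r h, F θ) + ∫ θ in AsmF_A (XX r) (h + 1), F θ := by
  have hP : 0 < XX r := lt_of_lt_of_le one_pos (XX_one r)
  have hP1 : 1 ≤ XX r := XX_one r
  have e1 : XX r / XX r ^ (h + 1) = (XX r ^ h)⁻¹ := by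
    rw [pow_succ]
    field_simp
  have e2 : (XX r ^ h)⁻¹ ≤ XX r / XX r ^ h := by
    rw [div_eq_mul_inv]
    exact le_mul_of_one_le_left (by positivity) hP1
  have hun : AsmF_A (XX r) h = TT r h ∪ AsmF_A (XX r) (h + 1) := by
    ext θ
    simp only [AsmF_A, TT, Set.mem_union, Set.mem_ofPred_eq, e1]
    constructor
    · intro h1
      rcases le_or_gt |θ| ((XX r ^ h)⁻¹) with h2 | h2
      · exact Or.inr h2
      · exact Or.inl ⟨h2, h1⟩
    · rintro (h1 | h1)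
      · exact h1.2
      · exact h1.trans e2
  have hdis : Disjoint (TT r h) (AsmF_A (XX r) (h + 1)) := by
    rw [Set.disjoint_left]
    intro θ h1 h2
    simp only [AsmF_A, TT, Set.mem_ofPred_eq, e1] at h1 h2
    exact absurd h1.1 (not_lt.2 h2)
  rw [hun, setIntegral_union hdis (AsmF_A_meas _ _) hF.integrableOn hF.integrableOn]

private theorem AsmF_steps (r : ℕ) {F : ℝ → ℂ} (hF : Integrable F) (m : ℕ) :
    ‖∫ θ in AsmF_A (XX r) 0, F θ‖ ≤
      (∑ h ∈ Finset.range m, ‖∫ θ in TT r h, F θ‖) + ‖∫ θ in AsmF_A (XX r) m, F θ‖ := by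
  induction m with
  | zero => simp
  | succ m ih =>
    rw [Finset.sum_range_succ]
    rw [AsmF_step r m hF] at ih
    have := norm_add_le (∫ θ in TT r m, F θ) (∫ θ in AsmF_A (XX r) (m + 1), F θ)
    linarith

private theorem AsmF_split (r u : ℕ) {F : ℝ → ℂ} (hF : Integrable F) :
    ‖∫ θ, F θ‖ ≤ ‖∫ θ in {θ : ℝ | |θ| ≤ ((XX r) ^ u)⁻¹}, F θ‖ +
      (∑ h ∈ Finset.range (u + 1), ‖∫ θ in TT r h, F θ‖) +
      ‖∫ θ in {θ : ℝ | XX r < |θ|}, F θ‖ := by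
  have hP : 0 < XX r := lt_of_lt_of_le one_pos (XX_one r)
  have h1 := integral_add_compl (AsmF_A_meas (XX r) 0) hF
  have h2 : (AsmF_A (XX r) 0)ᶜ = {θ : ℝ | XX r < |θ|} := by
    ext θ
    simp [AsmF_A]
  have h3 : AsmF_A (XX r) (u + 1) = {θ : ℝ | |θ| ≤ ((XX r) ^ u)⁻¹} := by
    unfold AsmF_A
    have e1 : XX r / XX r ^ (u + 1) = (XX r ^ u)⁻¹ := by
      rw [pow_succ]
      field_simp
    rw [e1]
  have h4 := AsmF_steps r hF (u + 1)
  rw [h3] at h4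
  rw [← h1, h2]
  have h5 := norm_add_le (∫ θ in AsmF_A (XX r) 0, F θ) (∫ θ in {θ : ℝ | XX r < |θ|}, F θ)
  linarith

private theorem AsmF_integrable {K : ℝ → ℂ} (hK : Continuous K) {C : ℝ} {m : ℕ} (hm : 2 ≤ m)
    (h1 : ∀ θ, ‖K θ‖ ≤ C) (h2 : ∀ θ, |θ| ^ m * ‖K θ‖ ≤ C) {E : ℝ → ℂ} (hE : Continuous E) {D : ℝ}
    (hD : ∀ θ, ‖E θ‖ ≤ D) : Integrable fun θ => K θ * E θ := by
  have hC0 : 0 ≤ C := (norm_nonneg _).trans (h1 0)
  have hint : Integrable fun θ : ℝ => (2 * C * D) * (1 + θ ^ 2)⁻¹ :=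
    integrable_inv_one_add_sq.const_mul _
  refine hint.mono' (hK.mul hE).aestronglyMeasurable (Filter.Eventually.of_forall fun θ => ?_)
  rw [norm_mul]
  have h3 : |θ| ^ 2 * ‖K θ‖ ≤ C := by
    rcases le_total |θ| 1 with h | h
    · have : |θ| ^ 2 ≤ 1 := pow_le_one₀ (abs_nonneg _) h
      calc |θ| ^ 2 * ‖K θ‖ ≤ 1 * ‖K θ‖ := mul_le_mul_of_nonneg_right this (norm_nonneg _)
        _ ≤ C := by rw [one_mul]; exact h1 θ
    · have : |θ| ^ 2 ≤ |θ| ^ m := pow_le_pow_right₀ h hm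
      exact (mul_le_mul_of_nonneg_right this (norm_nonneg _)).trans (h2 θ)
  have h4 : ‖K θ‖ ≤ 2 * C * (1 + θ ^ 2)⁻¹ := by
    rw [← div_eq_mul_inv, le_div_iff₀ (by positivity)]
    rw [sq_abs] at h3
    have := h1 θ
    nlinarith
  have hD0 : 0 ≤ D := (norm_nonneg _).trans (hD 0)
  calc ‖K θ‖ * ‖E θ‖ ≤ (2 * C * (1 + θ ^ 2)⁻¹) * D :=
        mul_le_mul h4 (hD θ) (norm_nonneg _) (by positivity)
    _ = 2 * C * D * (1 + θ ^ 2)⁻¹ := by ring

/-- The sum over the pairs is the product of the sums. -/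
private theorem AsmF_prod (k n J M l r : ℕ) (f : ℕ → ℝ) (θ : ℝ) :
    ∑ x ∈ Zs k n r ×ˢ Bk k J M l r, ee (θ * (zsum f x.1 + bsum f x.2)) =
      FZ k n r f θ * FB k J M l r f θ := by
  unfold FZ FB
  rw [Finset.sum_product, Finset.sum_mul_sum]
  refine Finset.sum_congr rfl fun z _ => Finset.sum_congr rfl fun b _ => ?_
  rw [mul_add, ee_add]

/-- The decomposition for the real sums. -/
private theorem AsmF_dec (k n J M l r u : ℕ) (f : ℕ → ℝ) (Y : ℝ) {K : ℝ → ℂ} (hK : Continuous K)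
    {C : ℝ} (h1 : ∀ θ, ‖K θ‖ ≤ C) (h2 : ∀ θ, |θ| ^ (k + 2) * ‖K θ‖ ≤ C) :
    ‖∫ θ : ℝ, K θ * ee (-(θ * Y)) *
        ∑ x ∈ Zs k n r ×ˢ Bk k J M l r, ee (θ * (zsum f x.1 + bsum f x.2))‖ ≤
      ‖∫ θ in {θ : ℝ | |θ| ≤ ((XX r) ^ u)⁻¹}, K θ * ee (-(θ * Y)) * FZ k n r f θ *
        FB k J M l r f θ‖ +
      (∑ h ∈ Finset.range (u + 1), ‖M2 K k n J M l r h f Y‖) +
      ‖∫ θ in {θ : ℝ | XX r < |θ|}, K θ * ee (-(θ * Y)) * FZ k n r f θ * FB k J M l r f θ‖ := by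
  have e1 : (fun θ : ℝ => K θ * ee (-(θ * Y)) *
        ∑ x ∈ Zs k n r ×ˢ Bk k J M l r, ee (θ * (zsum f x.1 + bsum f x.2))) =
      fun θ : ℝ => K θ * ee (-(θ * Y)) * FZ k n r f θ * FB k J M l r f θ := by
    funext θ
    rw [AsmF_prod]
    ring
  have hE : Continuous fun θ : ℝ => ee (-(θ * Y)) * FZ k n r f θ * FB k J M l r f θ :=
    ((ee_cont.comp (continuous_id.mul continuous_const).neg).mul (FZ_cont k n r f)).mul
      (FB_cont k J M l r f)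
  have hD : ∀ θ : ℝ, ‖ee (-(θ * Y)) * FZ k n r f θ * FB k J M l r f θ‖ ≤
      ((Zs k n r).card : ℝ) * ((Bk k J M l r).card : ℝ) := by
    intro θ
    rw [norm_mul, norm_mul, ee_norm, one_mul]
    exact mul_le_mul (FZ_norm k n r f θ) (FB_norm k J M l r f θ) (norm_nonneg _)
      (Nat.cast_nonneg _)
  have hint := AsmF_integrable hK (by omega : 2 ≤ k + 2) h1 h2 hE hD
  have e2 : (fun θ : ℝ => K θ * (ee (-(θ * Y)) * FZ k n r f θ * FB k J M l r f θ)) =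
      fun θ : ℝ => K θ * ee (-(θ * Y)) * FZ k n r f θ * FB k J M l r f θ := by
    funext θ
    ring
  rw [e2] at hint
  rw [e1]
  exact AsmF_split r u hint

private theorem AsmF_list (f : ℕ → ℝ) (w : List ℕ) :
    0 ≤ (w.map f).sum - (w.map (fl f)).sum ∧
      (w.map f).sum - (w.map (fl f)).sum ≤ (w.length : ℝ) := by
  induction w with
  | nil => simp
  | cons a w ih =>
    simp only [List.map_cons, List.sum_cons, List.length_cons, Nat.cast_add, Nat.cast_one]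
    have h1 : fl f a ≤ f a := Int.floor_le (f a)
    have h2 : f a < fl f a + 1 := Int.lt_floor_add_one (f a)
    constructor <;> linarith [ih.1, ih.2]

private theorem AsmF_list_int (f : ℕ → ℝ) (w : List ℕ) :
    (w.map (fl f)).sum = (((w.map fun x => ⌊f x⌋).sum : ℤ) : ℝ) := by
  induction w with
  | nil => simp
  | cons a w ih =>
    simp only [List.map_cons, List.sum_cons, Int.cast_add]
    rw [ih]
    rfl

private theorem AsmF_exp_bound (m : ℕ) {P : ℝ} (hP : 1 ≤ P) (θ : ℝ) :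
    |θ| ^ m * Real.exp (-(P * |θ|)) ≤ (m.factorial : ℝ) := by
  have h1 := Real.pow_div_factorial_le_exp |θ| (abs_nonneg θ) m
  have h2 : (0 : ℝ) < m.factorial := by exact_mod_cast m.factorial_pos
  rw [div_le_iff₀ h2] at h1
  have h3 : Real.exp |θ| ≤ Real.exp (P * |θ|) :=
    Real.exp_le_exp.2 (le_mul_of_one_le_left (abs_nonneg θ) hP)
  have h4 : Real.exp (P * |θ|) * Real.exp (-(P * |θ|)) = 1 := by
    rw [← Real.exp_add, add_neg_cancel, Real.exp_zero]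
  have h5 := Real.exp_pos (-(P * |θ|))
  calc |θ| ^ m * Real.exp (-(P * |θ|)) ≤
      (Real.exp (P * |θ|) * m.factorial) * Real.exp (-(P * |θ|)) := by
        apply mul_le_mul_of_nonneg_right _ h5.le
        exact h1.trans (mul_le_mul_of_nonneg_right h3 h2.le)
    _ = (Real.exp (P * |θ|) * Real.exp (-(P * |θ|))) * m.factorial := by ring
    _ = m.factorial := by rw [h4, one_mul]

private theorem AsmF_u {k d : ℕ} (p : Par k d) : 1 ≤ p.u := by
  have hk := p.hk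
  have h1 := p.hn
  have hkR : (5 : ℝ) ≤ k := by exact_mod_cast (show 5 ≤ k by omega)
  have h2 : (0 : ℝ) ≤ (k : ℝ) * (1 - 1 / (k : ℝ)) ^ p.n := by
    have h3 : 1 / (k : ℝ) ≤ 1 := by
      rw [div_le_one (by linarith)]
      linarith
    have h4 : (0 : ℝ) ≤ 1 - 1 / (k : ℝ) := by linarith
    positivity
  have h5 : (0 : ℝ) < p.u := lt_of_le_of_lt h2 h1
  exact_mod_cast h5

theorem asmF {k d : ℕ} (p : Par k d) :
    ∃ (C : ℝ) (K1 K2 K3 : ℕ → ℝ → ℂ), 0 < C ∧ (∀ r, Continuous (K1 r)) ∧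
      (∀ r, Continuous (K2 r)) ∧ (∀ r, Measurable (K3 r)) ∧
      (∀ r θ, ‖K1 r θ‖ ≤ C ∧ ‖K2 r θ‖ ≤ C ∧ ‖K3 r θ‖ ≤ C) ∧
      (∀ᶠ r : ℕ in atTop, ∀ θ : ℝ, 1 / 2 < |θ| → K3 r θ = 0) ∧
      ∀ g : Polynomial ℝ, g.natDegree < k → FWar.Dioph (g.coeff (k - 1)) →
      ∃ c : ℝ, 0 < c ∧ ∀ᶠ r : ℕ in atTop, ∀ l : ℕ, l < p.L → ∀ N ∈ NN k r,
        (∀ z ∈ Zs k p.n r, ∀ b ∈ Bk k p.J p.M l r,
          zsum (fl fun x => (x : ℝ) ^ k + g.eval (x : ℝ)) z +
            bsum (fl fun x => (x : ℝ) ^ k + g.eval (x : ℝ)) b ≠ (N : ℝ)) →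
        c ≤ (∑ h ∈ Finset.range (p.u + 1),
          (‖M2 (K1 r) k p.n p.J p.M l r h (fun x => (x : ℝ) ^ k + g.eval (x : ℝ)) (N : ℝ)‖ /
              sz k p.n p.J p.M l r +
            ‖M2 (K2 r) k p.n p.J p.M l r h (fun x => (x : ℝ) ^ k + g.eval (x : ℝ)) (N : ℝ)‖ /
              sz k p.n p.J p.M l r)) +
          ‖M2 (K3 r) k p.n p.J p.M l r 1 (fl fun x => (x : ℝ) ^ k + g.eval (x : ℝ)) (N : ℝ)‖ /
            sz k p.n p.J p.M l r := by
  classical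
  have hk2 : 2 ≤ k := by have := p.hk; omega
  have hu := AsmF_u p
  have hs1 : (1 : ℝ) ≤ (p.s : ℝ) := by
    have : 1 ≤ p.s := by unfold Par.s; omega
    exact_mod_cast this
  obtain ⟨C, K1', K3', hC, hK1c, hK3m, hK1b, hK3b, hK3z, hker⟩ := kernF (k + 2) hs1
  have hPH : ∀ r : ℕ, XX r ≤ (XX r) ^ p.u := fun r => le_self_pow₀ (XX_one r) (by omega)
  obtain ⟨K2, hK2⟩ : ∃ K2 : ℕ → ℝ → ℂ, K2 = fun r θ => ((Real.exp (-(XX r * |θ|)) : ℝ) : ℂ) :=
    ⟨_, rfl⟩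
  have hK2c : ∀ r, Continuous (K2 r) := by
    intro r
    rw [hK2]
    exact Complex.continuous_ofReal.comp (Real.continuous_exp.comp
      ((continuous_const.mul continuous_abs).neg))
  have hK2n : ∀ r θ, ‖K2 r θ‖ = Real.exp (-(XX r * |θ|)) := by
    intro r θ
    rw [hK2]
    change ‖((Real.exp (-(XX r * |θ|)) : ℝ) : ℂ)‖ = _
    rw [Complex.norm_real, Real.norm_eq_abs, abs_of_pos (Real.exp_pos _)]
  have hK21 : ∀ r θ, ‖K2 r θ‖ ≤ 1 := by
    intro r θ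
    rw [hK2n, Real.exp_le_one_iff, neg_nonpos]
    exact mul_nonneg (zero_le_one.trans (XX_one r)) (abs_nonneg θ)
  have hK22 : ∀ r θ, |θ| ^ (k + 2) * ‖K2 r θ‖ ≤ ((k + 2).factorial : ℝ) := by
    intro r θ
    rw [hK2n]
    exact AsmF_exp_bound (k + 2) (XX_one r) θ
  obtain ⟨K1, hK1⟩ : ∃ K1 : ℕ → ℝ → ℂ, K1 = fun r => K1' ((XX r) ^ p.u) (XX r) := ⟨_, rfl⟩
  have hK1c' : ∀ r, Continuous (K1 r) := fun r => by rw [hK1]; exact hK1c _ _
  have hK1b' : ∀ r θ, ‖K1 r θ‖ ≤ C ∧ ‖K1 r θ‖ ≤ C * ((XX r) ^ p.u * |θ|) ∧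
      |θ| ^ (k + 2) * ‖K1 r θ‖ ≤ C := fun r θ => by
    rw [hK1]
    exact hK1b _ _ θ (XX_one r) (hPH r)
  have hP4 : ∀ᶠ r : ℕ in atTop, 4 ≤ XX r := XX_tendsto.eventually_ge_atTop 4
  refine ⟨max C 1, K1, K2, fun r => K3' (XX r), lt_of_lt_of_le one_pos (le_max_right _ _), hK1c',
    hK2c, fun r => hK3m _, fun r θ => ⟨(hK1b' r θ).1.trans (le_max_left _ _),
      (hK21 r θ).trans (le_max_right _ _), (hK3b _ θ (XX_one r)).trans (le_max_left _ _)⟩, ?_, ?_⟩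
  · filter_upwards [hP4] with r hr θ hθ
    exact hK3z (XX r) θ hr (Or.inr hθ)
  intro g hg hD
  obtain ⟨f, hf⟩ : ∃ f : ℕ → ℝ, f = fun x : ℕ => (x : ℝ) ^ k + g.eval (x : ℝ) := ⟨_, rfl⟩
  have hgood : Good k f := by rw [hf]; exact AsmF_good hk2 hg
  obtain ⟨c0, hc0, hmain⟩ := main_ct (L := p.L) (by have := p.hk; omega) p.hn1 p.hn p.hu
    (show 4 * p.J < k by have := p.hJk; omega)
    (show p.M ≤ k by
      have h1 := p.c7
      have h2 := p.hq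
      have h3 : p.M ≤ p.q * p.M := Nat.le_mul_of_pos_left _ (by omega)
      omega) hgood
  have hlow := low_freq hk2 p.hn p.hu p.J p.M hg hD K1 hK1c' (fun r θ => (hK1b' r θ).1)
    (fun r θ => (hK1b' r θ).2.1) (show 0 < c0 / 8 by positivity)
  have hlow2 := low_freq2 hk2 p.hn p.J p.M hg hD K2 hK2c hK21
  have htail := tail_freq k p.n p.J p.M K1 hK1c' (fun r θ => (hK1b' r θ).2.2)
    (show 0 < c0 / 8 by positivity)
  have htail2 := tail_freq k p.n p.J p.M K2 hK2c hK22 one_pos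
  rw [← hf] at hlow hlow2
  have hsz := sz_pos (k := k) (n := p.n) (J := p.J) (M := p.M) (L := p.L) hk2 p.hJk
  have hsmall : ∀ᶠ r : ℕ in atTop,
      C / XX r * (3 * (XX r) ^ ((1 : ℝ) / 4) + 1) ≤ c0 / 8 := by
    have h1 : Tendsto (fun P : ℝ => 3 * C * P ^ (-((3 : ℝ) / 4)) + C * P⁻¹) atTop
        (𝓝 (3 * C * 0 + C * 0)) :=
      ((tendsto_rpow_neg_atTop (by norm_num : (0 : ℝ) < 3 / 4)).const_mul _).add
        (tendsto_inv_atTop_zero.const_mul _)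
    have h2 : (3 * C * 0 + C * 0 : ℝ) = 0 := by ring
    rw [h2] at h1
    have h3 := (h1.comp XX_tendsto).eventually (gt_mem_nhds (show 0 < c0 / 8 by positivity))
    filter_upwards [h3] with r hr
    have hP : 0 < XX r := lt_of_lt_of_le one_pos (XX_one r)
    have e1 : (XX r) ^ ((1 : ℝ) / 4) / XX r = (XX r) ^ (-((3 : ℝ) / 4)) := by
      rw [← Real.rpow_sub_one hP.ne']
      norm_num
    have e2 : C / XX r * (3 * (XX r) ^ ((1 : ℝ) / 4) + 1) =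
        3 * C * ((XX r) ^ ((1 : ℝ) / 4) / XX r) + C * (XX r)⁻¹ := by
      field_simp
    rw [e2, e1]
    exact hr.le
  refine ⟨5 / 8 * c0 / (1 + C), by positivity, ?_⟩
  filter_upwards [hP4, hmain, hlow, hlow2, htail, htail2, hsz, hsmall] with r hr4 hmainr hlowr
    hlow2r htailr htail2r hszr hsmallr
  intro l hl N hN hne
  rw [← hf] at hne ⊢
  have hP : 0 < XX r := by linarith
  obtain ⟨hszl, -, -⟩ := hszr l hl
  have hY : 4 ^ k * (XX r) ^ k ≤ (N : ℝ) ∧ (N : ℝ) ≤ 8 ^ k * (XX r) ^ k := by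
    unfold NN at hN
    obtain ⟨h1, h2⟩ := Finset.mem_Icc.1 hN
    have h1' : (((4 * 2 ^ r) ^ k : ℕ) : ℝ) ≤ (N : ℝ) := by exact_mod_cast h1
    have h2' : (N : ℝ) ≤ (((8 * 2 ^ r) ^ k : ℕ) : ℝ) := by exact_mod_cast h2
    unfold XX
    push_cast at h1' h2'
    rw [mul_pow] at h1' h2'
    exact ⟨h1', h2'⟩
  have hm := hmainr l hl (N : ℝ) (by linarith [hY.1]) (by linarith [hY.2])
  obtain ⟨T, hT⟩ : ∃ T : Finset (Zt × (Fin p.J × Fin p.M → ℕ)),
    T = Zs k p.n r ×ˢ Bk k p.J p.M l r := ⟨_, rfl⟩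
  have hk1 := hker (Zt × (Fin p.J × Fin p.M → ℕ)) T (fun x => zsum f x.1 + bsum f x.2)
    (fun x => zsum (fl f) x.1 + bsum (fl f) x.2) (N : ℤ) ((XX r) ^ p.u) (XX r) hr4 (hPH r)
    (by
      intro x hx
      rw [hT] at hx
      obtain ⟨hz, hb⟩ := Finset.mem_product.1 hx
      refine ⟨((lets x.1 x.2).map fun x => ⌊f x⌋).sum, ?_, ?_⟩
      · intro hcon
        apply hne x.1 hz x.2 hb
        rw [← lets_sum, AsmF_list_int, hcon]
        simp
      · change zsum (fl f) x.1 + bsum (fl f) x.2 = _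
        rw [← lets_sum, AsmF_list_int])
    (by
      intro x hx
      rw [hT] at hx
      obtain ⟨hz, hb⟩ := Finset.mem_product.1 hx
      change |zsum f x.1 + bsum f x.2 - (zsum (fl f) x.1 + bsum (fl f) x.2)| ≤ _
      rw [← lets_sum, ← lets_sum]
      have h1 := AsmF_list f (lets x.1 x.2)
      rw [lets_length hz x.2] at h1
      rw [abs_of_nonneg h1.1]
      refine h1.2.trans (le_of_eq ?_)
      rfl)
  have hcount : c0 * sz k p.n p.J p.M l r ≤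
      ((open Classical in (T.filter fun i =>
        |(fun x : Zt × (Fin p.J × Fin p.M → ℕ) => zsum f x.1 + bsum f x.2) i - ((N : ℤ) : ℝ)| ≤
          (XX r) ^ p.u / 2).card : ℕ) : ℝ) / (XX r) ^ p.u := by
    rw [le_div_iff₀ (by positivity)]
    refine hm.trans (le_of_eq ?_)
    rw [hT]
    simp only [Int.cast_natCast]
  have hI1 := AsmF_dec k p.n p.J p.M l r p.u f (N : ℝ) (hK1c' r) (fun θ => (hK1b' r θ).1)
    (fun θ => (hK1b' r θ).2.2)
  have hI2 := AsmF_dec k p.n p.J p.M l r p.u f (N : ℝ) (hK2c r)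
    (C := max 1 ((k + 2).factorial : ℝ)) (fun θ => (hK21 r θ).trans (le_max_left _ _))
    (fun θ => (hK22 r θ).trans (le_max_right _ _))
  have hI3 : ‖∫ θ : ℝ, K3' (XX r) θ * ee (-(θ * ((N : ℤ) : ℝ))) *
        ∑ i ∈ T, ee (θ * (fun x : Zt × (Fin p.J × Fin p.M → ℕ) =>
          zsum (fl f) x.1 + bsum (fl f) x.2) i)‖ =
      ‖M2 (K3' (XX r)) k p.n p.J p.M l r 1 (fl f) (N : ℝ)‖ := by
    congr 1
    unfold M2
    have e1 : (fun θ : ℝ => K3' (XX r) θ * ee (-(θ * ((N : ℤ) : ℝ))) *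
        ∑ i ∈ T, ee (θ * (fun x : Zt × (Fin p.J × Fin p.M → ℕ) =>
          zsum (fl f) x.1 + bsum (fl f) x.2) i)) =
        fun θ : ℝ => K3' (XX r) θ * ee (-(θ * (N : ℝ))) * FZ k p.n r (fl f) θ *
          FB k p.J p.M l r (fl f) θ := by
      funext θ
      rw [hT]
      have := AsmF_prod k p.n p.J p.M l r (fl f) θ
      simp only [Int.cast_natCast]
      rw [this]
      ring
    rw [e1]
    refine (setIntegral_eq_integral_of_forall_compl_eq_zero ?_).symm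
    intro θ hθ
    have h1 : K3' (XX r) θ = 0 := by
      apply hK3z (XX r) θ hr4
      rcases le_or_gt |θ| (XX r)⁻¹ with h2 | h2
      · exact Or.inl h2
      · right
        by_contra h3
        apply hθ
        refine ⟨?_, ?_⟩
        · rw [pow_one]
          exact h2
        · rw [pow_one, div_self hP.ne']
          linarith [not_lt.1 h3]
    rw [h1]
    simp
  rw [hI3] at hk1
  have hI1' : ‖∫ θ : ℝ, K1' ((XX r) ^ p.u) (XX r) θ * ee (-(θ * ((N : ℤ) : ℝ))) *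
        ∑ i ∈ T, ee (θ * (fun x : Zt × (Fin p.J × Fin p.M → ℕ) =>
          zsum f x.1 + bsum f x.2) i)‖ ≤ c0 / 8 * sz k p.n p.J p.M l r +
      (∑ h ∈ Finset.range (p.u + 1), ‖M2 (K1 r) k p.n p.J p.M l r h f (N : ℝ)‖) +
      c0 / 8 * sz k p.n p.J p.M l r := by
    have e1 : ‖∫ θ : ℝ, K1' ((XX r) ^ p.u) (XX r) θ * ee (-(θ * ((N : ℤ) : ℝ))) *
        ∑ i ∈ T, ee (θ * (fun x : Zt × (Fin p.J × Fin p.M → ℕ) =>
          zsum f x.1 + bsum f x.2) i)‖ = ‖∫ θ : ℝ, K1 r θ * ee (-(θ * (N : ℝ))) *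
        ∑ x ∈ Zs k p.n r ×ˢ Bk k p.J p.M l r, ee (θ * (zsum f x.1 + bsum f x.2))‖ := by
      rw [hT, hK1]
      simp only [Int.cast_natCast]
    rw [e1]
    refine hI1.trans ?_
    exact add_le_add (add_le_add (hlowr l N) le_rfl) (htailr f l N)
  have hI2' : ‖∫ θ : ℝ, (Real.exp (-(XX r * |θ|)) : ℂ) * ee (-(θ * ((N : ℤ) : ℝ))) *
        ∑ i ∈ T, ee (θ * (fun x : Zt × (Fin p.J × Fin p.M → ℕ) =>
          zsum f x.1 + bsum f x.2) i)‖ ≤
      3 * (XX r) ^ ((1 : ℝ) / 4) * sz k p.n p.J p.M l r +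
      (∑ h ∈ Finset.range (p.u + 1), ‖M2 (K2 r) k p.n p.J p.M l r h f (N : ℝ)‖) +
      sz k p.n p.J p.M l r := by
    have e1 : ‖∫ θ : ℝ, (Real.exp (-(XX r * |θ|)) : ℂ) * ee (-(θ * ((N : ℤ) : ℝ))) *
        ∑ i ∈ T, ee (θ * (fun x : Zt × (Fin p.J × Fin p.M → ℕ) =>
          zsum f x.1 + bsum f x.2) i)‖ = ‖∫ θ : ℝ, K2 r θ * ee (-(θ * (N : ℝ))) *
        ∑ x ∈ Zs k p.n r ×ˢ Bk k p.J p.M l r, ee (θ * (zsum f x.1 + bsum f x.2))‖ := by
      rw [hT, hK2]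
      simp only [Int.cast_natCast]
    rw [e1]
    refine hI2.trans ?_
    have h1 := hlow2r l N
    have h2 := htail2r f l N
    rw [mul_one] at h1
    rw [one_mul] at h2
    exact add_le_add (add_le_add h1 le_rfl) h2
  have hk2 : c0 * sz k p.n p.J p.M l r ≤
      (c0 / 8 * sz k p.n p.J p.M l r +
      (∑ h ∈ Finset.range (p.u + 1), ‖M2 (K1 r) k p.n p.J p.M l r h f (N : ℝ)‖) +
      c0 / 8 * sz k p.n p.J p.M l r) +
      C * ‖M2 (K3' (XX r)) k p.n p.J p.M l r 1 (fl f) (N : ℝ)‖ +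
      C / XX r * (3 * (XX r) ^ ((1 : ℝ) / 4) * sz k p.n p.J p.M l r +
      (∑ h ∈ Finset.range (p.u + 1), ‖M2 (K2 r) k p.n p.J p.M l r h f (N : ℝ)‖) +
      sz k p.n p.J p.M l r) := by
    refine hcount.trans (hk1.trans ?_)
    exact add_le_add (add_le_add hI1' le_rfl)
      (mul_le_mul_of_nonneg_left hI2' (by positivity))
  rw [Finset.sum_add_distrib, ← Finset.sum_div, ← Finset.sum_div, ← add_div, ← add_div,
    le_div_iff₀ hszl]
  obtain ⟨S1, hS1⟩ : ∃ S1 : ℝ, S1 = ∑ h ∈ Finset.range (p.u + 1),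
    ‖M2 (K1 r) k p.n p.J p.M l r h f (N : ℝ)‖ := ⟨_, rfl⟩
  obtain ⟨S2, hS2⟩ : ∃ S2 : ℝ, S2 = ∑ h ∈ Finset.range (p.u + 1),
    ‖M2 (K2 r) k p.n p.J p.M l r h f (N : ℝ)‖ := ⟨_, rfl⟩
  obtain ⟨S3, hS3⟩ : ∃ S3 : ℝ, S3 = ‖M2 (K3' (XX r)) k p.n p.J p.M l r 1 (fl f) (N : ℝ)‖ :=
    ⟨_, rfl⟩
  have h10 : 0 ≤ S1 := by rw [hS1]; exact Finset.sum_nonneg fun _ _ => norm_nonneg _
  have h20 : 0 ≤ S2 := by rw [hS2]; exact Finset.sum_nonneg fun _ _ => norm_nonneg _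
  have h30 : 0 ≤ S3 := by rw [hS3]; exact norm_nonneg _
  rw [← hS1, ← hS2, ← hS3] at hk2
  rw [← hS1, ← hS2, ← hS3]
  generalize sz k p.n p.J p.M l r = z at *
  have hCP : C / XX r ≤ C := div_le_self hC.le (by linarith)
  have hCP0 : 0 ≤ C / XX r := by positivity
  have h5 : C / XX r * (3 * (XX r) ^ ((1 : ℝ) / 4) * z + S2 + z) ≤ c0 / 8 * z + C * S2 := by
    have e1 : C / XX r * (3 * (XX r) ^ ((1 : ℝ) / 4) * z + S2 + z) =
        C / XX r * (3 * (XX r) ^ ((1 : ℝ) / 4) + 1) * z + C / XX r * S2 := by ring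
    rw [e1]
    exact add_le_add (mul_le_mul_of_nonneg_right hsmallr hszl.le)
      (mul_le_mul_of_nonneg_right hCP h20)
  have h6 : 5 / 8 * c0 * z ≤ (1 + C) * (S1 + S2 + S3) := by
    have h7 : (1 + C) * (S1 + S2 + S3) = S1 + C * S2 + C * S3 + (C * S1 + S2 + S3) := by ring
    have h8 : 0 ≤ C * S1 := mul_nonneg hC.le h10
    rw [h7]
    linarith
  have h9 : 5 / 8 * c0 / (1 + C) * z = 5 / 8 * c0 * z / (1 + C) := by ring
  rw [h9, div_le_iff₀ (by positivity)]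
  linarith

end LWar
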