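import Pool.Agent.KWar.TestPoly

/-!
# LWar.DecLowW: `KWar.DecLow` with a weight for every bulk letter

`a l γ` the chain letters of the family `l` (weight `W l`), `b l p`, `b' l p` its bulk letters with
weights `ω l p`, `-ω' l p`; for the levels `< j` the letters agree and `ω l p - ω' l p = W l`.

PROOF. As `KWar.dec_low` (see `Pool/Agent/KWar/DecLow.lean`). Suppose that the conclusion fails for
`(l, p)`, `p.1 = j`.
Case 1, `b l p ≠ b' l p`: the proof of `dec_low` with weights at most `B` instead of `D P` for the levels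
`≥ j`.
Case 2, `b l p = b' l p` and `|ω l p - ω' l p| ≥ D`: the atom `inr (inl (l, p))` gets the weight
`ω l p - ω' l p` (target) and its partner `0`; zeros: all other atoms of the level `j`
(`n = 2qM - 2`), no partner, `Π' = ∏ zeros ≥ x0^n`. Left side `≥ D x_t^m 4^(-n) Π'`; atoms of the
levels `> j` and `E` contribute `≤ (E + 2qJM B ζ^m) 2^n Π'`, at most half of it by `hnum1`
(`x_t^m ≥ x0^(m-1)` because `x_t ≥ 1`); the chain letters and the atoms of the levels `< j` contribute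
`≤ q(#Γ + JM) Wm R^m (2R)^n`, less than half of it by `hnum2` (`R ≥ x0`, so
`R^(m+n) x0 ≤ R^(m+n+1)`, and `x_t^m Π' ≥ x0^(m+n)`).
-/

namespace LWar

open Finset KWar

/-- The numerical core with the estimates of the zeros as hypotheses. -/
private theorem DecLowW_core0 {ι κ : Type*} [Fintype ι] [DecidableEq ι]
    (ω x : ι → ℝ) (z : κ → ℝ) (K : Finset κ) (t : ι) (r : ℕ) (Q : ℝ)
    {E D A ζ x0 R Wm : ℝ} {N m : ℕ} (S1 S2 : Finset ι)
    (hE : 0 ≤ E) (hD : 0 < D) (hA : 0 ≤ A) (hζ : 1 ≤ ζ) (hx0 : 0 < x0) (hWm : 0 ≤ Wm) (hm : 1 ≤ m)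
    (hR0 : 0 ≤ R) (hN : m + K.card ≤ N)
    (h : ∀ m', m ≤ m' → m' ≤ N → |∑ i, ω i * x i ^ m'| ≤ E)
    (hx : ∀ i, 0 ≤ x i) (ht : x0 ≤ x t) (hωt : D ≤ |ω t|)
    (hQ0 : 0 < Q) (hQx : x0 ^ r ≤ Q)
    (hL1 : (1 / 4 : ℝ) ^ r * Q ≤ |∏ k ∈ K, (x t - z k)|)
    (hE1 : ∏ k ∈ K, (1 + |z k|) ≤ 2 ^ (r + 1) * (2 * x t * Q))
    (hP1 : ∀ i, x i ≤ ζ → |∏ k ∈ K, (x i - z k)| ≤ 2 * x t * Q)
    (hP2 : ∀ i, x i ≤ R → |∏ k ∈ K, (x i - z k)| ≤ R ^ (r + 1))
    (hi : ∀ i, i ≠ t → (ω i = 0 ∨ ∃ k ∈ K, x i = z k) ∨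
      (i ∈ S1 ∧ x i ≤ ζ ∧ |ω i| ≤ A) ∨ (i ∈ S2 ∧ x i ≤ R ∧ |ω i| ≤ Wm))
    (hnum1 : 4 * 8 ^ (r + 2) * (E + (S1.card : ℝ) * A * ζ ^ m) ≤ D * x0 ^ (m - 1))
    (hnum2 : 2 * 8 ^ (r + 2) * ((S2.card : ℝ) * Wm) * R ^ (m + (r + 1)) <
      D * x0 ^ (m + r)) : False := by
  have hT := test_target (Finset.univ : Finset ι) ω x z K (m := m) (N := N) (E := E)
    hN h (t := t) (Finset.mem_univ t)
  have hxt : 0 < x t := lt_of_lt_of_le hx0 ht
  -- left side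
  have hL : D * (x t ^ m * ((1 / 4) ^ r * Q)) ≤
      |ω t| * |x t ^ m * ∏ k ∈ K, (x t - z k)| := by
    rw [abs_mul, abs_of_nonneg (pow_nonneg hxt.le m)]
    refine mul_le_mul hωt (mul_le_mul_of_nonneg_left hL1 (pow_nonneg hxt.le m)) (by positivity)
      (abs_nonneg _)
  -- the other atoms
  have hB1 : ∀ i, x i ≤ ζ → |x i ^ m * ∏ k ∈ K, (x i - z k)| ≤
      ζ ^ m * (2 * x t * Q) := by
    intro i hix
    rw [abs_mul, abs_of_nonneg (pow_nonneg (hx i) m)]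
    exact mul_le_mul (pow_le_pow_left₀ (hx i) hix m) (hP1 i hix) (abs_nonneg _) (by positivity)
  have hB2 : ∀ i, x i ≤ R → |x i ^ m * ∏ k ∈ K, (x i - z k)| ≤ R ^ (m + (r + 1)) := by
    intro i hix
    rw [abs_mul, abs_of_nonneg (pow_nonneg (hx i) m), pow_add]
    exact mul_le_mul (pow_le_pow_left₀ (hx i) hix m) (hP2 i hix) (abs_nonneg _) (by positivity)
  set V1 : ℝ := A * (ζ ^ m * (2 * x t * Q)) with hV1
  set V2 : ℝ := Wm * R ^ (m + (r + 1)) with hV2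
  have hV1n : 0 ≤ V1 := by positivity
  have hV2n : 0 ≤ V2 := by positivity
  have hS : ∑ i ∈ Finset.univ.erase t, |ω i| * |x i ^ m * ∏ k ∈ K, (x i - z k)| ≤
      (S1.card : ℝ) * V1 + (S2.card : ℝ) * V2 := by
    have h1 : ∑ i ∈ Finset.univ.erase t, |ω i| * |x i ^ m * ∏ k ∈ K, (x i - z k)| ≤
        ∑ i ∈ Finset.univ.erase t, ((if i ∈ S1 then V1 else 0) + (if i ∈ S2 then V2 else 0)) := by
      refine Finset.sum_le_sum fun i hi' => ?_
      have hit : i ≠ t := (Finset.mem_erase.1 hi').1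
      have p1 : 0 ≤ (if i ∈ S1 then V1 else 0) := by split_ifs <;> simp [hV1n]
      have p2 : 0 ≤ (if i ∈ S2 then V2 else 0) := by split_ifs <;> simp [hV2n]
      rcases hi i hit with (h0 | ⟨k, hk, hxz⟩) | ⟨hS1, hxi, hωi⟩ | ⟨hS2, hxi, hωi⟩
      · rw [h0]
        simp only [abs_zero, zero_mul]
        exact add_nonneg p1 p2
      · rw [Finset.prod_eq_zero hk (sub_eq_zero.2 hxz)]
        simp only [mul_zero, abs_zero]
        exact add_nonneg p1 p2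
      · rw [if_pos hS1]
        have := mul_le_mul hωi (hB1 i hxi) (abs_nonneg _) hA
        linarith
      · rw [if_pos hS2]
        have := mul_le_mul hωi (hB2 i hxi) (abs_nonneg _) hWm
        linarith
    refine h1.trans ?_
    refine (Finset.sum_le_sum_of_subset_of_nonneg (Finset.erase_subset _ _)
      (fun i _ _ => ?_)).trans (le_of_eq ?_)
    · have p1 : 0 ≤ (if i ∈ S1 then V1 else 0) := by split_ifs <;> simp [hV1n]
      have p2 : 0 ≤ (if i ∈ S2 then V2 else 0) := by split_ifs <;> simp [hV2n]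
      exact add_nonneg p1 p2
    · rw [Finset.sum_add_distrib, Finset.sum_ite_mem, Finset.sum_ite_mem, Finset.univ_inter,
        Finset.univ_inter, Finset.sum_const, Finset.sum_const, nsmul_eq_mul, nsmul_eq_mul]
  -- the numbers
  have hEt : E * ∏ k ∈ K, (1 + |z k|) ≤ E * (2 ^ (r + 1) * (2 * x t * Q)) :=
    mul_le_mul_of_nonneg_left hE1 hE
  have hmain : D * (x t ^ m * ((1 / 4) ^ r * Q)) ≤
      E * (2 ^ (r + 1) * (2 * x t * Q)) + ((S1.card : ℝ) * V1 + (S2.card : ℝ) * V2) := by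
    linarith
  obtain ⟨m0, rfl⟩ : ∃ m0, m = m0 + 1 := ⟨m - 1, by omega⟩
  simp only [Nat.add_sub_cancel] at hnum1
  have hx0m : x0 ^ m0 ≤ x t ^ m0 := pow_le_pow_left₀ hx0.le ht m0
  have hx0m1 : x0 ^ (m0 + 1) ≤ x t ^ (m0 + 1) := pow_le_pow_left₀ hx0.le ht _
  -- second and third item
  have hI : E * (2 ^ (r + 1) * (2 * x t * Q)) + (S1.card : ℝ) * V1 ≤
      (1 / 2) * (D * (x t ^ (m0 + 1) * ((1 / 4) ^ r * Q))) := by
    have h1 : (1 : ℝ) ≤ 2 ^ (r + 1) := one_le_pow₀ (by norm_num)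
    have h2 : E * (2 ^ (r + 1) * (2 * x t * Q)) + (S1.card : ℝ) * V1 ≤
        (2 ^ (r + 1) * (2 * x t * Q)) * (E + (S1.card : ℝ) * A * ζ ^ (m0 + 1)) := by
      have h3 : 0 ≤ (S1.card : ℝ) * V1 := by positivity
      have h4 : (S1.card : ℝ) * V1 ≤ 2 ^ (r + 1) * ((S1.card : ℝ) * V1) :=
        le_mul_of_one_le_left h3 h1
      have h5 : 2 ^ (r + 1) * ((S1.card : ℝ) * V1) =
        (2 ^ (r + 1) * (2 * x t * Q)) * ((S1.card : ℝ) * A * ζ ^ (m0 + 1)) := by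
        rw [hV1]; ring
      nlinarith
    refine h2.trans ?_
    have h6 : E + (S1.card : ℝ) * A * ζ ^ (m0 + 1) ≤ D * x t ^ m0 / (4 * 8 ^ (r + 2)) := by
      rw [le_div_iff₀ (by positivity)]
      have h7 : D * x0 ^ m0 ≤ D * x t ^ m0 := mul_le_mul_of_nonneg_left hx0m hD.le
      linarith
    refine (mul_le_mul_of_nonneg_left h6 (by positivity)).trans ?_
    have h8 : (2 : ℝ) ^ (r + 1) * (2 * x t * Q) * (D * x t ^ m0 / (4 * 8 ^ (r + 2))) =
      (1 / 64) * ((2 / 8) ^ r) * (D * (x t ^ (m0 + 1) * Q)) := by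
      rw [div_pow]
      field_simp
      ring
    rw [h8]
    have h9 : (0 : ℝ) ≤ (1 / 4) ^ r * (D * (x t ^ (m0 + 1) * Q)) := by positivity
    have h10 : (2 / 8 : ℝ) = 1 / 4 := by norm_num
    rw [h10]
    nlinarith
  -- last item
  have hII : (S2.card : ℝ) * V2 < (1 / 2) * (D * (x t ^ (m0 + 1) * ((1 / 4) ^ r * Q))) := by
    have h1 : (S2.card : ℝ) * V2 < D * x0 ^ (m0 + 1 + r) / (2 * 8 ^ (r + 2)) := by
      rw [lt_div_iff₀ (by positivity)]
      have : (S2.card : ℝ) * V2 * (2 * 8 ^ (r + 2)) =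
        2 * 8 ^ (r + 2) * ((S2.card : ℝ) * Wm) * R ^ (m0 + 1 + (r + 1)) := by rw [hV2]; ring
      rw [this]
      exact hnum2
    refine h1.trans_le ?_
    have h2 : D * x0 ^ (m0 + 1 + r) ≤ D * (x t ^ (m0 + 1) * Q) := by
      rw [pow_add]
      exact mul_le_mul_of_nonneg_left (mul_le_mul hx0m1 hQx (by positivity) (by positivity)) hD.le
    have h3 : (4 : ℝ) ^ r ≤ 8 ^ (r + 2) :=
      (pow_le_pow_left₀ (by norm_num) (by norm_num) r).trans
        (pow_le_pow_right₀ (by norm_num) (by omega))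
    have h4 : (0 : ℝ) ≤ D * (x t ^ (m0 + 1) * Q) := by positivity
    rw [div_le_iff₀ (by positivity)]
    have h5 : (1 : ℝ) ≤ (1 / 4) ^ r * 8 ^ (r + 2) := by
      rw [one_div_pow, one_div_mul_eq_div, one_le_div (by positivity)]
      exact h3
    have h6 : D * (x t ^ (m0 + 1) * Q) ≤ D * (x t ^ (m0 + 1) * Q) * ((1 / 4) ^ r * 8 ^ (r + 2)) :=
      le_mul_of_one_le_right h4 h5
    calc D * x0 ^ (m0 + 1 + r) ≤ D * (x t ^ (m0 + 1) * Q) := h2
      _ ≤ D * (x t ^ (m0 + 1) * Q) * ((1 / 4) ^ r * 8 ^ (r + 2)) := h6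
      _ = _ := by ring
  linarith

/-- The core with a partner. -/
private theorem DecLowW_core {ι κ : Type*} [Fintype ι] [DecidableEq ι] [DecidableEq κ]
    (ω x : ι → ℝ) (z : κ → ℝ) (K : Finset κ) (k0 : κ) (hk0 : k0 ∉ K) (t : ι)
    {E D A ζ x0 R Wm : ℝ} {N m : ℕ} (S1 S2 : Finset ι)
    (hE : 0 ≤ E) (hD : 0 < D) (hA : 0 ≤ A) (hζ : 1 ≤ ζ) (hx0 : 0 < x0) (hWm : 0 ≤ Wm) (hm : 1 ≤ m)
    (hN : m + (K.card + 1) ≤ N)
    (h : ∀ m', m ≤ m' → m' ≤ N → |∑ i, ω i * x i ^ m'| ≤ E)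
    (hx : ∀ i, 0 ≤ x i) (ht : x0 ≤ x t) (hωt : D ≤ |ω t|)
    (hz : ∀ k ∈ insert k0 K, ζ ≤ z k ∧ z k ≤ R)
    (hz0 : ∀ k ∈ K, x0 ≤ z k)
    (hs : ∀ k ∈ K, z k / 4 ≤ |x t - z k|)
    (hs0 : 1 ≤ |x t - z k0|) (hp0 : z k0 ≤ 2 * x t)
    (hi : ∀ i, i ≠ t → (ω i = 0 ∨ ∃ k ∈ insert k0 K, x i = z k) ∨
      (i ∈ S1 ∧ x i ≤ ζ ∧ |ω i| ≤ A) ∨ (i ∈ S2 ∧ x i ≤ R ∧ |ω i| ≤ Wm))
    (hnum1 : 4 * 8 ^ (K.card + 2) * (E + (S1.card : ℝ) * A * ζ ^ m) ≤ D * x0 ^ (m - 1))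
    (hnum2 : 2 * 8 ^ (K.card + 2) * ((S2.card : ℝ) * Wm) * R ^ (m + (K.card + 1)) <
      D * x0 ^ (m + K.card)) : False := by
  have hcK : (insert k0 K).card = K.card + 1 := Finset.card_insert_of_notMem hk0
  have hzk : ∀ k ∈ K, 1 ≤ z k := fun k hk => hζ.trans (hz k (Finset.mem_insert_of_mem hk)).1
  have hz00 : 1 ≤ z k0 := hζ.trans (hz k0 (Finset.mem_insert_self _ _)).1
  have hR1 : 1 ≤ R := hz00.trans (hz k0 (Finset.mem_insert_self _ _)).2
  have hxt : 0 < x t := lt_of_lt_of_le hx0 ht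
  refine DecLowW_core0 ω x z (insert k0 K) t K.card (∏ k ∈ K, z k) S1 S2 hE hD hA hζ hx0 hWm hm
    (by linarith) (by rw [hcK]; exact hN) h hx ht hωt ?_ ?_ ?_ ?_ ?_ ?_ hi hnum1 hnum2
  · exact Finset.prod_pos fun k hk => lt_of_lt_of_le one_pos (hzk k hk)
  · rw [← Finset.prod_const]
    exact Finset.prod_le_prod (fun _ _ => hx0.le) hz0
  · rw [Finset.prod_insert hk0, abs_mul, Finset.abs_prod]
    have h2 : (1 / 4 : ℝ) ^ K.card * (∏ k ∈ K, z k) ≤ ∏ k ∈ K, |x t - z k| := by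
      rw [← Finset.prod_const, ← Finset.prod_mul_distrib]
      refine Finset.prod_le_prod (fun k hk => ?_) (fun k hk => ?_)
      · have := hzk k hk; positivity
      · have := hs k hk; linarith
    have h3 : 0 ≤ ∏ k ∈ K, |x t - z k| := Finset.prod_nonneg fun _ _ => abs_nonneg _
    calc (1 / 4 : ℝ) ^ K.card * (∏ k ∈ K, z k) ≤ 1 * ∏ k ∈ K, |x t - z k| := by
          rw [one_mul]; exact h2
      _ ≤ _ := mul_le_mul_of_nonneg_right hs0 h3
  · rw [Finset.prod_insert hk0]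
    have h1 : ∏ k ∈ K, (1 + |z k|) ≤ 2 ^ K.card * (∏ k ∈ K, z k) := by
      rw [← Finset.prod_const, ← Finset.prod_mul_distrib]
      refine Finset.prod_le_prod (fun k _ => by positivity) (fun k hk => ?_)
      have := hzk k hk
      rw [abs_of_nonneg (by linarith)]
      linarith
    have h2 : 1 + |z k0| ≤ 2 * (2 * x t) := by
      rw [abs_of_nonneg (by linarith)]
      linarith
    calc (1 + |z k0|) * ∏ k ∈ K, (1 + |z k|) ≤ (2 * (2 * x t)) * (2 ^ K.card * (∏ k ∈ K, z k)) :=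
          mul_le_mul h2 h1 (Finset.prod_nonneg fun _ _ => by positivity) (by positivity)
      _ = _ := by ring
  · intro i hix
    rw [Finset.abs_prod, Finset.prod_insert hk0]
    have hk : ∀ k ∈ insert k0 K, |x i - z k| ≤ z k := by
      intro k hk
      have h1 := (hz k hk).1
      have h2 := hx i
      rw [abs_sub_comm, abs_of_nonneg (by linarith)]
      linarith
    refine mul_le_mul ((hk k0 (Finset.mem_insert_self _ _)).trans hp0) ?_
      (Finset.prod_nonneg fun _ _ => abs_nonneg _) (by positivity)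
    exact Finset.prod_le_prod (fun _ _ => abs_nonneg _)
      (fun k hk' => hk k (Finset.mem_insert_of_mem hk'))
  · intro i hix
    rw [Finset.abs_prod, ← hcK, ← Finset.prod_const]
    refine Finset.prod_le_prod (fun _ _ => abs_nonneg _) (fun k hk => ?_)
    have h1 := hz k hk
    have h2 := hx i
    rw [abs_le]
    constructor <;> linarith

/-- The core without a partner. -/
private theorem DecLowW_core2 {ι κ : Type*} [Fintype ι] [DecidableEq ι]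
    (ω x : ι → ℝ) (z : κ → ℝ) (K : Finset κ) (t : ι)
    {E D A ζ x0 R Wm : ℝ} {N m : ℕ} (S1 S2 : Finset ι)
    (hE : 0 ≤ E) (hD : 0 < D) (hA : 0 ≤ A) (hζ : 1 ≤ ζ) (hx0 : 0 < x0) (hWm : 0 ≤ Wm) (hm : 1 ≤ m)
    (hN : m + K.card ≤ N)
    (h : ∀ m', m ≤ m' → m' ≤ N → |∑ i, ω i * x i ^ m'| ≤ E)
    (hx : ∀ i, 0 ≤ x i) (ht : x0 ≤ x t) (htζ : ζ ≤ x t) (htR : x t ≤ R) (hωt : D ≤ |ω t|)
    (hz : ∀ k ∈ K, ζ ≤ z k ∧ z k ≤ R)
    (hz0 : ∀ k ∈ K, x0 ≤ z k)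
    (hs : ∀ k ∈ K, z k / 4 ≤ |x t - z k|)
    (hi : ∀ i, i ≠ t → (ω i = 0 ∨ ∃ k ∈ K, x i = z k) ∨
      (i ∈ S1 ∧ x i ≤ ζ ∧ |ω i| ≤ A) ∨ (i ∈ S2 ∧ x i ≤ R ∧ |ω i| ≤ Wm))
    (hnum1 : 4 * 8 ^ (K.card + 2) * (E + (S1.card : ℝ) * A * ζ ^ m) ≤ D * x0 ^ (m - 1))
    (hnum2 : 2 * 8 ^ (K.card + 2) * ((S2.card : ℝ) * Wm) * R ^ (m + (K.card + 1)) <
      D * x0 ^ (m + K.card)) : False := by
  have hzk : ∀ k ∈ K, 1 ≤ z k := fun k hk => hζ.trans (hz k hk).1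
  have hxt : 1 ≤ x t := hζ.trans htζ
  have hR1 : 1 ≤ R := hxt.trans htR
  have hQ0 : 0 < ∏ k ∈ K, z k := Finset.prod_pos fun k hk => lt_of_lt_of_le one_pos (hzk k hk)
  have hQ2 : ∏ k ∈ K, z k ≤ 2 * x t * ∏ k ∈ K, z k := le_mul_of_one_le_left hQ0.le (by linarith)
  refine DecLowW_core0 ω x z K t K.card (∏ k ∈ K, z k) S1 S2 hE hD hA hζ hx0 hWm hm
    (by linarith) hN h hx ht hωt hQ0 ?_ ?_ ?_ ?_ ?_ hi hnum1 hnum2
  · rw [← Finset.prod_const]
    exact Finset.prod_le_prod (fun _ _ => hx0.le) hz0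
  · rw [Finset.abs_prod, ← Finset.prod_const, ← Finset.prod_mul_distrib]
    refine Finset.prod_le_prod (fun k hk => ?_) (fun k hk => ?_)
    · have := hzk k hk; positivity
    · have := hs k hk; linarith
  · have h1 : ∏ k ∈ K, (1 + |z k|) ≤ 2 ^ K.card * (∏ k ∈ K, z k) := by
      rw [← Finset.prod_const, ← Finset.prod_mul_distrib]
      refine Finset.prod_le_prod (fun k _ => by positivity) (fun k hk => ?_)
      have := hzk k hk
      rw [abs_of_nonneg (by linarith)]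
      linarith
    refine h1.trans (mul_le_mul (pow_le_pow_right₀ (by norm_num) (by omega)) hQ2 hQ0.le
      (by positivity))
  · intro i hix
    rw [Finset.abs_prod]
    refine le_trans ?_ hQ2
    refine Finset.prod_le_prod (fun _ _ => abs_nonneg _) (fun k hk => ?_)
    have h1 := (hz k hk).1
    have h2 := hx i
    rw [abs_sub_comm, abs_of_nonneg (by linarith)]
    linarith
  · intro i hix
    rw [Finset.abs_prod]
    refine le_trans ?_ (pow_le_pow_right₀ hR1 (Nat.le_succ K.card))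
    rw [← Finset.prod_const]
    refine Finset.prod_le_prod (fun _ _ => abs_nonneg _) (fun k hk => ?_)
    have h1 := hz k hk
    have h2 := hx i
    rw [abs_le]
    constructor <;> linarith

/-- The atoms of the level `j`. -/
private theorem DecLowW_level (q J M j : ℕ) (hj : j < J) :
    ∃ L : Finset (Fin q × (Fin J × Fin M)), (∀ u, u ∈ L ↔ (u.2.1 : ℕ) = j) ∧ L.card = q * M := by
  refine ⟨(Finset.univ : Finset (Fin q)) ×ˢ
    (({⟨j, hj⟩} : Finset (Fin J)) ×ˢ (Finset.univ : Finset (Fin M))), fun u => ?_, ?_⟩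
  · simp only [Finset.mem_product, Finset.mem_univ, true_and, and_true, Finset.mem_singleton]
    constructor
    · intro h; rw [h]
    · intro h; exact Fin.ext h
  · rw [Finset.card_product, Finset.card_product]
    simp

theorem dec_lowW {Γ : Type} [Fintype Γ] [DecidableEq Γ] {q J M : ℕ}
    {m N j : ℕ} {E D B ζ x0 R Wm : ℝ} (a : Fin q → Γ → ℕ) (b b' : Fin q → Fin J × Fin M → ℕ)
    (W : Fin q → ℝ) (ω ω' : Fin q → Fin J × Fin M → ℝ) (hE : 0 ≤ E) (hD : 0 < D) (hDB : D ≤ B)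
    (hζ : 1 ≤ ζ) (hx0 : 0 < x0) (hWm : 0 ≤ Wm) (hm : 1 ≤ m) (hq : 1 ≤ q) (hM : 1 ≤ M)
    (hrel : ∀ m', m ≤ m' → m' ≤ N → |∑ l, (W l * (∑ γ, (a l γ : ℝ) ^ m') +
      ∑ p, (ω l p * (b l p : ℝ) ^ m' - ω' l p * (b' l p : ℝ) ^ m'))| ≤ E)
    (hcard : m + 2 * q * M ≤ N + 1) (hj : j < J)
    (hbb : ∀ l p, (p.1 : ℕ) < j → b l p = b' l p)
    (hWω : ∀ l p, (p.1 : ℕ) < j → ω l p - ω' l p = W l)
    (hsb : ∀ l p l' p', (p.1 : ℕ) = j → (p'.1 : ℕ) = j → (l, p) ≠ (l', p') →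
      (b l' p' : ℝ) / 4 ≤ |(b l p : ℝ) - (b l' p' : ℝ)| ∧
      (b' l' p' : ℝ) / 4 ≤ |(b l p : ℝ) - (b' l' p' : ℝ)|)
    (hpart : ∀ l p, (p.1 : ℕ) = j → (b' l p : ℝ) ≤ 2 * (b l p : ℝ))
    (hxb : ∀ l p, (p.1 : ℕ) = j → x0 ≤ (b l p : ℝ) ∧ x0 ≤ (b' l p : ℝ) ∧ ζ ≤ (b l p : ℝ) ∧
      ζ ≤ (b' l p : ℝ))
    (hbζ : ∀ l p, j < (p.1 : ℕ) → (b l p : ℝ) ≤ ζ ∧ (b' l p : ℝ) ≤ ζ)
    (haR : ∀ l γ, (a l γ : ℝ) ≤ R) (hbR : ∀ l p, (b l p : ℝ) ≤ R ∧ (b' l p : ℝ) ≤ R)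
    (hω : ∀ l p, D ≤ |ω l p| ∧ |ω l p| ≤ B ∧ |ω' l p| ≤ B)
    (hW : ∀ l, |W l| ≤ Wm)
    (hnum1 : 4 * 8 ^ (2 * q * M) * (E + ((2 * q * J * M : ℕ) : ℝ) * B * ζ ^ m) ≤
      D * x0 ^ (m - 1))
    (hnum2 : 2 * 8 ^ (2 * q * M) * (((q * (Fintype.card Γ + J * M) : ℕ) : ℝ) * Wm) *
      R ^ (m + (2 * q * M - 1)) < D * x0 ^ (m + (2 * q * M - 2))) :
    ∀ l p, (p.1 : ℕ) = j → b l p = b' l p ∧ |ω l p - ω' l p| < D := by
  classical
  intro l0 p0 hp0
  have hBn : 0 ≤ B := hD.le.trans hDB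
  let T : Type := Fin q × (Fin J × Fin M)
  let u0 : T := (l0, p0)
  obtain ⟨L, hL, hLc⟩ : ∃ L : Finset T, (∀ u : T, u ∈ L ↔ (u.2.1 : ℕ) = j) ∧ L.card = q * M :=
    DecLowW_level q J M j hj
  have hu0 : u0 ∈ L := (hL u0).2 hp0
  have hqM : 1 ≤ q * M := Nat.one_le_iff_ne_zero.2 (by positivity)
  let K : Finset (T ⊕ T) := (L.erase u0).disjSum (L.erase u0)
  have hKc : K.card = 2 * (q * M - 1) := by
    simp only [K, Finset.card_disjSum, Finset.card_erase_of_mem hu0, hLc]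
    omega
  have hKc2 : K.card + 2 = 2 * q * M := by
    rw [hKc, Nat.mul_assoc]; omega
  have hKc1 : K.card + 1 = 2 * q * M - 1 := by omega
  have hKc0 : K.card = 2 * q * M - 2 := by omega
  let z : T ⊕ T → ℝ := Sum.elim (fun u => (b u.1 u.2 : ℝ)) (fun u => (b' u.1 u.2 : ℝ))
  let x : (Fin q × Γ) ⊕ (T ⊕ T) → ℝ := Sum.elim (fun u => (a u.1 u.2 : ℝ)) z
  have hKmem : ∀ v : T, (Sum.inl v ∈ K ↔ v ≠ u0 ∧ (v.2.1 : ℕ) = j) ∧
      (Sum.inr v ∈ K ↔ v ≠ u0 ∧ (v.2.1 : ℕ) = j) := by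
    intro v
    simp only [K, Finset.inl_mem_disjSum, Finset.inr_mem_disjSum, Finset.mem_erase, hL, and_self]
  have hk0 : Sum.inr u0 ∉ K := by
    rw [(hKmem u0).2]
    exact fun h => h.1 rfl
  have hlev : ∀ k ∈ insert (Sum.inr u0) K, (∃ v : T, (v.2.1 : ℕ) = j ∧ v ≠ u0 ∧ k = Sum.inl v) ∨
      (∃ v : T, (v.2.1 : ℕ) = j ∧ k = Sum.inr v) := by
    intro k hk
    rcases Finset.mem_insert.1 hk with rfl | hk
    · exact Or.inr ⟨u0, hp0, rfl⟩
    · rcases k with v | v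
      · exact Or.inl ⟨v, ((hKmem v).1.1 hk).2, ((hKmem v).1.1 hk).1, rfl⟩
      · exact Or.inr ⟨v, ((hKmem v).2.1 hk).2, rfl⟩
  let S1 : Finset ((Fin q × Γ) ⊕ (T ⊕ T)) := (∅ : Finset (Fin q × Γ)).disjSum Finset.univ
  let S2 : Finset ((Fin q × Γ) ⊕ (T ⊕ T)) :=
    (Finset.univ : Finset (Fin q × Γ)).disjSum ((Finset.univ : Finset T).disjSum ∅)
  have hS1c : S1.card = 2 * q * J * M := by
    simp only [S1, Finset.card_disjSum, Finset.card_empty, Finset.card_univ, Fintype.card_sum, T,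
      Fintype.card_prod, Fintype.card_fin]
    ring
  have hS2c : S2.card = q * (Fintype.card Γ + J * M) := by
    simp only [S2, Finset.card_disjSum, Finset.card_empty, Finset.card_univ, T,
      Fintype.card_prod, Fintype.card_fin]
    ring
  have hxn : ∀ i, 0 ≤ x i := by
    rintro (i | i | i) <;> simp [x, z]
  have hzb : ∀ k ∈ insert (Sum.inr u0) K, ζ ≤ z k ∧ z k ≤ R := by
    intro k hk
    rcases hlev k hk with ⟨v, hv, _, rfl⟩ | ⟨v, hv, rfl⟩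
    · exact ⟨(hxb v.1 v.2 hv).2.2.1, (hbR v.1 v.2).1⟩
    · exact ⟨(hxb v.1 v.2 hv).2.2.2, (hbR v.1 v.2).2⟩
  have hzx : ∀ k ∈ K, x0 ≤ z k := by
    intro k hk
    rcases hlev k (Finset.mem_insert_of_mem hk) with ⟨v, hv, _, rfl⟩ | ⟨v, hv, rfl⟩
    · exact (hxb v.1 v.2 hv).1
    · exact (hxb v.1 v.2 hv).2.1
  have hsep : ∀ k ∈ K, z k / 4 ≤ |x (Sum.inr (Sum.inl u0)) - z k| := by
    rintro (v | v) hk
    · have hv := (hKmem v).1.1 hk
      exact (hsb l0 p0 v.1 v.2 hp0 hv.2 (fun h => hv.1 h.symm)).1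
    · have hv := (hKmem v).2.1 hk
      exact (hsb l0 p0 v.1 v.2 hp0 hv.2 (fun h => hv.1 h.symm)).2
  have hn1 : 4 * 8 ^ (K.card + 2) * (E + (S1.card : ℝ) * B * ζ ^ m) ≤ D * x0 ^ (m - 1) := by
    rw [hKc2, hS1c]
    exact hnum1
  have hn2 : 2 * 8 ^ (K.card + 2) * ((S2.card : ℝ) * Wm) * R ^ (m + (K.card + 1)) <
      D * x0 ^ (m + K.card) := by
    rw [hKc2, hS2c, hKc1, hKc0]
    exact hnum2
  have hju : ¬ ((p0.1 : ℕ) < j) := by omega
  have hc1 : b l0 p0 = b' l0 p0 := by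
    by_contra hne
    let w : (Fin q × Γ) ⊕ (T ⊕ T) → ℝ := Sum.elim (fun u => W u.1)
      (Sum.elim (fun u => if (u.2.1 : ℕ) < j then W u.1 else ω u.1 u.2)
        (fun u => if (u.2.1 : ℕ) < j then 0 else - ω' u.1 u.2))
    refine DecLowW_core w x z K (Sum.inr u0) hk0 (Sum.inr (Sum.inl u0)) (E := E) (D := D)
      (A := B) (ζ := ζ) (x0 := x0) (R := R) (Wm := Wm) (N := N) (m := m) S1 S2
      hE hD hBn hζ hx0 hWm hm (by omega) ?_ hxn (hxb l0 p0 hp0).1 ?_ hzb hzx hsep ?_ ?_ ?_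
      hn1 hn2
    · -- the relation
      intro m' h1 h2
      have h3 := hrel m' h1 h2
      have e : ∑ i, w i * x i ^ m' = ∑ l, (W l * (∑ γ, (a l γ : ℝ) ^ m') +
          ∑ p, (ω l p * (b l p : ℝ) ^ m' - ω' l p * (b' l p : ℝ) ^ m')) := by
        rw [Fintype.sum_sum_type, Fintype.sum_sum_type, ← Finset.sum_add_distrib]
        simp only [w, x, z, Sum.elim_inl, Sum.elim_inr]
        rw [Fintype.sum_prod_type, Fintype.sum_prod_type, ← Finset.sum_add_distrib]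
        refine Finset.sum_congr rfl fun l _ => ?_
        simp only [Finset.mul_sum]
        congr 1
        refine Finset.sum_congr rfl fun p _ => ?_
        by_cases hlt : (p.1 : ℕ) < j
        · rw [if_pos hlt, if_pos hlt, hbb l p hlt, ← hWω l p hlt]
          ring
        · rw [if_neg hlt, if_neg hlt]
          ring
      rw [e]
      exact h3
    · -- weight of the target
      show D ≤ |w (Sum.inr (Sum.inl (l0, p0)))|
      simp only [w, Sum.elim_inr, Sum.elim_inl, if_neg hju]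
      exact (hω l0 p0).1
    · -- distance to the partner
      show (1 : ℝ) ≤ |(b l0 p0 : ℝ) - (b' l0 p0 : ℝ)|
      have h1 : ((b l0 p0 : ℤ) - (b' l0 p0 : ℤ)) ≠ 0 := by
        intro h
        apply hne
        exact_mod_cast sub_eq_zero.1 h
      have h2 := Int.one_le_abs h1
      exact_mod_cast h2
    · exact hpart l0 p0 hp0
    · -- the classes of atoms
      rintro (⟨l, γ⟩ | ⟨l, p⟩ | ⟨l, p⟩) hit
      · exact Or.inr (Or.inr ⟨by simp [S2], haR l γ, hW l⟩)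
      · rcases lt_trichotomy (p.1 : ℕ) j with hlt | heq | hgt
        · refine Or.inr (Or.inr ⟨by simp [S2], (hbR l p).1, ?_⟩)
          simp only [w, Sum.elim_inr, Sum.elim_inl, if_pos hlt]
          exact hW l
        · refine Or.inl (Or.inr ⟨Sum.inl (l, p), ?_, rfl⟩)
          refine Finset.mem_insert_of_mem ((hKmem (l, p)).1.2 ⟨?_, heq⟩)
          intro h
          exact hit (by rw [h])
        · refine Or.inr (Or.inl ⟨by simp [S1], (hbζ l p hgt).1, ?_⟩)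
          simp only [w, Sum.elim_inr, Sum.elim_inl, if_neg (not_lt.2 hgt.le)]
          exact (hω l p).2.1
      · rcases lt_trichotomy (p.1 : ℕ) j with hlt | heq | hgt
        · refine Or.inl (Or.inl ?_)
          simp only [w, Sum.elim_inr, if_pos hlt]
        · refine Or.inl (Or.inr ⟨Sum.inr (l, p), ?_, rfl⟩)
          by_cases h : ((l, p) : T) = u0
          · rw [h]; exact Finset.mem_insert_self _ _
          · exact Finset.mem_insert_of_mem ((hKmem (l, p)).2.2 ⟨h, heq⟩)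
        · refine Or.inr (Or.inl ⟨by simp [S1], (hbζ l p hgt).2, ?_⟩)
          simp only [w, Sum.elim_inr, if_neg (not_lt.2 hgt.le), abs_neg]
          exact (hω l p).2.2
  refine ⟨hc1, ?_⟩
  by_contra hge
  rw [not_lt] at hge
  let w : (Fin q × Γ) ⊕ (T ⊕ T) → ℝ := Sum.elim (fun u => W u.1)
    (Sum.elim (fun u => if u = u0 then ω u.1 u.2 - ω' u.1 u.2 else
        if (u.2.1 : ℕ) < j then W u.1 else ω u.1 u.2)
      (fun u => if u = u0 then 0 else if (u.2.1 : ℕ) < j then 0 else - ω' u.1 u.2))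
  refine DecLowW_core2 w x z K (Sum.inr (Sum.inl u0)) (E := E) (D := D)
    (A := B) (ζ := ζ) (x0 := x0) (R := R) (Wm := Wm) (N := N) (m := m) S1 S2
    hE hD hBn hζ hx0 hWm hm (by omega) ?_ hxn (hxb l0 p0 hp0).1 (hxb l0 p0 hp0).2.2.1
    (hbR l0 p0).1 ?_ (fun k hk => hzb k (Finset.mem_insert_of_mem hk)) hzx hsep ?_ hn1 hn2
  · -- the relation
    intro m' h1 h2
    have h3 := hrel m' h1 h2
    have e : ∑ i, w i * x i ^ m' = ∑ l, (W l * (∑ γ, (a l γ : ℝ) ^ m') +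
        ∑ p, (ω l p * (b l p : ℝ) ^ m' - ω' l p * (b' l p : ℝ) ^ m')) := by
      rw [Fintype.sum_sum_type, Fintype.sum_sum_type, ← Finset.sum_add_distrib]
      simp only [w, x, z, Sum.elim_inl, Sum.elim_inr]
      rw [Fintype.sum_prod_type, Fintype.sum_prod_type, ← Finset.sum_add_distrib]
      refine Finset.sum_congr rfl fun l _ => ?_
      simp only [Finset.mul_sum]
      congr 1
      refine Finset.sum_congr rfl fun p _ => ?_
      by_cases hu : ((l, p) : T) = u0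
      · have hl : l = l0 := (Prod.ext_iff.1 hu).1
        have hp : p = p0 := (Prod.ext_iff.1 hu).2
        subst hl hp
        rw [if_pos hu, if_pos hu, hc1]
        ring
      · rw [if_neg hu, if_neg hu]
        by_cases hlt : (p.1 : ℕ) < j
        · rw [if_pos hlt, if_pos hlt, hbb l p hlt, ← hWω l p hlt]
          ring
        · rw [if_neg hlt, if_neg hlt]
          ring
    rw [e]
    exact h3
  · -- weight of the target
    simp only [w, Sum.elim_inr, Sum.elim_inl, if_true]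
    exact hge
  · -- the classes of atoms
    rintro (⟨l, γ⟩ | ⟨l, p⟩ | ⟨l, p⟩) hit
    · exact Or.inr (Or.inr ⟨by simp [S2], haR l γ, hW l⟩)
    · have hu : ((l, p) : T) ≠ u0 := fun h => hit (by rw [h])
      rcases lt_trichotomy (p.1 : ℕ) j with hlt | heq | hgt
      · refine Or.inr (Or.inr ⟨by simp [S2], (hbR l p).1, ?_⟩)
        simp only [w, Sum.elim_inr, Sum.elim_inl, if_neg hu, if_pos hlt]
        exact hW l
      · exact Or.inl (Or.inr ⟨Sum.inl (l, p), (hKmem (l, p)).1.2 ⟨hu, heq⟩, rfl⟩)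
      · refine Or.inr (Or.inl ⟨by simp [S1], (hbζ l p hgt).1, ?_⟩)
        simp only [w, Sum.elim_inr, Sum.elim_inl, if_neg hu, if_neg (not_lt.2 hgt.le)]
        exact (hω l p).2.1
    · by_cases hu : ((l, p) : T) = u0
      · refine Or.inl (Or.inl ?_)
        simp only [w, Sum.elim_inr, if_pos hu]
      · rcases lt_trichotomy (p.1 : ℕ) j with hlt | heq | hgt
        · refine Or.inl (Or.inl ?_)
          simp only [w, Sum.elim_inr, if_neg hu, if_pos hlt]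
        · exact Or.inl (Or.inr ⟨Sum.inr (l, p), (hKmem (l, p)).2.2 ⟨hu, heq⟩, rfl⟩)
        · refine Or.inr (Or.inl ⟨by simp [S1], (hbζ l p hgt).2, ?_⟩)
          simp only [w, Sum.elim_inr, if_neg hu, if_neg (not_lt.2 hgt.le), abs_neg]
          exact (hω l p).2.2

end LWar
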