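import Pool.Agent.KWar.DecTop

/-!
# LWar.DecTopW: `KWar.DecTop` with a weight for every bulk letter

`a l γ` the chain letters of the family `l` (weight `W l`), `b l p`, `b' l p` its bulk letters with
weights `ω l p`, `-ω' l p`.

PROOF. As `KWar.dec_top` (see `Pool/Agent/KWar/DecTop.lean`). Suppose that the conclusion fails for
`(l, p)`, `p.1 < j0`.
Case 1, `b l p ≠ b' l p`: the proof of `dec_top` (target `b l p` with weight `ω l p`, `|ω l p| ≥ D`; zeros:
the atoms of `Γ1` and all other atoms of the levels `< j0`; the partner is `b' l p`), with weights at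
most `B` instead of `D P`.
Case 2, `b l p = b' l p` and `|ω l p - ω' l p| ≥ D`: use the weight `ω l p - ω' l p` for the atom
`inr (inl (l, p))` (the target) and `0` for its partner `inr (inr (l, p))`, the same zeros without the
partner (one zero less). There is no partner factor: left side `≥ D x_t^m 4^(-n) Π'`, the other terms
are `≤ (E + 2q(#Γ + JM) B ζ^m) 2^n Π'`, and `x_t^m ≥ x_t^(m-1) ≥ x0^(m-1)` (naturals: `x_t ≥ 1`).
-/

namespace LWar

open Finset KWar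

private theorem DecTopW_cardFin (J M j0 : ℕ) :
    (univ.filter fun p : Fin J × Fin M => (p.1 : ℕ) < j0).card ≤ M * j0 := by
  have e : (univ.filter fun p : Fin J × Fin M => (p.1 : ℕ) < j0) =
      (univ.filter fun i : Fin J => (i : ℕ) < j0) ×ˢ (univ : Finset (Fin M)) := by
    ext p
    simp
  rw [e, Finset.card_product, Finset.card_univ, Fintype.card_fin, mul_comm]
  refine Nat.mul_le_mul_left _ ?_
  calc (univ.filter fun i : Fin J => (i : ℕ) < j0).card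
      ≤ (range j0).card := Finset.card_le_card_of_injOn (fun i => (i : ℕ))
        (fun i hi => by simpa using hi) (fun i _ j _ hij => Fin.ext hij)
    _ = j0 := Finset.card_range j0

private theorem DecTopW_cardProd {α : Type} [Fintype α] [DecidableEq α] (q : ℕ) (A : α → Prop)
    [DecidablePred A] :
    (univ.filter fun y : Fin q × α => A y.2).card = q * (univ.filter A).card := by
  have e : (univ.filter fun y : Fin q × α => A y.2) = (univ : Finset (Fin q)) ×ˢ (univ.filter A) := by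
    ext p
    simp
  rw [e, Finset.card_product, Finset.card_univ, Fintype.card_fin]

private theorem DecTopW_cardSum {α β : Type} [Fintype α] [Fintype β] (A : α ⊕ β → Prop)
    [DecidablePred A] :
    (univ.filter A).card = (univ.filter fun a => A (Sum.inl a)).card +
      (univ.filter fun b => A (Sum.inr b)).card := by
  classical
  simp only [Finset.card_filter, Fintype.sum_sum_type]

/-- Both cases at once: the target has weight `wt`, its partner weight `wr` and position `xr`. -/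
private theorem DecTopW_aux {Γ : Type} [Fintype Γ] [DecidableEq Γ] {q J M : ℕ} (Γ1 : Finset Γ)
    {m N j0 : ℕ} {E D B ζ x0 : ℝ} (a : Fin q → Γ → ℕ) (b b' : Fin q → Fin J × Fin M → ℕ)
    (W : Fin q → ℝ) (ω ω' : Fin q → Fin J × Fin M → ℝ) (hE : 0 ≤ E) (hD : 0 < D) (hDB : D ≤ B)
    (hζ : 1 ≤ ζ) (hx0 : 0 < x0) (hm : 1 ≤ m)
    (hrel : ∀ m', m ≤ m' → m' ≤ N → |∑ l, (W l * (∑ γ, (a l γ : ℝ) ^ m') +
      ∑ p, (ω l p * (b l p : ℝ) ^ m' - ω' l p * (b' l p : ℝ) ^ m'))| ≤ E)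
    (hcard : m + (2 * q * M * j0 + q * Γ1.card) ≤ N + 1) (hj0 : j0 ≤ J)
    (hsb : ∀ l p l' p', (p.1 : ℕ) < j0 → (p'.1 : ℕ) < j0 → (l, p) ≠ (l', p') →
      (b l' p' : ℝ) / 4 ≤ |(b l p : ℝ) - (b l' p' : ℝ)| ∧
      (b' l' p' : ℝ) / 4 ≤ |(b l p : ℝ) - (b' l' p' : ℝ)|)
    (hsa : ∀ l p l', (p.1 : ℕ) < j0 → ∀ γ ∈ Γ1, (a l' γ : ℝ) / 4 ≤ |(b l p : ℝ) - (a l' γ : ℝ)|)
    (hxb : ∀ l p, (p.1 : ℕ) < j0 → x0 ≤ (b l p : ℝ) ∧ ζ ≤ (b l p : ℝ) ∧ ζ ≤ (b' l p : ℝ))
    (hza : ∀ l, ∀ γ ∈ Γ1, ζ ≤ (a l γ : ℝ))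
    (haζ : ∀ l γ, γ ∉ Γ1 → (a l γ : ℝ) ≤ ζ)
    (hbζ : ∀ l p, j0 ≤ (p.1 : ℕ) → (b l p : ℝ) ≤ ζ ∧ (b' l p : ℝ) ≤ ζ)
    (hω : ∀ l p, D ≤ |ω l p| ∧ |ω l p| ≤ B ∧ |ω' l p| ≤ B) (hW : ∀ l, |W l| ≤ B)
    (hnum : 2 * 8 ^ (2 * q * M * j0 + q * Γ1.card) *
      (E + ((2 * q * (Fintype.card Γ + J * M) : ℕ) : ℝ) * B * ζ ^ m) < D * x0 ^ (m - 1))
    (l : Fin q) (p : Fin J × Fin M) (hp : (p.1 : ℕ) < j0) (wt wr xr : ℝ)
    (hwx : ∀ m' : ℕ, wt * (b l p : ℝ) ^ m' + wr * xr ^ m' =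
      ω l p * (b l p : ℝ) ^ m' - ω' l p * (b' l p : ℝ) ^ m')
    (hwt : D ≤ |wt|) (hww : |wt| + |wr| ≤ 2 * B) (h1 : 1 ≤ |(b l p : ℝ) - xr|)
    (h2 : xr ≤ 2 * (b l p : ℝ)) (h3 : ζ ≤ xr) : False := by
  classical
  have hB : 0 < B := lt_of_lt_of_le hD hDB
  -- atoms and weights
  let Ω : (Fin q × Γ) ⊕ ((Fin q × (Fin J × Fin M)) ⊕ (Fin q × (Fin J × Fin M))) → ℝ :=
    Sum.elim (fun y => W y.1) (Sum.elim (fun y => if y = (l, p) then wt else ω y.1 y.2)
      (fun y => if y = (l, p) then wr else - ω' y.1 y.2))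
  let x : (Fin q × Γ) ⊕ ((Fin q × (Fin J × Fin M)) ⊕ (Fin q × (Fin J × Fin M))) → ℝ :=
    Sum.elim (fun y => (a y.1 y.2 : ℝ)) (Sum.elim (fun y => (b y.1 y.2 : ℝ))
      (fun y => if y = (l, p) then xr else (b' y.1 y.2 : ℝ)))
  let A : (Fin q × Γ) ⊕ ((Fin q × (Fin J × Fin M)) ⊕ (Fin q × (Fin J × Fin M))) → Prop :=
    Sum.elim (fun y => y.2 ∈ Γ1) (Sum.elim (fun y => (y.2.1 : ℕ) < j0)
      (fun y => (y.2.1 : ℕ) < j0))
  let t : (Fin q × Γ) ⊕ ((Fin q × (Fin J × Fin M)) ⊕ (Fin q × (Fin J × Fin M))) :=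
    Sum.inr (Sum.inl (l, p))
  let r : (Fin q × Γ) ⊕ ((Fin q × (Fin J × Fin M)) ⊕ (Fin q × (Fin J × Fin M))) :=
    Sum.inr (Sum.inr (l, p))
  let K := (univ.filter A).erase t
  have hΩt : Ω t = wt := by
    show (if (l, p) = (l, p) then wt else ω l p) = wt
    rw [if_pos rfl]
  have hxtv : x t = (b l p : ℝ) := rfl
  have hxrv : x r = xr := by
    show (if (l, p) = (l, p) then xr else (b' l p : ℝ)) = xr
    rw [if_pos rfl]
  have htA : t ∈ univ.filter A := by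
    simp only [Finset.mem_filter, Finset.mem_univ, true_and]
    exact hp
  have hrK : r ∈ K := by
    refine Finset.mem_erase.mpr ⟨?_, ?_⟩
    · intro h
      exact absurd (Sum.inr.inj h) (by simp)
    · simp only [Finset.mem_filter, Finset.mem_univ, true_and]
      exact hp
  have hKA : ∀ i ∈ K, A i := fun i hi => (Finset.mem_filter.mp (Finset.mem_of_mem_erase hi)).2
  have hcA : (univ.filter A).card ≤ 2 * q * M * j0 + q * Γ1.card := by
    rw [DecTopW_cardSum, DecTopW_cardSum]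
    have e1 : (univ.filter fun y : Fin q × Γ => A (Sum.inl y)).card = q * Γ1.card := by
      have := DecTopW_cardProd (α := Γ) q (fun γ => γ ∈ Γ1)
      rw [Finset.filter_mem_eq_inter, Finset.univ_inter] at this
      rw [← this]
      refine congrArg Finset.card (Finset.ext fun y => ?_)
      rw [Finset.mem_filter, Finset.mem_filter]
      exact Iff.rfl
    have e2 : (univ.filter fun y : Fin q × (Fin J × Fin M) => A (Sum.inr (Sum.inl y))).card ≤
        q * (M * j0) := by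
      have := DecTopW_cardProd (α := Fin J × Fin M) q (fun p => (p.1 : ℕ) < j0)
      refine le_trans (le_of_eq ?_) (Nat.mul_le_mul_left _ (DecTopW_cardFin J M j0))
      rw [← this]
      refine congrArg Finset.card (Finset.ext fun y => ?_)
      rw [Finset.mem_filter, Finset.mem_filter]
      exact Iff.rfl
    have e3 : (univ.filter fun y : Fin q × (Fin J × Fin M) => A (Sum.inr (Sum.inr y))).card ≤
        q * (M * j0) := by
      have := DecTopW_cardProd (α := Fin J × Fin M) q (fun p => (p.1 : ℕ) < j0)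
      refine le_trans (le_of_eq ?_) (Nat.mul_le_mul_left _ (DecTopW_cardFin J M j0))
      rw [← this]
      refine congrArg Finset.card (Finset.ext fun y => ?_)
      rw [Finset.mem_filter, Finset.mem_filter]
      exact Iff.rfl
    have e4 : 2 * q * M * j0 = q * (M * j0) + q * (M * j0) := by ring
    omega
  have hcK : K.card + 1 ≤ 2 * q * M * j0 + q * Γ1.card := by
    have : K.card + 1 = (univ.filter A).card := Finset.card_erase_add_one htA
    omega
  have hrel' : ∀ m', m ≤ m' → m' ≤ N → |∑ i, Ω i * x i ^ m'| ≤ E := by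
    intro m' h1 h2
    have e : ∑ i, Ω i * x i ^ m' = ∑ l, (W l * (∑ γ, (a l γ : ℝ) ^ m') +
      ∑ p, (ω l p * (b l p : ℝ) ^ m' - ω' l p * (b' l p : ℝ) ^ m')) := by
      rw [Fintype.sum_sum_type, Fintype.sum_sum_type, ← Finset.sum_add_distrib (s := univ)
        (f := fun y : Fin q × (Fin J × Fin M) => Ω (Sum.inr (Sum.inl y)) *
          x (Sum.inr (Sum.inl y)) ^ m')]
      have e2 : ∀ y : Fin q × (Fin J × Fin M),
          Ω (Sum.inr (Sum.inl y)) * x (Sum.inr (Sum.inl y)) ^ m' +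
          Ω (Sum.inr (Sum.inr y)) * x (Sum.inr (Sum.inr y)) ^ m' =
          ω y.1 y.2 * (b y.1 y.2 : ℝ) ^ m' - ω' y.1 y.2 * (b' y.1 y.2 : ℝ) ^ m' := by
        intro y
        by_cases hy : y = (l, p)
        · subst hy
          show (if (l, p) = (l, p) then wt else ω l p) * (b l p : ℝ) ^ m' +
            (if (l, p) = (l, p) then wr else - ω' l p) *
            (if (l, p) = (l, p) then xr else (b' l p : ℝ)) ^ m' = _
          rw [if_pos rfl, if_pos rfl, if_pos rfl]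
          exact hwx m'
        · show (if y = (l, p) then wt else ω y.1 y.2) * (b y.1 y.2 : ℝ) ^ m' +
            (if y = (l, p) then wr else - ω' y.1 y.2) *
            (if y = (l, p) then xr else (b' y.1 y.2 : ℝ)) ^ m' = _
          rw [if_neg hy, if_neg hy, if_neg hy]
          ring
      rw [Finset.sum_congr rfl fun y _ => e2 y, Fintype.sum_prod_type, Fintype.sum_prod_type,
        ← Finset.sum_add_distrib]
      refine Finset.sum_congr rfl fun l _ => ?_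
      rw [Finset.mul_sum]
      rfl
    rw [e]
    exact hrel m' h1 h2
  have hx : ∀ i, 0 ≤ x i := by
    rintro (y | y | y)
    · exact Nat.cast_nonneg _
    · exact Nat.cast_nonneg _
    · show 0 ≤ (if y = (l, p) then xr else (b' y.1 y.2 : ℝ))
      split_ifs
      · linarith
      · exact Nat.cast_nonneg _
  have hsep : ∀ j ∈ K, j ≠ r → x j / 4 ≤ |x t - x j| := by
    rintro (⟨l', γ⟩ | ⟨l', p'⟩ | ⟨l', p'⟩) hj hjr
    · exact hsa l p l' hp γ (hKA _ hj)
    · have hlt : (l, p) ≠ (l', p') := by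
        intro h
        apply Finset.ne_of_mem_erase hj
        show Sum.inr (Sum.inl (l', p')) = Sum.inr (Sum.inl (l, p))
        rw [h]
      exact (hsb l p l' p' hp (hKA _ hj) hlt).1
    · have hlt : (l, p) ≠ (l', p') := by
        intro h
        apply hjr
        show Sum.inr (Sum.inr (l', p')) = Sum.inr (Sum.inr (l, p))
        rw [h]
      have e : x (Sum.inr (Sum.inr (l', p'))) = (b' l' p' : ℝ) := by
        show (if (l', p') = (l, p) then xr else (b' l' p' : ℝ)) = _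
        rw [if_neg (fun h => hlt h.symm)]
      rw [e]
      exact (hsb l p l' p' hp (hKA _ hj) hlt).2
  have hz : ∀ j ∈ K, ζ ≤ x j := by
    rintro (⟨l', γ⟩ | ⟨l', p'⟩ | ⟨l', p'⟩) hj
    · exact hza l' γ (hKA _ hj)
    · exact (hxb l' p' (hKA _ hj)).2.1
    · show ζ ≤ (if (l', p') = (l, p) then xr else (b' l' p' : ℝ))
      split_ifs
      · exact h3
      · exact (hxb l' p' (hKA _ hj)).2.2
  have hs : ∀ i, i ∉ K → i ≠ t → x i ≤ ζ := by
    have hnA : ∀ i, i ∉ K → i ≠ t → ¬ A i := by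
      intro i hi hit hA
      exact hi (Finset.mem_erase.mpr ⟨hit, Finset.mem_filter.mpr ⟨Finset.mem_univ _, hA⟩⟩)
    rintro (⟨l', γ⟩ | ⟨l', p'⟩ | ⟨l', p'⟩) hj hjt
    · exact haζ l' γ (hnA _ hj hjt)
    · exact (hbζ l' p' (not_lt.mp (hnA _ hj hjt))).1
    · have hj0p : j0 ≤ (p'.1 : ℕ) := not_lt.mp (hnA _ hj hjt)
      have e : x (Sum.inr (Sum.inr (l', p'))) = (b' l' p' : ℝ) := by
        show (if (l', p') = (l, p) then xr else (b' l' p' : ℝ)) = _
        rw [if_neg]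
        intro h
        have h5 : p' = p := congrArg Prod.snd h
        rw [h5] at hj0p
        omega
      rw [e]
      exact (hbζ l' p' hj0p).2
  have hWs : ∑ i, |Ω i| ≤ ((2 * q * (Fintype.card Γ + J * M) : ℕ) : ℝ) * B := by
    have e0 : ∀ y : Fin q × (Fin J × Fin M), |Ω (Sum.inr (Sum.inl y))| +
        |Ω (Sum.inr (Sum.inr y))| ≤ 2 * B := by
      intro y
      by_cases hy : y = (l, p)
      · show |(if y = (l, p) then wt else ω y.1 y.2)| +
          |(if y = (l, p) then wr else - ω' y.1 y.2)| ≤ _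
        rw [if_pos hy, if_pos hy]
        exact hww
      · show |(if y = (l, p) then wt else ω y.1 y.2)| +
          |(if y = (l, p) then wr else - ω' y.1 y.2)| ≤ _
        rw [if_neg hy, if_neg hy, abs_neg]
        linarith [(hω y.1 y.2).2.1, (hω y.1 y.2).2.2]
    rw [Fintype.sum_sum_type, Fintype.sum_sum_type, ← Finset.sum_add_distrib (s := univ)
      (f := fun y : Fin q × (Fin J × Fin M) => |Ω (Sum.inr (Sum.inl y))|)]
    have e1 : ∑ y : Fin q × Γ, |Ω (Sum.inl y)| ≤ ∑ _y : Fin q × Γ, B :=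
      Finset.sum_le_sum fun y _ => hW y.1
    have e2 := Finset.sum_le_sum (s := univ) fun y (_ : y ∈ univ) => e0 y
    refine (add_le_add e1 e2).trans ?_
    rw [Finset.sum_const, Finset.sum_const, Finset.card_univ, Finset.card_univ,
      Fintype.card_prod, Fintype.card_prod, Fintype.card_prod, Fintype.card_fin,
      Fintype.card_fin, Fintype.card_fin, nsmul_eq_mul, nsmul_eq_mul]
    push_cast
    have h5 : (0 : ℝ) ≤ (q : ℝ) * (Fintype.card Γ : ℝ) * B := by positivity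
    nlinarith
  have hxt : 0 < x t := lt_of_lt_of_le hx0 (hxb l p hp).1
  have hfin := DecTop_core (D := D) Ω x K t r hE hrK (by omega) hm hrel' hx hxt
    (by rw [hΩt]; exact hwt)
    hζ hsep (by rw [hxtv, hxrv]; exact h1) (by rw [hxtv, hxrv]; exact h2) hz hs hWs
  have h5 : D * x0 ^ (m - 1) ≤ D * x t ^ (m - 1) :=
    mul_le_mul_of_nonneg_left (pow_le_pow_left₀ hx0.le (hxb l p hp).1 _) hD.le
  have h6 : (2 : ℝ) * 8 ^ K.card ≤ 2 * 8 ^ (2 * q * M * j0 + q * Γ1.card) :=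
    mul_le_mul_of_nonneg_left (pow_le_pow_right₀ (by norm_num) (by omega)) (by norm_num)
  have h7 : 0 ≤ E + ((2 * q * (Fintype.card Γ + J * M) : ℕ) : ℝ) * B * ζ ^ m := by
    positivity
  exact absurd (lt_of_le_of_lt (h5.trans (hfin.trans (mul_le_mul_of_nonneg_right h6 h7))) hnum)
    (lt_irrefl _)


theorem dec_topW {Γ : Type} [Fintype Γ] [DecidableEq Γ] {q J M : ℕ} (Γ1 : Finset Γ)
    {m N j0 : ℕ} {E D B ζ x0 : ℝ} (a : Fin q → Γ → ℕ) (b b' : Fin q → Fin J × Fin M → ℕ)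
    (W : Fin q → ℝ) (ω ω' : Fin q → Fin J × Fin M → ℝ) (hE : 0 ≤ E) (hD : 0 < D) (hDB : D ≤ B)
    (hζ : 1 ≤ ζ) (hx0 : 0 < x0) (hm : 1 ≤ m)
    (hrel : ∀ m', m ≤ m' → m' ≤ N → |∑ l, (W l * (∑ γ, (a l γ : ℝ) ^ m') +
      ∑ p, (ω l p * (b l p : ℝ) ^ m' - ω' l p * (b' l p : ℝ) ^ m'))| ≤ E)
    (hcard : m + (2 * q * M * j0 + q * Γ1.card) ≤ N + 1) (hj0 : j0 ≤ J)
    (hsb : ∀ l p l' p', (p.1 : ℕ) < j0 → (p'.1 : ℕ) < j0 → (l, p) ≠ (l', p') →
      (b l' p' : ℝ) / 4 ≤ |(b l p : ℝ) - (b l' p' : ℝ)| ∧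
      (b' l' p' : ℝ) / 4 ≤ |(b l p : ℝ) - (b' l' p' : ℝ)|)
    (hsa : ∀ l p l', (p.1 : ℕ) < j0 → ∀ γ ∈ Γ1, (a l' γ : ℝ) / 4 ≤ |(b l p : ℝ) - (a l' γ : ℝ)|)
    (hpart : ∀ l p, (p.1 : ℕ) < j0 → (b' l p : ℝ) ≤ 2 * (b l p : ℝ))
    (hxb : ∀ l p, (p.1 : ℕ) < j0 → x0 ≤ (b l p : ℝ) ∧ ζ ≤ (b l p : ℝ) ∧ ζ ≤ (b' l p : ℝ))
    (hza : ∀ l, ∀ γ ∈ Γ1, ζ ≤ (a l γ : ℝ))
    (haζ : ∀ l γ, γ ∉ Γ1 → (a l γ : ℝ) ≤ ζ)
    (hbζ : ∀ l p, j0 ≤ (p.1 : ℕ) → (b l p : ℝ) ≤ ζ ∧ (b' l p : ℝ) ≤ ζ)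
    (hω : ∀ l p, D ≤ |ω l p| ∧ |ω l p| ≤ B ∧ |ω' l p| ≤ B) (hW : ∀ l, |W l| ≤ B)
    (hnum : 2 * 8 ^ (2 * q * M * j0 + q * Γ1.card) *
      (E + ((2 * q * (Fintype.card Γ + J * M) : ℕ) : ℝ) * B * ζ ^ m) < D * x0 ^ (m - 1)) :
    ∀ l p, (p.1 : ℕ) < j0 → b l p = b' l p ∧ |ω l p - ω' l p| < D := by
  intro l p hp
  have key := DecTopW_aux Γ1 a b b' W ω ω' hE hD hDB hζ hx0 hm hrel hcard hj0 hsb hsa hxb hza haζ
    hbζ hω hW hnum l p hp
  have heq : b l p = b' l p := by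
    by_contra hne
    refine key (ω l p) (- ω' l p) (b' l p : ℝ) (fun m' => by ring) (hω l p).1 ?_ ?_
      (hpart l p hp) (hxb l p hp).2.2
    · rw [abs_neg]
      linarith [(hω l p).2.1, (hω l p).2.2]
    · have h3 : ((b l p : ℤ) - (b' l p : ℤ)) ≠ 0 := by
        intro h
        apply hne
        omega
      have h4 := Int.one_le_abs h3
      exact_mod_cast h4
  refine ⟨heq, ?_⟩
  by_contra hlt
  have h1 : 1 ≤ (b l p : ℝ) := hζ.trans (hxb l p hp).2.1
  refine key (ω l p - ω' l p) 0 (2 * (b l p : ℝ)) (fun m' => ?_) (not_lt.mp hlt) ?_ ?_ le_rfl ?_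
  · rw [← heq]
    ring
  · rw [abs_zero, add_zero]
    refine (abs_sub _ _).trans ?_
    linarith [(hω l p).2.1, (hω l p).2.2]
  · have e : (b l p : ℝ) - 2 * (b l p : ℝ) = -(b l p : ℝ) := by ring
    rw [e, abs_neg, abs_of_nonneg (by linarith)]
    exact h1
  · linarith [(hxb l p hp).2.1]

end LWar
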