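import Pool.Agent.KWar.TestPoly

/-!
# LWar.WBdW: `KWar.WBd` with a weight for every bulk letter

`a l γ` the chain letters of the family `l` (weight `W l`), `b l p`, `b' l p` its bulk letters with
weights `ω l p`, `-ω' l p`; for the levels `< j` they agree and `ω l p - ω' l p = W l`.

PROOF. The same as that of `KWar.wbd` (see `Pool/Agent/KWar/WBd.lean`): weights `inl (l, γ) ↦ W l`,
`inr (inl (l, p)) ↦ if p.1 < j then W l else ω l p`, `inr (inr (l, p)) ↦ if p.1 < j then 0 else - ω' l p`.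
Copy the proof of `wbd` and replace `τ l` by `ω l p`. (`KWar.wbd` is the case `ω l p = τ l`.)
-/

namespace LWar

open Finset KWar

private lemma WBdW_val {κ : Type*} (K : Finset κ) (z : κ → ℝ) {c y Y : ℝ} {m n : ℕ}
    (hn : K.card ≤ n) (hc : 0 < c) (hz : ∀ j ∈ K, c ≤ z j) (hy : 0 ≤ y) (hyY : y ≤ Y)
    (hYc : Y ≤ c) :
    |y ^ m * ∏ j ∈ K, (y - z j)| ≤ Y ^ m * (2 ^ n * ∏ j ∈ K, z j) := by
  have hP : 0 ≤ ∏ j ∈ K, z j := Finset.prod_nonneg fun j hj => hc.le.trans (hz j hj)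
  rw [abs_mul, abs_of_nonneg (pow_nonneg hy m), Finset.abs_prod]
  have h1 : ∏ j ∈ K, |y - z j| ≤ ∏ j ∈ K, (2 * z j) := by
    refine Finset.prod_le_prod (fun j _ => abs_nonneg _) fun j hj => ?_
    have := hz j hj
    rw [abs_le]
    constructor <;> linarith
  have h2 : ∏ j ∈ K, (2 * z j) = 2 ^ K.card * ∏ j ∈ K, z j := by
    rw [Finset.prod_mul_distrib, Finset.prod_const]
  have h3 : (2 : ℝ) ^ K.card ≤ 2 ^ n := pow_le_pow_right₀ (by norm_num) hn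
  refine mul_le_mul (pow_le_pow_left₀ hy hyY m) (h1.trans ?_)
    (Finset.prod_nonneg fun j _ => abs_nonneg _) (pow_nonneg (hy.trans hyY) m)
  rw [h2]
  exact mul_le_mul_of_nonneg_right h3 hP

private lemma WBdW_one {κ : Type*} (K : Finset κ) (z : κ → ℝ) {n : ℕ}
    (hn : K.card ≤ n) (hz : ∀ j ∈ K, 1 ≤ z j) :
    ∏ j ∈ K, (1 + |z j|) ≤ 2 ^ n * ∏ j ∈ K, z j := by
  have hP : 0 ≤ ∏ j ∈ K, z j := Finset.prod_nonneg fun j hj => zero_le_one.trans (hz j hj)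
  have h1 : ∏ j ∈ K, (1 + |z j|) ≤ ∏ j ∈ K, (2 * z j) := by
    refine Finset.prod_le_prod (fun j _ => by positivity) fun j hj => ?_
    have := hz j hj
    rw [abs_of_nonneg (by linarith)]
    linarith
  have h2 : ∏ j ∈ K, (2 * z j) = 2 ^ K.card * ∏ j ∈ K, z j := by
    rw [Finset.prod_mul_distrib, Finset.prod_const]
  have h3 : (2 : ℝ) ^ K.card ≤ 2 ^ n := pow_le_pow_right₀ (by norm_num) hn
  refine h1.trans ?_
  rw [h2]
  exact mul_le_mul_of_nonneg_right h3 hP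

private lemma WBdW_low {κ : Type*} (K : Finset κ) (z : κ → ℝ) {c y : ℝ} {m n : ℕ}
    (hn : K.card ≤ n) (hc : 0 < c) (hz : ∀ j ∈ K, c ≤ z j) (hy : c ≤ y)
    (hsep : ∀ j ∈ K, z j / 4 ≤ |y - z j|) :
    c ^ m * ((∏ j ∈ K, z j) / 4 ^ n) ≤ |y ^ m * ∏ j ∈ K, (y - z j)| := by
  have hP : 0 ≤ ∏ j ∈ K, z j := Finset.prod_nonneg fun j hj => hc.le.trans (hz j hj)
  rw [abs_mul, abs_of_nonneg (pow_nonneg (hc.le.trans hy) m), Finset.abs_prod]
  have h1 : ∏ j ∈ K, (z j / 4) ≤ ∏ j ∈ K, |y - z j| := by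
    refine Finset.prod_le_prod (fun j hj => ?_) fun j hj => hsep j hj
    have := hz j hj
    linarith
  have h2 : ∏ j ∈ K, (z j / 4) = (∏ j ∈ K, z j) / 4 ^ K.card := by
    rw [Finset.prod_div_distrib, Finset.prod_const]
  have h3 : (4 : ℝ) ^ K.card ≤ 4 ^ n := pow_le_pow_right₀ (by norm_num) hn
  refine mul_le_mul (pow_le_pow_left₀ hc.le hy m) (le_trans ?_ h1) (by positivity)
    (pow_nonneg (hc.le.trans hy) m)
  rw [h2]
  exact div_le_div_of_nonneg_left hP (by positivity) h3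

theorem wbdW {Γ : Type} [Fintype Γ] [DecidableEq Γ] {q J M : ℕ} (Γ0 : Finset Γ)
    {m N j : ℕ} {E D' P ζ δ β0 : ℝ} (a : Fin q → Γ → ℕ) (b b' : Fin q → Fin J × Fin M → ℕ)
    (W : Fin q → ℝ) (ω ω' : Fin q → Fin J × Fin M → ℝ) (hE : 0 ≤ E) (hD' : 0 ≤ D') (hP : 0 < P)
    (hβ0 : 0 < β0) (hβP : 1 ≤ β0 * P)
    (hrel : ∀ m', m ≤ m' → m' ≤ N → |∑ l, (W l * (∑ γ, (a l γ : ℝ) ^ m') +
      ∑ p, (ω l p * (b l p : ℝ) ^ m' - ω' l p * (b' l p : ℝ) ^ m'))| ≤ E)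
    (hcard : m + (q * M + q * Γ0.card) ≤ N + 1)
    (hj : 1 ≤ j) (hJ : 1 ≤ J) (hM : 1 ≤ M)
    (hbb : ∀ l p, (p.1 : ℕ) < j → b l p = b' l p)
    (hWω : ∀ l p, (p.1 : ℕ) < j → ω l p - ω' l p = W l)
    (hb0 : ∀ l p, (p.1 : ℕ) = 0 → β0 * P ≤ (b l p : ℝ))
    (ha0 : ∀ l, ∀ γ ∈ Γ0, β0 * P ≤ (a l γ : ℝ))
    (hsb : ∀ l p l' p', (p.1 : ℕ) = 0 → (p'.1 : ℕ) = 0 → (l, p) ≠ (l', p') →
      (b l' p' : ℝ) / 4 ≤ |(b l p : ℝ) - (b l' p' : ℝ)|)
    (hsa : ∀ l p l', (p.1 : ℕ) = 0 → ∀ γ ∈ Γ0, (a l' γ : ℝ) / 4 ≤ |(b l p : ℝ) - (a l' γ : ℝ)|)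
    (hδ0 : 0 ≤ δ) (hδβ : δ ≤ β0) (hζ0 : 0 ≤ ζ) (hζβ : ζ ≤ β0 * P)
    (haδ : ∀ l γ, γ ∉ Γ0 → (a l γ : ℝ) ≤ δ * P)
    (hbδ : ∀ l p, 1 ≤ (p.1 : ℕ) → (p.1 : ℕ) < j → (b l p : ℝ) ≤ δ * P)
    (hbζ : ∀ l p, j ≤ (p.1 : ℕ) → (b l p : ℝ) ≤ ζ ∧ (b' l p : ℝ) ≤ ζ)
    (hω : ∀ l p, j ≤ (p.1 : ℕ) → |ω l p| ≤ D' ∧ |ω' l p| ≤ D')
    (hsmall : 2 * 8 ^ (q * M + q * Γ0.card) * ((q * (Fintype.card Γ + J * M) : ℕ) : ℝ) * δ ^ m ≤
      β0 ^ m) :
    ∀ l, |W l| ≤ 2 * 8 ^ (q * M + q * Γ0.card) / β0 ^ m *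
      (E / P ^ m + ((2 * q * J * M : ℕ) : ℝ) * D' * (ζ / P) ^ m) := by
  classical
  intro l0
  obtain ⟨l, -, hl⟩ := Finset.exists_max_image (Finset.univ : Finset (Fin q))
    (fun l => |W l|) ⟨l0, Finset.mem_univ _⟩
  refine (hl l0 (Finset.mem_univ _)).trans ?_
  have hq : 0 < q := lt_of_le_of_lt (Nat.zero_le _) l.2
  set w : ℝ := |W l| with hw
  have hw0 : 0 ≤ w := abs_nonneg _
  set n1 : ℕ := q * M + q * Γ0.card with hn1
  let p0 : Fin J × Fin M := (⟨0, hJ⟩, ⟨0, hM⟩)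
  have hc : 0 < β0 * P := mul_pos hβ0 hP
  -- atoms, weights, zeros
  let x : (Fin q × Γ) ⊕ ((Fin q × (Fin J × Fin M)) ⊕ (Fin q × (Fin J × Fin M))) → ℝ :=
    Sum.elim (fun c => (a c.1 c.2 : ℝ)) (Sum.elim (fun c => (b c.1 c.2 : ℝ))
      (fun c => (b' c.1 c.2 : ℝ)))
  let v : (Fin q × Γ) ⊕ ((Fin q × (Fin J × Fin M)) ⊕ (Fin q × (Fin J × Fin M))) → ℝ :=
    Sum.elim (fun c => W c.1)
      (Sum.elim (fun c => if (c.2.1 : ℕ) < j then W c.1 else ω c.1 c.2)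
        (fun c => if (c.2.1 : ℕ) < j then 0 else - ω' c.1 c.2))
  let z : (Fin q × Γ) ⊕ (Fin q × Fin M) → ℝ :=
    Sum.elim (fun c => (a c.1 c.2 : ℝ)) (fun c => (b c.1 (⟨0, hJ⟩, c.2) : ℝ))
  let K : Finset ((Fin q × Γ) ⊕ (Fin q × Fin M)) :=
    ((Finset.univ : Finset (Fin q)) ×ˢ Γ0).disjSum
      ((Finset.univ : Finset (Fin q × Fin M)).erase (l, ⟨0, hM⟩))
  let t : (Fin q × Γ) ⊕ ((Fin q × (Fin J × Fin M)) ⊕ (Fin q × (Fin J × Fin M))) :=
    Sum.inr (Sum.inl (l, p0))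
  have hKc : K.card + 1 = n1 := by
    rw [Finset.card_disjSum, Finset.card_product, Finset.card_erase_of_mem (Finset.mem_univ _),
      Finset.card_univ, Finset.card_univ, Fintype.card_prod, Fintype.card_fin, Fintype.card_fin, hn1]
    have : 1 ≤ q * M := Nat.mul_pos hq hM
    omega
  have hKn : K.card ≤ n1 := by omega
  have hz : ∀ i ∈ K, β0 * P ≤ z i := by
    rintro (⟨l', γ⟩ | ⟨l', i'⟩) hi
    · rw [Finset.inl_mem_disjSum] at hi
      exact ha0 l' γ (Finset.mem_product.1 hi).2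
    · exact hb0 l' _ rfl
  have hrel' : ∀ m', m ≤ m' → m' ≤ N → |∑ i ∈ Finset.univ, v i * x i ^ m'| ≤ E := by
    intro m' h1 h2
    refine le_of_eq_of_le (congrArg _ ?_) (hrel m' h1 h2)
    rw [Fintype.sum_sum_type, Fintype.sum_sum_type, Fintype.sum_prod_type, Fintype.sum_prod_type,
      Fintype.sum_prod_type, ← Finset.sum_add_distrib, ← Finset.sum_add_distrib]
    refine Finset.sum_congr rfl fun l' _ => ?_
    congr 1
    · rw [Finset.mul_sum]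
      rfl
    · rw [← Finset.sum_add_distrib]
      refine Finset.sum_congr rfl fun p _ => ?_
      simp only [v, x, Sum.elim_inr, Sum.elim_inl]
      by_cases hp : (p.1 : ℕ) < j
      · rw [if_pos hp, if_pos hp, ← hbb l' p hp, ← hWω l' p hp]
        ring
      · rw [if_neg hp, if_neg hp]
        ring
  have key := test_target Finset.univ v x z K (by omega) hrel' (Finset.mem_univ t)
  have hωt : v t = W l := by
    simp only [v, t, Sum.elim_inr, Sum.elim_inl, p0]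
    rw [if_pos (by exact hj)]
  have hxt : x t = (b l p0 : ℝ) := rfl
  rw [hωt, ← hw] at key
  set Q : ℝ := ∏ i ∈ K, z i with hQ
  have hQ0 : 0 < Q := Finset.prod_pos fun i hi => hc.trans_le (hz i hi)
  -- left side
  have hL : (β0 * P) ^ m * (Q / 4 ^ n1) ≤ |x t ^ m * ∏ i ∈ K, (x t - z i)| := by
    refine WBdW_low K z hKn hc hz (hb0 l p0 rfl) ?_
    rintro (⟨l', γ⟩ | ⟨l', i'⟩) hi
    · rw [Finset.inl_mem_disjSum] at hi
      exact hsa l p0 l' rfl γ (Finset.mem_product.1 hi).2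
    · rw [Finset.inr_mem_disjSum, Finset.mem_erase] at hi
      refine hsb l p0 l' (⟨0, hJ⟩, i') rfl rfl fun h => hi.1 ?_
      rw [Prod.mk.injEq] at h
      rw [h.1.symm, (Prod.mk.inj h.2).2.symm]
  have hR := WBdW_one K z hKn (fun i hi => hβP.trans (hz i hi))
  -- the other atoms
  set A : ℝ := w * ((δ * P) ^ m * (2 ^ n1 * Q)) with hA
  set B : ℝ := D' * (ζ ^ m * (2 ^ n1 * Q)) with hB
  have hA0 : 0 ≤ A := by positivity
  have hB0 : 0 ≤ B := by positivity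
  have hδP : 0 ≤ δ * P := by positivity
  have hδc : δ * P ≤ β0 * P := mul_le_mul_of_nonneg_right hδβ hP.le
  have hzero : ∀ (u : ℝ) (y : ℝ), (∃ i ∈ K, y = z i) → |u| * |y ^ m * ∏ i ∈ K, (y - z i)| = 0 := by
    rintro u y ⟨i, hi, rfl⟩
    rw [Finset.prod_eq_zero hi (sub_self _), mul_zero, abs_zero, mul_zero]
  let G : (Fin q × Γ) ⊕ ((Fin q × (Fin J × Fin M)) ⊕ (Fin q × (Fin J × Fin M))) → ℝ :=
    Sum.elim (fun _ => A) (Sum.elim (fun _ => A + B) (fun _ => B))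
  have hG0 : ∀ i, 0 ≤ G i := by
    rintro (c | c | c)
    · exact hA0
    · exact add_nonneg hA0 hB0
    · exact hB0
  have hG : ∀ i ∈ Finset.univ.erase t, |v i| * |x i ^ m * ∏ k ∈ K, (x i - z k)| ≤ G i := by
    rintro (⟨l', γ⟩ | ⟨l', p⟩ | ⟨l', p⟩) hi
    · by_cases hγ : γ ∈ Γ0
      · rw [hzero (v (Sum.inl (l', γ))) (x (Sum.inl (l', γ))) ⟨Sum.inl (l', γ), by
          rw [Finset.inl_mem_disjSum]; exact Finset.mk_mem_product (Finset.mem_univ _) hγ, rfl⟩]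
        exact hA0
      · exact mul_le_mul (hl l' (Finset.mem_univ _))
          (WBdW_val K z hKn hc hz (Nat.cast_nonneg _) (haδ l' γ hγ) hδc) (abs_nonneg _) hw0
    · by_cases hp0 : (p.1 : ℕ) = 0
      · have hp1 : p = (⟨0, hJ⟩, p.2) := Prod.ext (Fin.ext hp0) rfl
        rw [hzero (v (Sum.inr (Sum.inl (l', p)))) (x (Sum.inr (Sum.inl (l', p)))) ⟨Sum.inr (l', p.2), by
          rw [Finset.inr_mem_disjSum, Finset.mem_erase]
          refine ⟨fun h => (Finset.mem_erase.1 hi).1 ?_, Finset.mem_univ _⟩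
          rw [Prod.mk.injEq] at h
          rw [hp1, h.1, h.2], by
          change (b l' p : ℝ) = (b l' (⟨0, hJ⟩, p.2) : ℝ)
          rw [← hp1]⟩]
        exact add_nonneg hA0 hB0
      · by_cases hpj : (p.1 : ℕ) < j
        · have e : v (Sum.inr (Sum.inl (l', p))) = W l' := by
            simp only [v, Sum.elim_inr, Sum.elim_inl]
            rw [if_pos hpj]
          rw [e]
          refine (mul_le_mul (hl l' (Finset.mem_univ _))
            (WBdW_val K z hKn hc hz (Nat.cast_nonneg _) (hbδ l' p (by omega) hpj) hδc)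
            (abs_nonneg _) hw0).trans ?_
          exact le_add_of_nonneg_right hB0
        · have e : v (Sum.inr (Sum.inl (l', p))) = ω l' p := by
            simp only [v, Sum.elim_inr, Sum.elim_inl]
            rw [if_neg hpj]
          rw [e]
          refine (mul_le_mul (hω l' p (by omega)).1
            (WBdW_val K z hKn hc hz (Nat.cast_nonneg _) (hbζ l' p (by omega)).1 hζβ)
            (abs_nonneg _) hD').trans ?_
          exact le_add_of_nonneg_left hA0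
    · by_cases hpj : (p.1 : ℕ) < j
      · have e : v (Sum.inr (Sum.inr (l', p))) = 0 := by
          simp only [v, Sum.elim_inr]
          rw [if_pos hpj]
        rw [e, abs_zero, zero_mul]
        exact hB0
      · have e : v (Sum.inr (Sum.inr (l', p))) = - ω' l' p := by
          simp only [v, Sum.elim_inr]
          rw [if_neg hpj]
        rw [e, abs_neg]
        exact mul_le_mul (hω l' p (by omega)).2
          (WBdW_val K z hKn hc hz (Nat.cast_nonneg _) (hbζ l' p (by omega)).2 hζβ)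
          (abs_nonneg _) hD'
  have hsum : ∑ i ∈ Finset.univ.erase t, |v i| * |x i ^ m * ∏ k ∈ K, (x i - z k)| ≤
      ((q * (Fintype.card Γ + J * M) : ℕ) : ℝ) * A + ((2 * q * J * M : ℕ) : ℝ) * B := by
    refine (Finset.sum_le_sum hG).trans ?_
    refine (Finset.sum_le_sum_of_subset_of_nonneg (Finset.subset_univ _)
      fun i _ _ => hG0 i).trans (le_of_eq ?_)
    rw [Fintype.sum_sum_type, Fintype.sum_sum_type]
    simp only [G, Sum.elim_inl, Sum.elim_inr, Finset.sum_const, Finset.card_univ,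
      Fintype.card_prod, Fintype.card_fin, nsmul_eq_mul]
    push_cast
    ring
  -- conclusion
  have h1 : w * ((β0 * P) ^ m * (Q / 4 ^ n1)) ≤ E * (2 ^ n1 * Q) +
      (((q * (Fintype.card Γ + J * M) : ℕ) : ℝ) * A + ((2 * q * J * M : ℕ) : ℝ) * B) :=
    (mul_le_mul_of_nonneg_left hL hw0).trans (key.trans (add_le_add
      (mul_le_mul_of_nonneg_left hR hE) hsum))
  set C : ℝ := ((q * (Fintype.card Γ + J * M) : ℕ) : ℝ) with hC
  set D : ℝ := ((2 * q * J * M : ℕ) : ℝ) with hD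
  have h2 : w * β0 ^ m * P ^ m ≤ 8 ^ n1 * (E + C * w * δ ^ m * P ^ m + D * D' * ζ ^ m) := by
    have e1 : w * ((β0 * P) ^ m * (Q / 4 ^ n1)) * (4 ^ n1 / Q) = w * β0 ^ m * P ^ m := by
      rw [mul_pow]
      field_simp
    have e2 : (E * (2 ^ n1 * Q) + (C * A + D * B)) * (4 ^ n1 / Q) =
        8 ^ n1 * (E + C * w * δ ^ m * P ^ m + D * D' * ζ ^ m) := by
      rw [hA, hB, mul_pow, show (8 : ℝ) = 2 * 4 by norm_num, mul_pow]
      field_simp
      ring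
    rw [← e1, ← e2]
    exact mul_le_mul_of_nonneg_right h1 (by positivity)
  have hPm : 0 < P ^ m := pow_pos hP m
  have hβm : 0 < β0 ^ m := pow_pos hβ0 m
  have h3 : 8 ^ n1 * (C * w * δ ^ m * P ^ m) ≤ w * β0 ^ m * P ^ m / 2 := by
    have := mul_le_mul_of_nonneg_left hsmall (mul_nonneg hw0 hPm.le)
    nlinarith [this]
  have h4 : w * β0 ^ m * P ^ m ≤ 2 * 8 ^ n1 * (E + D * D' * ζ ^ m) := by
    have : 8 ^ n1 * (E + C * w * δ ^ m * P ^ m + D * D' * ζ ^ m) =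
      8 ^ n1 * (C * w * δ ^ m * P ^ m) + 8 ^ n1 * (E + D * D' * ζ ^ m) := by ring
    rw [this] at h2
    linarith
  have e3 : 2 * 8 ^ n1 / β0 ^ m * (E / P ^ m + D * D' * (ζ / P) ^ m) =
      2 * 8 ^ n1 * (E + D * D' * ζ ^ m) / (β0 ^ m * P ^ m) := by
    rw [div_pow]
    field_simp
  rw [e3, le_div_iff₀ (mul_pos hβm hPm)]
  linarith [h4, mul_assoc w (β0 ^ m) (P ^ m)]

end LWar
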